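import Pool.Agent.K3h11.Erde.P12
import Pool.Agent.TH486.LAC.Horn
import Pool.Agent.TH486.LAC.Lift

/-!
# Hamiltonian decompositions of tori and independent blocks of generators
-/

set_option autoImplicit false

namespace Pool.Agent.U460.LA

open Finset SimpleGraph Module
open Pool.Agent.K3h88.Erde Pool.Agent.W111.LAR Pool.Agent.TH486.LAC

theorem mem_hc {V : Type} [Fintype V] {F : Set (Sym2 V)} (hF : IsHC F) :
    ∃ φ : ZMod (Fintype.card V) → V, Function.Bijective φ ∧
      ∀ x y, s(x, y) ∈ F ↔ ∃ u, (x = φ u ∧ y = φ (u + 1)) ∨ (x = φ (u + 1) ∧ y = φ u) := by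
  obtain ⟨-, φ, hφ, rfl⟩ := Pool.Agent.K3h11.Erde.p2c V F hF
  refine ⟨φ, hφ, fun x y => ?_⟩
  constructor
  · rintro ⟨_, ⟨u, rfl⟩, he⟩
    rw [Sym2.map_mk] at he
    rcases Sym2.eq_iff.1 he with ⟨h1, h2⟩ | ⟨h1, h2⟩
    · exact ⟨u, Or.inl ⟨h1.symm, h2.symm⟩⟩
    · exact ⟨u, Or.inr ⟨h2.symm, h1.symm⟩⟩
  · rintro ⟨u, ⟨rfl, rfl⟩ | ⟨rfl, rfl⟩⟩
    · exact ⟨s(u, u + 1), ⟨u, rfl⟩, by simp⟩
    · exact ⟨s(u, u + 1), ⟨u, rfl⟩, by rw [Sym2.map_mk]; exact Sym2.eq_swap⟩

theorem hc_card {V : Type} [Fintype V] {F : Set (Sym2 V)} (hF : IsHC F) :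
    3 ≤ Fintype.card V := (Pool.Agent.K3h11.Erde.p2c V F hF).1

theorem hc_loop {V : Type} [Fintype V] {F : Set (Sym2 V)} (hF : IsHC F) (x : V) :
    s(x, x) ∉ F := by
  have h3 := hc_card hF
  obtain ⟨φ, hφ, h⟩ := mem_hc hF
  rw [h]
  have : Fact (1 < Fintype.card V) := ⟨by omega⟩
  rintro ⟨u, ⟨h1, h2⟩ | ⟨h1, h2⟩⟩
  · have := hφ.1 (h1.symm.trans h2)
    simp at this
  · have := hφ.1 (h1.symm.trans h2)
    simp at this

theorem hc_deg {V : Type} [Fintype V] {F : Set (Sym2 V)} (hF : IsHC F) (x : V) :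
    {y | s(x, y) ∈ F}.ncard ≤ 2 := by
  obtain ⟨φ, hφ, h⟩ := mem_hc hF
  obtain ⟨v, rfl⟩ := hφ.2 x
  have hsub : {y | s(φ v, y) ∈ F} ⊆ {φ (v + 1), φ (v - 1)} := by
    intro y hy
    rw [Set.mem_ofPred_eq, h] at hy
    obtain ⟨u, ⟨h1, h2⟩ | ⟨h1, h2⟩⟩ := hy
    · rw [hφ.1 h1]
      exact Or.inl h2
    · right
      rw [Set.mem_singleton_iff, hφ.1 h1, h2]
      congr 1
      ring
  exact (Set.ncard_le_ncard hsub (Set.toFinite _)).trans (by
    refine (Set.ncard_insert_le _ _).trans ?_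
    rw [Set.ncard_singleton])

theorem hc_conn {V : Type} [Fintype V] {F : Set (Sym2 V)} (hF : IsHC F) (x y : V) :
    Relation.ReflTransGen (fun u v => s(u, v) ∈ F) x y := by
  have h3 := hc_card hF
  obtain ⟨φ, hφ, h⟩ := mem_hc hF
  have : NeZero (Fintype.card V) := ⟨by omega⟩
  obtain ⟨a, rfl⟩ := hφ.2 x
  obtain ⟨b, rfl⟩ := hφ.2 y
  have key : ∀ k : ℕ, Relation.ReflTransGen (fun u v => s(u, v) ∈ F) (φ a) (φ (a + k)) := by
    intro k
    induction k with
    | zero => simp only [Nat.cast_zero, add_zero]; exact Relation.ReflTransGen.refl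
    | succ k ih =>
      refine ih.tail ?_
      rw [h]
      exact ⟨a + k, Or.inl ⟨rfl, by push_cast; rw [add_assoc]⟩⟩
  have h1 := key (b - a).val
  rwa [ZMod.natCast_val, ZMod.cast_id', id, add_sub_cancel] at h1

theorem mem_torE {m L : ℕ} (x y : Fin m → ZMod L) :
    s(x, y) ∈ torE m L ↔ ∃ i, y = x + Pi.single i 1 ∨ x = y + Pi.single i 1 := by
  constructor
  · rintro ⟨z, i, he⟩
    rcases Sym2.eq_iff.1 he with ⟨h1, h2⟩ | ⟨h1, h2⟩
    · exact ⟨i, Or.inl (by rw [h1, h2])⟩
    · exact ⟨i, Or.inr (by rw [h1, h2])⟩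
  · rintro ⟨i, h | h⟩
    · exact ⟨x, i, by rw [h]⟩
    · exact ⟨y, i, by rw [h]; exact Sym2.eq_swap⟩

theorem hd_zero (p : ℕ) : DecN IsHC 0 (torE 0 p) := by
  refine ⟨fun i => i.elim0, fun i => i.elim0, fun i => i.elim0, ?_⟩
  ext e
  constructor
  · rintro ⟨y, i, -⟩
    exact i.elim0
  · intro h
    rw [Set.mem_iUnion] at h
    obtain ⟨i, -⟩ := h
    exact i.elim0

/-- A Hamiltonian decomposition of the torus gives a decomposition of the Cayley graph generated by
an independent block into graphs of maximum degree two whose components have the size of the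
subspace spanned by the block. -/
theorem block {p : ℕ} [Fact p.Prime] {V : Type} [AddCommGroup V] [Module (ZMod p) V] [Finite V]
    (B : Finset V) (hB : Ind (ZMod p) B) (hHD : DecN IsHC B.card (torE B.card p)) :
    ∃ P : Fin B.card → SimpleGraph V, (∀ i v, ((P i).neighborSet v).ncard ≤ 2) ∧
      (∀ i v, p ^ B.card ≤ csize (P i) v) ∧
      (∀ v w, (∃ i, (P i).Adj v w) ↔ (w - v ∈ B ∨ v - w ∈ B)) := by
  classical
  obtain ⟨b, hb⟩ : ∃ b, b = B.card := ⟨_, rfl⟩
  rw [← hb] at hHD ⊢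
  obtain ⟨F, hF, -, hE⟩ := hHD
  -- the basis
  obtain ⟨e, he⟩ : ∃ e : Fin b → V, ∀ v, v ∈ B ↔ ∃ i, e i = v := by
    subst hb
    refine ⟨fun i => (B.equivFin.symm i : V), fun v => ?_⟩
    constructor
    · intro hv
      exact ⟨B.equivFin ⟨v, hv⟩, by simp⟩
    · rintro ⟨i, rfl⟩
      exact (B.equivFin.symm i).2
  have hrange : Set.range e = (B : Set V) := by
    ext v
    rw [Set.mem_range, mem_coe, he]
  have hli : LinearIndependent (ZMod p) e := by
    rw [linearIndependent_iff_card_eq_finrank_span, Fintype.card_fin, hrange, hb]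
    exact hB.symm
  have hinj := linearIndependent_iff_injective_fintypeLinearCombination.1 hli
  obtain ⟨φ, hφ⟩ : ∃ φ : (Fin b → ZMod p) →ₗ[ZMod p] V, φ = Fintype.linearCombination (ZMod p) e :=
    ⟨_, rfl⟩
  rw [← hφ] at hinj
  have hφe : ∀ i, φ (Pi.single i 1) = e i := by
    intro i
    rw [hφ, Fintype.linearCombination_apply_single, one_smul]
  obtain ⟨π, hπ⟩ := LinearMap.exists_leftInverse_of_injective φ (LinearMap.ker_eq_bot.2 hinj)
  have hπφ : ∀ y, π (φ y) = y := fun y => by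
    have := congrArg (fun f => f y) hπ
    simpa using this
  -- the graphs
  let P : Fin b → SimpleGraph V := fun i =>
    { Adj := fun v w => v - φ (π v) = w - φ (π w) ∧ s(π v, π w) ∈ F i
      symm := ⟨fun v w h => ⟨h.1.symm, by rw [Sym2.eq_swap]; exact h.2⟩⟩
      loopless := ⟨fun v h => hc_loop (hF i) _ h.2⟩ }
  have hPadj : ∀ i v w, (P i).Adj v w ↔ v - φ (π v) = w - φ (π w) ∧ s(π v, π w) ∈ F i :=
    fun i v w => Iff.rfl
  refine ⟨P, ?_, ?_, ?_⟩
  · intro i v
    have h1 : Set.InjOn π ((P i).neighborSet v) := by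
      intro w hw w' hw' hww
      have h2 := ((hPadj i v w).1 hw).1
      have h3 := ((hPadj i v w').1 hw').1
      rw [h2] at h3
      have hww' : π w = π w' := hww
      rw [hww'] at h3
      exact sub_left_injective h3
    rw [← h1.ncard_image]
    refine (Set.ncard_le_ncard ?_ (Set.toFinite _)).trans (hc_deg (hF i) (π v))
    rintro _ ⟨w, hw, rfl⟩
    exact ((hPadj i v w).1 hw).2
  · intro i v
    have hreach : ∀ y, (P i).Reachable v (v - φ (π v) + φ y) := by
      intro y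
      have h1 := hc_conn (hF i) (π v) y
      induction h1 with
      | refl => rw [sub_add_cancel]
      | tail h1 h2 ih =>
        rename_i z y
        refine ih.trans (Adj.reachable ?_)
        rw [hPadj]
        have h3 : ∀ y, π (v - φ (π v) + φ y) = y := by
          intro y
          rw [map_add, map_sub, hπφ, hπφ, sub_self, zero_add]
        rw [h3, h3]
        exact ⟨by abel, h2⟩
    have h2 : (Set.range fun y => v - φ (π v) + φ y) ⊆ {w | (P i).Reachable v w} := by
      rintro _ ⟨y, rfl⟩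
      exact hreach y
    have h3 := Set.ncard_le_ncard h2 (Set.toFinite _)
    have h4 : (Set.range fun y => v - φ (π v) + φ y).ncard = p ^ b := by
      rw [← Set.image_univ, Set.ncard_image_of_injective, Set.ncard_univ, Nat.card_fun,
        Nat.card_zmod, Nat.card_fin]
      intro y y' h
      exact hinj (add_left_cancel h)
    rw [h4] at h3
    exact h3
  · intro v w
    have h1 : (∃ i, (P i).Adj v w) ↔ v - φ (π v) = w - φ (π w) ∧ s(π v, π w) ∈ torE b p := by
      rw [hE, Set.mem_iUnion]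
      constructor
      · rintro ⟨i, h1, h2⟩
        exact ⟨h1, i, h2⟩
      · rintro ⟨h1, i, h2⟩
        exact ⟨i, h1, h2⟩
    rw [h1, mem_torE]
    have key : ∀ (v w : V) (i : Fin b), v - φ (π v) = w - φ (π w) ∧ π w = π v + Pi.single i 1 ↔
        w - v = e i := by
      intro v w i
      constructor
      · rintro ⟨h2, h3⟩
        have h4 : w - v = φ (π w) - φ (π v) := by
          have h5 : w - v = (w - φ (π w)) - (v - φ (π v)) + (φ (π w) - φ (π v)) := by abel
          rw [h5, h2, sub_self, zero_add]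
        rw [h4, h3, map_add, hφe]
        abel
      · intro h2
        have h3 : w = v + e i := by rw [← h2]; abel
        have h4 : π w = π v + Pi.single i 1 := by
          rw [h3, map_add, ← hφe, hπφ]
        refine ⟨?_, h4⟩
        rw [h4, map_add, hφe, h3]
        abel
    constructor
    · rintro ⟨h2, i, h3 | h3⟩
      · left
        rw [he]
        exact ⟨i, ((key v w i).1 ⟨h2, h3⟩).symm⟩
      · right
        rw [he]
        exact ⟨i, ((key w v i).1 ⟨h2.symm, h3⟩).symm⟩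
    · rintro (h2 | h2)
      · obtain ⟨i, hi⟩ := (he _).1 h2
        obtain ⟨h3, h4⟩ := (key v w i).2 hi.symm
        exact ⟨h3, i, Or.inl h4⟩
      · obtain ⟨i, hi⟩ := (he _).1 h2
        obtain ⟨h3, h4⟩ := (key w v i).2 hi.symm
        exact ⟨h3.symm, i, Or.inr h4⟩

end Pool.Agent.U460.LA
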