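import Pool.Agent.U460.LA.St

/-!
# Blocks with nested spans
-/

set_option autoImplicit false

namespace Pool.Agent.U460.LA

open SimpleGraph H931R3.LA Finset Module
open Pool.Agent.W111.LAR Pool.Agent.TH486.LAC
open Pool.Agent.K3h88.Erde (IsHC DecN torE)
open Pool.Agent.K3h11.Erde (p1c)

theorem basis_dec {p : ℕ} [Fact p.Prime] {V : Type} [AddCommGroup V] [Module (ZMod p) V] [Fintype V]
    (B : Finset V) (hB : Ind (ZMod p) B) {b : ℕ} (hb : b = B.card)
    (hr : finrank (ZMod p) V = b) (hHD : DecN IsHC b (torE b p)) :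
    ∃ E : Fin b → Set (Sym2 V), (∀ i, IsHC (E i)) ∧
      ∀ v, ∀ s ∈ B, ∃ i, s(v, v + s) ∈ E i := by
  classical
  obtain ⟨F, hF, -, hE⟩ := hHD
  obtain ⟨e, he⟩ : ∃ e : Fin b → V, ∀ v, v ∈ B ↔ ∃ i, e i = v := by
    subst hb
    refine ⟨fun i => (B.equivFin.symm i : V), fun v => ?_⟩
    constructor
    · intro hv
      exact ⟨B.equivFin ⟨v, hv⟩, by simp⟩
    · rintro ⟨i, rfl⟩
      exact (B.equivFin.symm i).2
  have hrange : Set.range e = (B : Set V) := by
    ext v
    rw [Set.mem_range, mem_coe, he]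
  have hli : LinearIndependent (ZMod p) e := by
    rw [linearIndependent_iff_card_eq_finrank_span, Fintype.card_fin, hrange, hb]
    exact hB.symm
  have hinj := linearIndependent_iff_injective_fintypeLinearCombination.1 hli
  obtain ⟨φ, hφ⟩ : ∃ φ : (Fin b → ZMod p) →ₗ[ZMod p] V, φ = Fintype.linearCombination (ZMod p) e :=
    ⟨_, rfl⟩
  rw [← hφ] at hinj
  have hφe : ∀ i, φ (Pi.single i 1) = e i := by
    intro i
    rw [hφ, Fintype.linearCombination_apply_single, one_smul]
  have : Module.Finite (ZMod p) V := Module.Finite.of_finite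
  have hsurj : Function.Surjective φ := by
    refine (LinearMap.injective_iff_surjective_of_finrank_eq_finrank ?_).1 hinj
    rw [hr, Module.finrank_fin_fun]
  refine ⟨fun i => Sym2.map φ '' F i, fun i => p1c _ _ _ _ ⟨hinj, hsurj⟩ (hF i), ?_⟩
  intro v s hs
  obtain ⟨y, rfl⟩ := hsurj v
  obtain ⟨j, rfl⟩ := (he s).1 hs
  have h1 : s(y, y + Pi.single j 1) ∈ torE b p := ⟨y, j, rfl⟩
  rw [hE, Set.mem_iUnion] at h1
  obtain ⟨i, hi⟩ := h1
  refine ⟨i, s(y, y + Pi.single j 1), hi, ?_⟩
  rw [Sym2.map_mk, map_add, hφe]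

section sub

variable {K V : Type} [Field K] [AddCommGroup V] [Module K V]

open Classical in
theorem sub_mem (Y : Submodule K V) (B : Finset V) (x : Y) :
    x ∈ B.subtype (fun v => v ∈ Y) ↔ (x : V) ∈ B := by
  rw [Finset.mem_subtype]

open Classical in
theorem sub_card (Y : Submodule K V) (B : Finset V) (hY : ∀ x ∈ B, x ∈ Y) :
    (B.subtype (fun v => v ∈ Y)).card = B.card := by
  rw [Finset.card_subtype, Finset.filter_true_of_mem hY]

open Classical in
theorem sub_map (Y : Submodule K V) (B : Finset V) (hY : ∀ x ∈ B, x ∈ Y) :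
    (Submodule.span K ((B.subtype (fun v => v ∈ Y) : Finset Y) : Set Y)).map Y.subtype =
      Submodule.span K (B : Set V) := by
  rw [Submodule.map_span]
  congr 1
  ext x
  constructor
  · rintro ⟨y, hy, rfl⟩
    exact (sub_mem Y B y).1 hy
  · intro hx
    exact ⟨⟨x, hY x hx⟩, (sub_mem Y B ⟨x, hY x hx⟩).2 hx, rfl⟩

open Classical in
theorem sub_ind (Y : Submodule K V) (B : Finset V) (hY : ∀ x ∈ B, x ∈ Y) (hB : Ind K B) :
    Ind K (B.subtype (fun v => v ∈ Y)) := by
  unfold Ind at *
  rw [sub_card Y B hY, ← hB, ← sub_map Y B hY, Submodule.finrank_map_subtype_eq]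

open Classical in
theorem sub_span (Y : Submodule K V) (B : Finset V) (hY : ∀ x ∈ B, x ∈ Y) (x : Y)
    (hx : (x : V) ∈ Submodule.span K (B : Set V)) :
    x ∈ Submodule.span K ((B.subtype (fun v => v ∈ Y) : Finset Y) : Set Y) := by
  rw [← sub_map Y B hY] at hx
  obtain ⟨y, hy, he⟩ := hx
  have : y = x := Subtype.ext he
  rwa [← this]

end sub

/-- Blocks with nested spans. -/
theorem chain {p : ℕ} [Fact p.Prime] (HD : ∀ b, DecN IsHC b (torE b p)) :
    ∀ (n : ℕ) (V : Type) [AddCommGroup V] [Module (ZMod p) V] [Finite V]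
      (B : Fin n → Finset V), (∀ j, Ind (ZMod p) (B j)) →
      (∀ i j, i ≤ j → ∀ x ∈ B j, x ∈ Submodule.span (ZMod p) (B i : Set V)) →
      ∑ j, ((B j).card : ℝ) / (p : ℝ) ^ (B j).card ≤ 7 / 12 →
      St (cay {x | ∃ j, x ∈ B j}) (∑ j, (B j).card)
        (∑ j, ((B j).card : ℝ) / (p : ℝ) ^ (B j).card) := by
  classical
  intro n
  induction n with
  | zero =>
    intro V _ _ _ B _ _ _
    rw [Fin.sum_univ_zero, Fin.sum_univ_zero]
    refine st_bot.mono ?_
    intro a b hab
    rcases hab.2 with ⟨j, -⟩ | ⟨j, -⟩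
    · exact j.elim0
    · exact j.elim0
  | succ n ih =>
    intro V _ _ _ B hB hn hc
    have hp : 2 ≤ p := (Fact.out : p.Prime).two_le
    obtain ⟨Y, hY⟩ : ∃ Y, Y = Submodule.span (ZMod p) (B 0 : Set V) := ⟨_, rfl⟩
    have hYm : ∀ j, ∀ x ∈ B j, x ∈ Y := fun j x hx => hY ▸ hn 0 j (Fin.zero_le j) x hx
    have : Fintype Y := Fintype.ofFinite Y
    have hrY : finrank (ZMod p) Y = (B 0).card := by
      rw [hY]
      exact hB 0
    have hcY : Nat.card Y = p ^ (B 0).card := by
      rw [Module.natCard_eq_pow_finrank (K := ZMod p) (V := Y), Nat.card_zmod, hrY]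
    obtain ⟨B', hB'⟩ : ∃ B' : Fin (n + 1) → Finset Y,
        ∀ j, B' j = (B j).subtype (fun v => v ∈ Y) := ⟨_, fun _ => rfl⟩
    have hcard : ∀ j, (B' j).card = (B j).card := fun j => by
      rw [hB']
      exact sub_card Y (B j) (hYm j)
    have hind : ∀ j, Ind (ZMod p) (B' j) := fun j => by
      rw [hB']
      exact sub_ind Y (B j) (hYm j) (hB j)
    have hmem : ∀ j (x : Y), x ∈ B' j ↔ (x : V) ∈ B j := fun j x => by
      rw [hB']
      exact sub_mem Y (B j) x
    have hnest : ∀ i j, i ≤ j → ∀ x ∈ B' j, x ∈ Submodule.span (ZMod p) (B' i : Set Y) := by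
      intro i j hij x hx
      rw [hB']
      exact sub_span Y (B i) (hYm i) x (hn i j hij x ((hmem j x).1 hx))
    rw [Fin.sum_univ_succ] at hc
    have hpos : (0 : ℝ) < p := by
      have : 0 < p := by omega
      exact_mod_cast this
    have hcpos : (0 : ℝ) ≤ ((B 0).card : ℝ) / (p : ℝ) ^ (B 0).card := by positivity
    have h1 := ih Y (fun j => B' j.succ) (fun j => hind _)
      (fun i j hij x hx => hnest _ _ (Fin.succ_le_succ_iff.2 hij) x hx) (by
        simp only [hcard]
        linarith)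
    simp only [hcard] at h1
    obtain ⟨E, hE1, hE2⟩ := basis_dec (B' 0) (hind 0) (b := (B 0).card) (hcard 0).symm hrY (HD _)
    have hc2 : ∑ j : Fin n, ((B j.succ).card : ℝ) / (p : ℝ) ^ (B j.succ).card +
        ((B 0).card : ℝ) / Nat.card Y ≤ 7 / 12 := by
      rw [hcY]
      push_cast
      linarith
    have h2 := h1.add_many (B 0).card (fun i => SimpleGraph.fromEdgeSet (E i))
      (fun i => hamG_of_ishc (hE1 i)) hc2
    rw [hcY] at h2
    have e1 : ∑ j, (B j).card = ∑ j : Fin n, (B j.succ).card + (B 0).card := by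
      rw [Fin.sum_univ_succ, add_comm]
    have e2 : ∑ j, ((B j).card : ℝ) / (p : ℝ) ^ (B j).card =
        ∑ j : Fin n, ((B j.succ).card : ℝ) / (p : ℝ) ^ (B j.succ).card +
          ((B 0).card : ℝ) / (p : ℝ) ^ (B 0).card := by
      rw [Fin.sum_univ_succ, add_comm]
    rw [e1, e2]
    push_cast at h2
    -- the copies
    obtain ⟨π, hπ⟩ := LinearMap.exists_leftInverse_of_injective Y.subtype
      (LinearMap.ker_eq_bot.2 Y.subtype_injective)
    have hπy : ∀ y : Y, π (y : V) = y := fun y => by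
      have := congrArg (fun f => f y) hπ
      simpa using this
    refine h2.copy (fun v : V => (⟨v - (π v : V), by
      rw [LinearMap.mem_ker, map_sub, hπy, sub_self]⟩ : LinearMap.ker π)) (fun v => π v) ?_ ?_ _ ?_
    · intro v w h3 h4
      have h5 := congrArg Subtype.val h3
      simp only at h5 h4
      rw [h4] at h5
      exact sub_left_injective h5
    · rintro ⟨z, hz⟩ a
      refine ⟨z + (a : V), ?_, ?_⟩
      · apply Subtype.ext
        rw [LinearMap.mem_ker] at hz
        simp only
        rw [map_add, hz, hπy, zero_add, add_sub_cancel_right]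
      · rw [LinearMap.mem_ker] at hz
        rw [map_add, hz, hπy, zero_add]
    · have key : ∀ (v s : V) (j : Fin (n + 1)) (hs : s ∈ B j),
          π (v + s) = π v + ⟨s, hYm j s hs⟩ ∧
          v - (π v : V) = (v + s) - (π (v + s) : V) := by
        intro v s j hs
        have h3 : π s = ⟨s, hYm j s hs⟩ := hπy ⟨s, hYm j s hs⟩
        have h4 : π (v + s) = π v + ⟨s, hYm j s hs⟩ := by rw [map_add, h3]
        refine ⟨h4, ?_⟩
        rw [h4]
        push_cast
        abel
      have key2 : ∀ (v s : V) (j : Fin (n + 1)) (hs : s ∈ B j), s ≠ 0 →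
          (cay {x | ∃ j : Fin n, x ∈ B' j.succ} ⊔
            ⨆ i, SimpleGraph.fromEdgeSet (E i)).Adj (π v) (π (v + s)) := by
        intro v s j hs h0
        obtain ⟨h3, -⟩ := key v s j hs
        have h4 : π v ≠ π (v + s) := by
          rw [h3]
          intro h5
          have h6 : (⟨s, hYm j s hs⟩ : Y) = 0 := by
            have := h5.symm
            rwa [add_eq_left] at this
          exact h0 (congrArg Subtype.val h6)
        rw [sup_adj, iSup_adj]
        induction j using Fin.cases with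
        | zero =>
          right
          obtain ⟨i, hi⟩ := hE2 (π v) ⟨s, hYm 0 s hs⟩ ((hmem 0 _).2 hs)
          refine ⟨i, ?_⟩
          rw [SimpleGraph.fromEdgeSet_adj]
          rw [← h3] at hi
          exact ⟨hi, h4⟩
        | succ j =>
          left
          refine ⟨h4, Or.inl ⟨j, ?_⟩⟩
          rw [h3, add_sub_cancel_left, hmem]
          exact hs
      intro v w hvw
      obtain ⟨hne, h | h⟩ := hvw
      · obtain ⟨j, hj⟩ := h
        have e1 : w = v + (w - v) := by abel
        have h0 : w - v ≠ 0 := fun h => hne (sub_eq_zero.1 h).symm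
        have h3 := (key v (w - v) j hj).2
        have h4 := key2 v (w - v) j hj h0
        rw [← e1] at h3 h4
        exact ⟨Subtype.ext h3, h4⟩
      · obtain ⟨j, hj⟩ := h
        have e1 : v = w + (v - w) := by abel
        have h0 : v - w ≠ 0 := fun h => hne (sub_eq_zero.1 h)
        have h3 := (key w (v - w) j hj).2
        have h4 := key2 w (v - w) j hj h0
        rw [← e1] at h3 h4
        exact ⟨Subtype.ext h3.symm, h4.symm⟩

end Pool.Agent.U460.LA
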