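import Pool.Agent.U460.LA.Five2

/-!
# The chords of the torus `C_L ^ 5`
-/

set_option autoImplicit false

namespace Pool.Agent.U460.LA

open Pool.Agent.K3h88.Erde Pool.Agent.K3h34.Erde

section

variable {K : ℕ} (hK : 3 ≤ K)

theorem E1_zero : E1 hK 0 = (0, 0) := by
  have h := E1_cast hK 0 (by positivity)
  rw [Nat.cast_zero] at h
  rw [h]
  simp [c1]

theorem E2_zero : E2 hK 0 = (0, 0) := by
  have h := E2_cast hK 0 (by positivity)
  rw [Nat.cast_zero] at h
  rw [h]
  simp [c2]

theorem E1_nat (i : ℕ) : E1 hK (i : ZMod (K * K)) = c1 K K i := by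
  induction i with
  | zero => rw [Nat.cast_zero, E1_zero]; simp [c1]
  | succ i ih => rw [Nat.cast_add, Nat.cast_one, E1_succ, ih, c1_succ K K dvd_rfl]

theorem c1_form (a b : ℕ) (hb : b < K) :
    c1 K K (a * K + b) = ((a : ZMod K), (b : ZMod K) - (a : ZMod K)) := by
  have h : (a * K + b) / K = a := by
    rw [Nat.add_comm, Nat.add_mul_div_right _ _ (by omega), Nat.div_eq_of_lt hb, zero_add]
  unfold c1
  rw [h]
  push_cast
  simp

theorem sm_self (v : ZMod K × ZMod K) : sm K K v = v.1 + v.2 := by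
  unfold sm
  rw [ZMod.cast_id]

theorem n1_ne (v : ZMod K × ZMod K) (h : v.1 + v.2 ≠ -1) : n1 K K v = (v.1, v.2 + 1) := by
  unfold n1
  rw [if_neg (by rw [sm_self]; exact h)]

theorem n2_ne (v : ZMod K × ZMod K) (h : v.1 + v.2 ≠ -1) : n2 K K v = (v.1 + 1, v.2) := by
  unfold n2
  rw [if_neg (by rw [sm_self]; exact h)]

theorem n2_eq (v : ZMod K × ZMod K) (h : v.1 + v.2 = -1) : n2 K K v = (v.1, v.2 + 1) := by
  unfold n2
  rw [if_pos (by rw [sm_self]; exact h)]

theorem E2_neg_one : E2 hK (-1) = (0, -1) := by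
  apply (P2 hK).injective
  have h := E2_succ hK (-1)
  rw [neg_add_cancel, E2_zero] at h
  rw [P2_apply, P2_apply, ← h, n2_eq _ (by simp)]
  simp

theorem E1_pred : E1 hK ((K - 1 : ℕ) : ZMod (K * K)) = (0, -1) := by
  have h := c1_form (K := K) 0 (K - 1) (by omega)
  rw [zero_mul, zero_add] at h
  rw [E1_nat, h, Nat.cast_sub (by omega)]
  simp

include hK in
theorem n2_c1 (t : ℕ) (h : ¬ K ∣ t + 1) : n2 K K (c1 K K t) = c1 K K (t + (K + 1)) := by
  have hK0 : 0 < K := by omega
  have h1 : (t + (K + 1)) / K = t / K + 1 := by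
    have h2 : t + (K + 1) = (t + 1) + K := by ring
    rw [h2, Nat.add_div_right _ hK0]
    have := Nat.succ_div (a := t) (b := K)
    rw [if_neg h] at this
    omega
  have h3 : sm K K (c1 K K t) ≠ -1 := by
    rw [sm_c1 K K dvd_rfl, Ne, neg_one_iff]
    exact h
  unfold n2
  rw [if_neg h3]
  unfold c1
  rw [h1]
  push_cast
  refine Prod.ext ?_ ?_
  · rfl
  · simp only [CharP.cast_eq_zero]
    ring

end

section

variable {L : ℕ} (hL : 3 ≤ L)

theorem phi_form (a b : ℕ) (hb : b < L * L) : phi hL ((a * (L * L) + b : ℕ) : ZMod ((L * L) * (L * L))) =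
    (E1 hL (a : ZMod (L * L)), E1 hL ((b : ZMod (L * L)) - (a : ZMod (L * L)))) := by
  show kap hL (E1 (three_sq hL) _) = _
  rw [E1_nat, c1_form _ _ hb]
  rfl

theorem tht_apply (a b : ZMod (L * L)) : tht hL (a, b) = (E2 hL a, E2 hL (-b)) := rfl

theorem SS0_of (x y : ZMod ((L * L) * (L * L)))
    (h : n2 (L * L) (L * L) (E1 (three_sq hL) x) = E1 (three_sq hL) y) : SS hL 0 x = y := by
  show (E1 (three_sq hL)).symm.permCongr (P2 (three_sq hL)) x = y
  rw [Equiv.permCongr_apply, Equiv.symm_symm, P2_apply, h, Equiv.symm_apply_apply]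

theorem SS1_of (x y : ZMod ((L * L) * (L * L))) (v : ZMod (L * L) × ZMod (L * L))
    (h1 : tht hL v = phi hL x) (h2 : tht hL (n1 (L * L) (L * L) v) = phi hL y) :
    SS hL 1 x = y := by
  show ((tht hL).trans (phi hL).symm).permCongr (P1 (three_sq hL)) x = y
  have h3 : ((tht hL).trans (phi hL).symm).symm x = v := by
    show (tht hL).symm (phi hL x) = v
    rw [← h1, Equiv.symm_apply_apply]
  rw [Equiv.permCongr_apply, h3, P1_apply]
  show (phi hL).symm (tht hL _) = y
  rw [h2, Equiv.symm_apply_apply]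

theorem SS2_of (x y : ZMod ((L * L) * (L * L))) (v : ZMod (L * L) × ZMod (L * L))
    (h1 : tht hL (n2 (L * L) (L * L) v) = phi hL x) (h2 : tht hL v = phi hL y) :
    SS hL 2 x = y := by
  show ((tht hL).trans (phi hL).symm).permCongr (P2 (three_sq hL))⁻¹ x = y
  have h3 : ((tht hL).trans (phi hL).symm).symm x = P2 (three_sq hL) v := by
    show (tht hL).symm (phi hL x) = _
    rw [← h1, Equiv.symm_apply_apply, P2_apply]
  rw [Equiv.permCongr_apply, h3, Equiv.Perm.inv_def, Equiv.symm_apply_apply]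
  show (phi hL).symm (tht hL _) = y
  rw [h2, Equiv.symm_apply_apply]

theorem S0_eq (a b : ℕ) (hb : b + 1 < L * L) :
    SS hL 0 ((a * (L * L) + b : ℕ) : ZMod ((L * L) * (L * L))) =
      (((a + 1) * (L * L) + (b + 1) : ℕ) : ZMod ((L * L) * (L * L))) := by
  apply SS0_of
  rw [E1_nat, E1_nat, c1_form _ _ (by omega), c1_form _ _ hb, n2_ne]
  · push_cast
    refine Prod.ext rfl ?_
    simp only
    ring
  · simp only
    rw [show (a : ZMod (L * L)) + ((b : ZMod (L * L)) - a) = (b : ZMod (L * L)) by ring, Ne,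
      neg_one_iff]
    exact Nat.not_dvd_of_pos_of_lt (by omega) hb

theorem S1_eq (w : ℕ) (hw : w + (L - 1) < L * L) (hw' : w ≠ L - 1) :
    SS hL 1 ((w * (L * L) + w : ℕ) : ZMod ((L * L) * (L * L))) =
      ((w * (L * L) + (w + (L - 1)) : ℕ) : ZMod ((L * L) * (L * L))) := by
  have : NeZero (L * L) := ⟨by positivity⟩
  apply SS1_of hL _ _ ((E2 hL).symm (E1 hL (w : ZMod (L * L))), 0)
  · rw [phi_form _ _ _ (by omega), tht_apply, Equiv.apply_symm_apply, neg_zero, sub_self, E2_zero,
      E1_zero]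
  · rw [phi_form _ _ _ hw, n1_ne]
    · rw [tht_apply]
      simp only
      rw [Equiv.apply_symm_apply, zero_add, E2_neg_one, Nat.cast_add, add_sub_cancel_left, E1_pred]
    · simp only
      rw [add_zero]
      intro h
      rw [Equiv.symm_apply_eq, E2_neg_one, ← E1_pred hL] at h
      have h1 := (E1 hL).injective h
      have h2 := (ZMod.natCast_eq_natCast_iff' _ _ _).1 h1
      rw [Nat.mod_eq_of_lt (by omega), Nat.mod_eq_of_lt (by omega)] at h2
      exact hw' h2

theorem S2_eq (r : ℕ) (hr1 : L + 1 < 2 * r) (hr2 : 2 * r ≤ L * L) (hr3 : ¬ L ∣ L * L - r + 1) :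
    SS hL 2 (((L * L - r) * (L * L) + (L * L - 2 * r) : ℕ) : ZMod ((L * L) * (L * L))) =
      (((L * L - r) * (L * L) + (L * L - 2 * r + (L + 1)) : ℕ) : ZMod ((L * L) * (L * L))) := by
  have hN : ((L * L : ℕ) : ZMod (L * L)) = 0 := ZMod.natCast_self _
  have e1 : ((L * L - 2 * r : ℕ) : ZMod (L * L)) - ((L * L - r : ℕ) : ZMod (L * L)) =
      ((L * L - r : ℕ) : ZMod (L * L)) := by
    rw [Nat.cast_sub hr2, Nat.cast_sub (by omega : r ≤ L * L), hN]
    push_cast
    ring
  have e2 : ((L * L - 2 * r + (L + 1) : ℕ) : ZMod (L * L)) - ((L * L - r : ℕ) : ZMod (L * L)) =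
      ((L * L - r + (L + 1) : ℕ) : ZMod (L * L)) := by
    rw [Nat.cast_add (L * L - 2 * r), Nat.cast_add (L * L - r)]
    linear_combination e1
  set t := L * L - r with ht
  set l := (E2 hL).symm (E1 hL (t : ZMod (L * L))) with hl
  have hE : E2 hL l = E1 hL (t : ZMod (L * L)) := by rw [hl, Equiv.apply_symm_apply]
  apply SS2_of hL _ _ (l, -1 - l)
  · rw [phi_form _ _ _ (by omega), n2_eq _ (by simp), tht_apply, e1]
    simp only
    rw [show -(-1 - l + 1) = l by ring, hE]
  · rw [phi_form _ _ _ (by omega), tht_apply, e2, hE]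
    rw [show -(-1 - l) = l + 1 by ring, E2_succ, hE, E1_nat, E1_nat, n2_c1 hL _ hr3]

end

/-- the row of the third family -/
def rr (L c : ℕ) : ℕ := if c % 2 = 0 then (c + 3 + L) / 2 else (c + 3 + 2 * L) / 2

/-- rows of the first ends -/
def ra (L : ℕ) : Fin 3 → ℕ → ℕ :=
  ![fun c => 2 * c, fun c => 3 * L + 1 - c, fun c => L * L - rr L c]

/-- rows of the second ends -/
def rb (L : ℕ) : Fin 3 → ℕ → ℕ :=
  ![fun c => 2 * c + 1, fun c => 3 * L + 1 - c, fun c => L * L - rr L c]

/-- offsets of the first ends -/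
def oa (L : ℕ) : Fin 3 → ℕ → ℕ :=
  ![fun c => L - c, fun c => 3 * L + 1 - c, fun c => L * L - 2 * rr L c]

/-- offsets of the second ends -/
def ob (L : ℕ) : Fin 3 → ℕ → ℕ :=
  ![fun c => L - c + 1, fun c => 3 * L + 1 - c + (L - 1), fun c => L * L - 2 * rr L c + (L + 1)]

theorem rr_spec {L c : ℕ} (hodd : L % 2 = 1) (hc : c < L - 1) :
    2 * rr L c = c + 3 + L ∧ c % 2 = 0 ∨ 2 * rr L c = c + 3 + 2 * L ∧ c % 2 = 1 := by
  unfold rr
  split_ifs with h
  · left; omega
  · right; omega

theorem row_lt {N a b a' b' : ℕ} (hb : b < N) (h : a < a') : a * N + b < a' * N + b' := by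
  have h1 : (a + 1) * N ≤ a' * N := Nat.mul_le_mul_right N h
  have h2 : (a + 1) * N = a * N + N := by ring
  omega

theorem mod_aux (L a b c q s : ℕ) (hb : b + c = L * q + s) (hs : s < L) :
    (a * (L * L) + b + c) % L = s := by
  have h : a * (L * L) + b + c = L * (a * L + q) + s := by
    calc a * (L * L) + b + c = a * (L * L) + (b + c) := by ring
      _ = L * (a * L + q) + s := by rw [hb]; ring
  rw [h, Nat.mul_add_mod, Nat.mod_eq_of_lt hs]

theorem fin3 (j : Fin 3) : j = 0 ∨ j = 1 ∨ j = 2 := by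
  fin_cases j <;> simp

theorem rr_dvd {L c : ℕ} (hL : 5 ≤ L) (hodd : L % 2 = 1) (hc : c < L - 1) :
    ¬ L ∣ L * L - rr L c + 1 := by
  intro h
  have hsq : 5 * L ≤ L * L := Nat.mul_le_mul_right L hL
  have hr := rr_spec hodd hc
  have hr' : rr L c ≤ L * L := by omega
  have h1 : L ∣ 2 * (L * L - rr L c + 1) := h.mul_left 2
  have h2 : 2 * (L * L - rr L c + 1) + (c + 1) = 2 * (L * L) - L ∨
      2 * (L * L - rr L c + 1) + (c + 1) = 2 * (L * L) - 2 * L := by omega
  have h3 : L ∣ 2 * (L * L - rr L c + 1) + (c + 1) := by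
    rcases h2 with h2 | h2
    · rw [h2]
      exact Nat.dvd_sub ((dvd_mul_right L L).mul_left 2) dvd_rfl
    · rw [h2]
      exact Nat.dvd_sub ((dvd_mul_right L L).mul_left 2) (dvd_mul_left L 2)
  have h4 : L ∣ c + 1 := (Nat.dvd_add_right h1).1 h3
  have := Nat.le_of_dvd (by omega) h4
  omega

theorem chords {L : ℕ} (hL : 5 ≤ L) (hodd : L % 2 = 1) :
    Chords ((L * L) * (L * L)) L (Fin 3) (SS (by omega : 3 ≤ L))
      (fun j c => ra L j c * (L * L) + oa L j c) (fun j c => rb L j c * (L * L) + ob L j c) := by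
  have hsq : 5 * L ≤ L * L := Nat.mul_le_mul_right L hL
  have q2 : L * (L - 2) + 2 * L = L * L := by
    rw [Nat.mul_sub]; have : L * 2 ≤ L * L := by omega
    omega
  have q3 : L * (L - 3) + 3 * L = L * L := by
    rw [Nat.mul_sub]; have : L * 3 ≤ L * L := by omega
    omega
  have hoa : ∀ j c, c < L - 1 → oa L j c < L * L := by
    intro j c hc
    have hr := rr_spec hodd hc
    rcases fin3 j with rfl | rfl | rfl
    · show L - c < L * L
      omega
    · show 3 * L + 1 - c < L * L
      omega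
    · show L * L - 2 * rr L c < L * L
      omega
  have hob : ∀ j c, c < L - 1 → ob L j c < L * L := by
    intro j c hc
    have hr := rr_spec hodd hc
    rcases fin3 j with rfl | rfl | rfl
    · show L - c + 1 < L * L
      omega
    · show 3 * L + 1 - c + (L - 1) < L * L
      omega
    · show L * L - 2 * rr L c + (L + 1) < L * L
      omega
  refine ⟨?_, ?_, ?_, ?_, ?_, ?_⟩
  · intro j c hc
    have hr := rr_spec hodd hc
    rcases fin3 j with rfl | rfl | rfl
    · exact row_lt (hoa 0 c hc) (by show 2 * c < 2 * c + 1; omega)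
    · show (3 * L + 1 - c) * (L * L) + (3 * L + 1 - c) <
        (3 * L + 1 - c) * (L * L) + (3 * L + 1 - c + (L - 1))
      omega
    · show (L * L - rr L c) * (L * L) + (L * L - 2 * rr L c) <
        (L * L - rr L c) * (L * L) + (L * L - 2 * rr L c + (L + 1))
      omega
  · intro j c hc
    have h1 : rb L j c < L * L := by
      have hr := rr_spec hodd hc
      rcases fin3 j with rfl | rfl | rfl
      · show 2 * c + 1 < L * L
        omega
      · show 3 * L + 1 - c < L * L
        omega
      · show L * L - rr L c < L * L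
        omega
    have h2 := row_lt (a := rb L j c) (a' := L * L) (b' := 0) (hob j c hc) h1
    simpa using h2
  · intro j c j' c' hc hc' hne
    have hr := rr_spec hodd hc
    have hr' := rr_spec hodd hc'
    have key : rb L j c < ra L j' c' ∨ rb L j' c' < ra L j c := by
      rcases fin3 j with rfl | rfl | rfl <;> rcases fin3 j' with rfl | rfl | rfl
      · have : c ≠ c' := fun h => hne (by rw [h])
        show 2 * c + 1 < 2 * c' ∨ 2 * c' + 1 < 2 * c
        omega
      · show 2 * c + 1 < 3 * L + 1 - c' ∨ 3 * L + 1 - c' < 2 * c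
        omega
      · show 2 * c + 1 < L * L - rr L c' ∨ L * L - rr L c' < 2 * c
        omega
      · show 3 * L + 1 - c < 2 * c' ∨ 2 * c' + 1 < 3 * L + 1 - c
        omega
      · have : c ≠ c' := fun h => hne (by rw [h])
        show 3 * L + 1 - c < 3 * L + 1 - c' ∨ 3 * L + 1 - c' < 3 * L + 1 - c
        omega
      · show 3 * L + 1 - c < L * L - rr L c' ∨ L * L - rr L c' < 3 * L + 1 - c
        omega
      · show L * L - rr L c < 2 * c' ∨ 2 * c' + 1 < L * L - rr L c
        omega
      · show L * L - rr L c < 3 * L + 1 - c' ∨ 3 * L + 1 - c' < L * L - rr L c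
        omega
      · have : c ≠ c' := fun h => hne (by rw [h])
        show L * L - rr L c < L * L - rr L c' ∨ L * L - rr L c' < L * L - rr L c
        omega
    rcases key with h | h
    · exact Or.inl (row_lt (hob j c hc) h)
    · exact Or.inr (row_lt (hob j' c' hc') h)
  · intro j c hc
    have hr := rr_spec hodd hc
    rcases fin3 j with rfl | rfl | rfl
    · exact S0_eq _ (2 * c) (L - c) (by omega)
    · exact S1_eq _ (3 * L + 1 - c) (by omega) (by omega)
    · exact S2_eq _ (rr L c) (by omega) (by omega) (rr_dvd hL hodd hc)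
  · intro j c hc
    have hr := rr_spec hodd hc
    rcases fin3 j with rfl | rfl | rfl
    · show (2 * c * (L * L) + (L - c) + c) % L ≠ L - 1
      rw [mod_aux L _ _ _ 1 0 (by omega) (by omega)]
      omega
    · show ((3 * L + 1 - c) * (L * L) + (3 * L + 1 - c) + c) % L ≠ L - 1
      rw [mod_aux L _ _ _ 3 1 (by omega) (by omega)]
      omega
    · show ((L * L - rr L c) * (L * L) + (L * L - 2 * rr L c) + c) % L ≠ L - 1
      rcases hr with hr | hr
      · rw [mod_aux L _ _ _ (L - 2) (L - 3) (by omega) (by omega)]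
        omega
      · rw [mod_aux L _ _ _ (L - 3) (L - 3) (by omega) (by omega)]
        omega
  · intro j c hc
    have hr := rr_spec hodd hc
    rcases fin3 j with rfl | rfl | rfl
    · show ((2 * c + 1) * (L * L) + (L - c + 1) + c) % L ≠ L - 1
      rw [mod_aux L _ _ _ 1 1 (by omega) (by omega)]
      omega
    · show ((3 * L + 1 - c) * (L * L) + (3 * L + 1 - c + (L - 1)) + c) % L ≠ L - 1
      rw [mod_aux L _ _ _ 4 0 (by omega) (by omega)]
      omega
    · show ((L * L - rr L c) * (L * L) + (L * L - 2 * rr L c + (L + 1)) + c) % L ≠ L - 1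
      rcases hr with hr | hr
      · rw [mod_aux L _ _ _ (L - 1) (L - 2) (by
          have : L * (L - 1) + L = L * L := by
            rw [Nat.mul_sub]; have : L * 1 ≤ L * L := by omega
            omega
          omega) (by omega)]
        omega
      · rw [mod_aux L _ _ _ (L - 2) (L - 2) (by omega) (by omega)]
        omega

/-- The torus of dimension five. -/
theorem five {L : ℕ} (hL : 5 ≤ L) (hodd : L % 2 = 1) : DecN IsHC 5 (torE 5 L) :=
  tor_five (box_five (by omega) _ _ (chords hL hodd))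

/-- All tori. -/
theorem tor_all {L : ℕ} (hL : 5 ≤ L) (hodd : L % 2 = 1) (s : ℕ) : DecN IsHC s (torE s L) := by
  rcases Nat.eq_zero_or_pos s with rfl | hs
  · exact hd_zero L
  · exact hdec (by omega) (tor_three (by omega)) (five hL hodd) s hs

end Pool.Agent.U460.LA
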