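import Pool.Agent.U460.LA.Part
import Pool.Agent.U460.LA.Five3

/-!
# Linear arboricity of Cayley graphs of elementary abelian groups
-/

set_option autoImplicit false

namespace Pool.Agent.U460.LA

open SimpleGraph H931R3.LA Finset Module
open Pool.Agent.W111.LAR Pool.Agent.TH486.LAC
open Pool.Agent.K3h88.Erde (IsHC DecN torE)

theorem cov_elem {p : ℕ} [Fact p.Prime] (hp : 13 ≤ p) {V : Type} [AddCommGroup V]
    [Module (ZMod p) V] [Finite V] (HD : ∀ b, DecN IsHC b (torE b p))
    (S : Finset V) (hS : S.Nonempty) (hneg : ∀ s ∈ S, -s ∈ S) (h0 : (0 : V) ∉ S)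
    (X : SimpleGraph V) (hX : ∀ v w, X.Adj v w ↔ w - v ∈ S) : Cov X (S.card / 2 + 1) := by
  classical
  have : Module.Finite (ZMod p) V := Module.Finite.of_finite
  have h2ne : (2 : ZMod p) ≠ 0 := by
    intro h
    have h1 : ((2 : ℕ) : ZMod p) = 0 := by exact_mod_cast h
    rw [ZMod.natCast_eq_zero_iff] at h1
    have := Nat.le_of_dvd (by norm_num) h1
    omega
  have hinv : ∀ s ∈ S, s ≠ -s := by
    intro s hs h
    have h1 : (2 : ZMod p) • s = 0 := by
      rw [two_smul]
      nth_rewrite 2 [h]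
      exact add_neg_cancel s
    rcases smul_eq_zero.1 h1 with h3 | h3
    · exact h2ne h3
    · exact h0 (h3 ▸ hs)
  obtain ⟨T, hTS, hT1, hT2, hTc⟩ := exists_half S hneg hinv
  have hcard2 : S.card / 2 = T.card := by omega
  have hTne : T.Nonempty := by
    rw [← card_pos]
    have := card_pos.2 hS
    omega
  rw [hcard2]
  -- sets in a subspace
  have hsub : ∀ A ⊆ T, 2 * A.card + 1 ≤
      p ^ finrank (ZMod p) ↥(Submodule.span (ZMod p) (A : Set V)) := by
    intro A hA
    obtain ⟨W, hW⟩ : ∃ W, W = Submodule.span (ZMod p) (A : Set V) := ⟨_, rfl⟩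
    rw [← hW]
    obtain ⟨D, hD⟩ : ∃ D, D = A ∪ A.image (fun s => -s) := ⟨_, rfl⟩
    have hDc : D.card = 2 * A.card := by
      rw [hD, card_union_of_disjoint, card_image_of_injective _ neg_injective, two_mul]
      rw [Finset.disjoint_left]
      intro s hs hs'
      obtain ⟨t, ht, rfl⟩ := mem_image.1 hs'
      exact hT2 t (hA ht) (hA hs)
    have hDm : ∀ x ∈ D, x ≠ 0 ∧ x ∈ W := by
      intro x hx
      rw [hD, mem_union, mem_image] at hx
      rcases hx with hx | ⟨t, ht, rfl⟩
      · exact ⟨fun h => h0 (h ▸ hTS (hA hx)), by rw [hW]; exact Submodule.subset_span hx⟩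
      · exact ⟨fun h => h0 (neg_eq_zero.1 h ▸ hTS (hA ht)),
          by rw [hW]; exact neg_mem (Submodule.subset_span ht)⟩
    have h2 : D.card + 1 ≤ (W : Set V).ncard := by
      have h3 : insert (0 : V) (D : Set V) ⊆ (W : Set V) := by
        intro x hx
        rcases hx with rfl | hx
        · exact W.zero_mem
        · exact (hDm x hx).2
      have h4 := Set.ncard_le_ncard h3 (Set.toFinite _)
      rwa [Set.ncard_insert_of_notMem (fun h => (hDm 0 h).1 rfl) (Set.toFinite _),
        Set.ncard_coe_finset] at h4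
    have h3 : (W : Set V).ncard = p ^ finrank (ZMod p) W := by
      have h4 := Module.natCard_eq_pow_finrank (K := ZMod p) (V := W)
      rw [Nat.card_zmod] at h4
      rw [← h4]
      rfl
    omega
  have hrank : ∀ A ⊆ T, A.Nonempty →
      1 ≤ finrank (ZMod p) ↥(Submodule.span (ZMod p) (A : Set V)) := by
    intro A hA hne
    by_contra hcon
    have h1 : finrank (ZMod p) ↥(Submodule.span (ZMod p) (A : Set V)) = 0 := by omega
    have h2 := hsub A hA
    rw [h1, pow_zero] at h2
    have := card_pos.2 hne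
    omega
  -- the critical number of blocks
  have hex : ∃ l, 0 < l ∧ ∀ A ⊆ T, A.card ≤
      l * finrank (ZMod p) ↥(Submodule.span (ZMod p) (A : Set V)) := by
    refine ⟨T.card, card_pos.2 hTne, fun A hA => ?_⟩
    rcases A.eq_empty_or_nonempty with h | h
    · rw [h]; simp
    · exact (card_le_card hA).trans (Nat.le_mul_of_pos_right _ (hrank A hA h))
  obtain ⟨l, hlpos, hl, hmin⟩ : ∃ l, 0 < l ∧ (∀ A ⊆ T, A.card ≤
      l * finrank (ZMod p) ↥(Submodule.span (ZMod p) (A : Set V))) ∧
      (l = 1 ∨ ∃ A ⊆ T, (l - 1) * finrank (ZMod p) ↥(Submodule.span (ZMod p) (A : Set V)) <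
        A.card) := by
    obtain ⟨h1, h2⟩ := Nat.find_spec hex
    refine ⟨Nat.find hex, h1, h2, ?_⟩
    by_contra hcon
    push Not at hcon
    obtain ⟨h3, h4⟩ := hcon
    exact Nat.find_min hex (show Nat.find hex - 1 < Nat.find hex by omega) ⟨by omega, h4⟩
  obtain ⟨A, hAT, hAne, hA⟩ : ∃ A ⊆ T, A.Nonempty ∧
      (l - 1) * finrank (ZMod p) ↥(Submodule.span (ZMod p) (A : Set V)) < A.card := by
    rcases hmin with h | ⟨A, hA, hA2⟩
    · refine ⟨T, Subset.refl T, hTne, ?_⟩
      rw [h]
      simpa using card_pos.2 hTne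
    · exact ⟨A, hA, card_pos.1 (by omega), hA2⟩
  -- the partition
  obtain ⟨c, hc1, hc2⟩ := exists_nested (K := ZMod p) T hlpos hl
  obtain ⟨σ, hσ⟩ := exists_sorted (fun j : Fin l => T.filter (fun x => c x = j))
  obtain ⟨B, hB⟩ : ∃ B : Fin l → Finset V, ∀ j, B j = T.filter (fun x => c x = σ j) :=
    ⟨_, fun _ => rfl⟩
  have hB1 : ∀ j, Ind (ZMod p) (B j) := fun j => by rw [hB]; exact hc1 (σ j)
  have hB2 : ∀ i j, i ≤ j → ∀ x ∈ B j, x ∈ Submodule.span (ZMod p) (B i : Set V) := by
    intro i j hij x hx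
    rw [hB] at hx ⊢
    exact hc2 (σ i) (σ j) (hσ i j hij) x hx
  have hcount : ∀ A ⊆ T, ∑ j, (A.filter (fun x => c x = σ j)).card = A.card := by
    intro A _
    have h1 := Equiv.sum_comp σ (fun j => (A.filter (fun x => c x = j)).card)
    rw [h1, card_eq_sum_card_fiberwise (f := c) (t := univ) (fun x _ => mem_coe.2 (mem_univ _))]
  have hload := lam_le p (by omega) (fun j => (B j).card)
    (fun j => (A.filter (fun x => c x = σ j)).card) (hrank A hAT hAne) hA (hsub A hAT)
    (fun j => by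
      have hsub1 : A.filter (fun x => c x = σ j) ⊆ B j := by
        rw [hB]
        exact filter_subset_filter _ hAT
      exact ind_card_le (Ind.anti (hB1 j) _ hsub1) (fun x hx =>
        Submodule.subset_span (mem_coe.2 (mem_filter.1 hx).1)))
    (fun j => by
      rw [hB]
      exact card_le_card (filter_subset_filter _ hAT))
    (hcount A hAT)
  have hp13 : (1 : ℝ) / 2 + 1 / p ≤ 7 / 12 := by
    have h1 : (12 : ℝ) ≤ p := by
      have : 12 ≤ p := by omega
      exact_mod_cast this
    have h2 : (1 : ℝ) / p ≤ 1 / 12 := one_div_le_one_div_of_le (by norm_num) h1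
    linarith
  have hst := chain HD l V B hB1 hB2 (hload.trans hp13)
  have hcov := hst.cov
  have hsum : ∑ j, (B j).card = T.card := by
    simp only [hB]
    exact hcount T (Subset.refl T)
  rw [hsum] at hcov
  have hXe : cay {x | ∃ j, x ∈ B j} = X := by
    have hm : ∀ x, (∃ j, x ∈ B j) ↔ x ∈ T := by
      intro x
      constructor
      · rintro ⟨j, hj⟩
        rw [hB] at hj
        exact (mem_filter.1 hj).1
      · intro hx
        refine ⟨σ.symm (c x), ?_⟩
        rw [hB, mem_filter, Equiv.apply_symm_apply]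
        exact ⟨hx, rfl⟩
    ext v w
    rw [hX]
    show (v ≠ w ∧ ((∃ j, w - v ∈ B j) ∨ (∃ j, v - w ∈ B j))) ↔ _
    rw [hm, hm, hT1, neg_sub]
    constructor
    · exact fun h => h.2
    · intro h
      refine ⟨?_, h⟩
      rintro rfl
      rw [sub_self] at h
      exact h0 (hTS (or_self_iff.1 h))
  rw [hXe] at hcov
  exact hcov

end Pool.Agent.U460.LA
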