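import Mathlib

/-!
# The load of an equitable partition

The sizes of the blocks of an equitable partition into independent sets are nearly equal; the
numerical condition says that the partition is critical.
-/

set_option autoImplicit false

namespace Pool.Agent.U460.LA

open Finset

theorem f_step (p : ℕ) (hp : 3 ≤ p) {a : ℕ} (ha : 1 ≤ a) :
    (2 * ((a + 1 : ℕ) : ℝ)) / (p : ℝ) ^ (a + 1) ≤ (2 * (a : ℝ)) / (p : ℝ) ^ a := by
  have hp' : (3 : ℝ) ≤ p := by exact_mod_cast hp
  have ha' : (1 : ℝ) ≤ a := by exact_mod_cast ha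
  have hpos : (0 : ℝ) < (p : ℝ) ^ a := by positivity
  rw [div_le_div_iff₀ (by positivity) hpos, pow_succ]
  push_cast
  nlinarith [mul_pos hpos (show (0 : ℝ) < a by linarith),
    mul_nonneg (mul_nonneg hpos.le (show (0 : ℝ) ≤ a by linarith)) (show (0 : ℝ) ≤ p - 3 by linarith)]

theorem f_anti (p : ℕ) (hp : 3 ≤ p) {a b : ℕ} (ha : 1 ≤ a) (hab : a ≤ b) :
    (2 * (b : ℝ)) / (p : ℝ) ^ b ≤ (2 * (a : ℝ)) / (p : ℝ) ^ a := by
  induction b, hab using Nat.le_induction with
  | base => exact le_rfl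
  | succ b hb ih => exact (f_step p hp (ha.trans hb)).trans ih

theorem two_sq_le (l : ℕ) (hl : 1 ≤ l) : 2 * l ^ 2 ≤ 3 ^ l := by
  obtain h | h : l ≤ 2 ∨ 3 ≤ l := by omega
  · interval_cases l <;> norm_num
  · induction l, h using Nat.le_induction with
    | base => norm_num
    | succ l hl ih =>
      have h1 := ih (by omega)
      rw [pow_succ 3 l]
      nlinarith

/-- The load of an equitable critical partition is at most one. -/
theorem load_le (p : ℕ) (hp : 3 ≤ p) {l : ℕ} (hl : 0 < l) (b : Fin l → ℕ)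
    (hb : ∀ i j, b i ≤ b j + 1) {a N : ℕ} (ha : 1 ≤ a) (hN1 : (l - 1) * a < N)
    (hN2 : N ≤ ∑ i, b i) (hN3 : 2 * N + 1 ≤ p ^ a)
    (hN4 : 2 * N + 2 * (a - 1) ^ 2 * (p - 1) ≤ p ^ a) :
    ∑ i, (2 * (b i : ℝ)) / (p : ℝ) ^ b i ≤ 1 := by
  have : Nonempty (Fin l) := ⟨⟨0, hl⟩⟩
  obtain ⟨i0, hi0⟩ := Finite.exists_min b
  obtain ⟨q, hq⟩ : ∃ q, q = b i0 := ⟨_, rfl⟩
  have hq1 : ∀ i, q ≤ b i := fun i => hq ▸ hi0 i
  have hq2 : ∀ i, b i ≤ q + 1 := fun i => hq ▸ hb i i0
  obtain ⟨m, hm⟩ : ∃ m, m = (univ.filter fun i => b i = q).card := ⟨_, rfl⟩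
  have hm1 : 1 ≤ m := by
    rw [hm]
    exact card_pos.2 ⟨i0, by simp [hq]⟩
  have hml : m + (univ.filter fun i => ¬ b i = q).card = l := by
    rw [hm, card_filter_add_card_filter_not]
    simp
  have hsum : ∑ i, b i + m = l * (q + 1) := by
    have h1 : ∀ i, b i + (if b i = q then 1 else 0) = q + 1 := by
      intro i
      have h2 := hq1 i
      have h3 := hq2 i
      split_ifs with h
      · omega
      · omega
    have h2 : ∑ i, (b i + (if b i = q then 1 else 0)) = l * (q + 1) := by
      rw [sum_congr rfl fun i _ => h1 i, sum_const, card_univ, Fintype.card_fin, smul_eq_mul]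
    rw [sum_add_distrib] at h2
    rw [← h2, hm, card_filter]
  have hla : l * a = (l - 1) * a + a := by
    obtain ⟨l', rfl⟩ : ∃ l', l = l' + 1 := ⟨l - 1, by omega⟩
    rw [Nat.add_sub_cancel]
    ring
  have hpa : (0 : ℝ) < (p : ℝ) ^ a := by positivity
  rcases Nat.lt_or_ge q a with hqa | hqa
  · rcases Nat.lt_or_ge (q + 1) a with hqa2 | hqa2
    · -- few blocks
      have h1 : l < a := by
        by_contra hcon
        push Not at hcon
        have h2 : l * (q + 1) ≤ l * (a - 1) := Nat.mul_le_mul_left _ (by omega)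
        have h3 : l * (a - 1) + l = l * a := by
          obtain ⟨a', rfl⟩ : ∃ a', a = a' + 1 := ⟨a - 1, by omega⟩
          rw [Nat.add_sub_cancel]
          ring
        omega
      have h2 : l * l ≤ (l - 1) * a + 1 := by
        obtain ⟨l', rfl⟩ : ∃ l', l = l' + 1 := ⟨l - 1, by omega⟩
        rw [Nat.add_sub_cancel]
        have h3 : l' * (l' + 1 + 1) ≤ l' * a := Nat.mul_le_mul_left _ (by omega)
        nlinarith
      have h3 : l ≤ q := by
        by_contra hcon
        push Not at hcon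
        have h4 : l * (q + 1) ≤ l * l := Nat.mul_le_mul_left _ hcon
        omega
      have h4 : ∀ i, (2 * (b i : ℝ)) / (p : ℝ) ^ b i ≤ (2 * (l : ℝ)) / (p : ℝ) ^ l := fun i =>
        f_anti p hp hl (h3.trans (hq1 i))
      refine (sum_le_sum fun i _ => h4 i).trans ?_
      rw [sum_const, card_univ, Fintype.card_fin, nsmul_eq_mul, ← mul_div_assoc,
        div_le_one (by positivity)]
      have h5 := two_sq_le l hl
      have h6 : (3 : ℕ) ^ l ≤ p ^ l := Nat.pow_le_pow_left hp l
      have h7 : ((2 * l ^ 2 : ℕ) : ℝ) ≤ ((p ^ l : ℕ) : ℝ) := by exact_mod_cast h5.trans h6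
      push_cast at h7
      nlinarith
    · -- sizes `a - 1` and `a`
      have hqa' : q + 1 = a := by omega
      have hq0 : 1 ≤ q := by
        by_contra hcon
        have h1 : q = 0 := by omega
        subst h1
        have h2 : a = 1 := by omega
        subst h2
        omega
      have hma : m ≤ a - 1 := by
        rw [hqa'] at hsum
        omega
      have hterm : ∀ i, (2 * (b i : ℝ)) / (p : ℝ) ^ b i = (2 * (a : ℝ)) / (p : ℝ) ^ a +
          (if b i = q then (2 * (q : ℝ)) / (p : ℝ) ^ q - (2 * (a : ℝ)) / (p : ℝ) ^ a else 0) := by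
        intro i
        split_ifs with h
        · rw [h]; ring
        · have h2 := hq1 i
          have h3 := hq2 i
          have h4 : b i = a := by omega
          rw [h4]; ring
      rw [sum_congr rfl fun i _ => hterm i, sum_add_distrib, sum_const, card_univ,
        Fintype.card_fin, ← sum_filter, sum_const, ← hm, nsmul_eq_mul, nsmul_eq_mul]
      have h5 : (2 * (q : ℝ)) / (p : ℝ) ^ q = (2 * (q : ℝ) * p) / (p : ℝ) ^ a := by
        rw [← hqa', pow_succ]
        field_simp
      rw [h5, ← sub_div, ← mul_div_assoc, ← mul_div_assoc, ← add_div, div_le_one hpa]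
      have h6 : (m : ℝ) ≤ q := by
        have : m ≤ q := by omega
        exact_mod_cast this
      have h7 : (a : ℝ) = q + 1 := by
        rw [← hqa']; push_cast; ring
      have h8 : (l : ℝ) * a ≤ N - 1 + a := by
        have : l * a + 1 ≤ N + a := by omega
        have h9 : ((l * a + 1 : ℕ) : ℝ) ≤ ((N + a : ℕ) : ℝ) := by exact_mod_cast this
        push_cast at h9
        linarith
      have h9 : (2 : ℝ) * N + 2 * q ^ 2 * (p - 1) ≤ p ^ a := by
        have h10 : ((2 * N + 2 * (a - 1) ^ 2 * (p - 1) : ℕ) : ℝ) ≤ ((p ^ a : ℕ) : ℝ) := by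
          exact_mod_cast hN4
        have h11 : a - 1 = q := by omega
        rw [h11] at h10
        push_cast [Nat.cast_sub (show 1 ≤ p by omega)] at h10
        exact h10
      have h10 : (0 : ℝ) ≤ 2 * q * p - 2 * a := by
        rw [h7]
        have h11 : (1 : ℝ) ≤ q := by exact_mod_cast hq0
        have h12 : (3 : ℝ) ≤ p := by exact_mod_cast hp
        nlinarith
      have h11 : (m : ℝ) * (2 * q * p - 2 * a) ≤ q * (2 * q * p - 2 * a) :=
        mul_le_mul_of_nonneg_right h6 h10
      rw [h7] at *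
      nlinarith
  · -- large blocks
    have h4 : ∀ i, (2 * (b i : ℝ)) / (p : ℝ) ^ b i ≤ (2 * (a : ℝ)) / (p : ℝ) ^ a := fun i =>
      f_anti p hp ha (hqa.trans (hq1 i))
    refine (sum_le_sum fun i _ => h4 i).trans ?_
    rw [sum_const, card_univ, Fintype.card_fin, nsmul_eq_mul, ← mul_div_assoc, div_le_one hpa]
    have h5 : 2 * (l * a) ≤ p ^ a := by
      obtain ⟨a', rfl⟩ : ∃ a', a = a' + 1 := ⟨a - 1, by omega⟩
      rw [Nat.add_sub_cancel] at hN4
      rcases Nat.eq_zero_or_pos a' with h | h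
      · subst h
        omega
      · have h6 : a' ≤ a' ^ 2 * (p - 1) := by
          calc a' = a' * 1 := by ring
            _ ≤ a' * (a' * (p - 1)) := Nat.mul_le_mul_left _ (Nat.mul_pos h (by omega))
            _ = a' ^ 2 * (p - 1) := by ring
        rw [mul_assoc] at hN4
        omega
    have h6 : ((2 * (l * a) : ℕ) : ℝ) ≤ ((p ^ a : ℕ) : ℝ) := by exact_mod_cast h5
    push_cast at h6
    linarith

end Pool.Agent.U460.LA
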