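import Pool.Agent.U460.LA.Block
import Pool.Agent.U460.LA.Num

/-!
# The load criterion for Cayley graphs of elementary abelian groups
-/

set_option autoImplicit false

namespace Pool.Agent.U460.LA

open Finset SimpleGraph Module
open Pool.Agent.K3h88.Erde Pool.Agent.W111.LAR Pool.Agent.TH486.LAC

/-- A half of a symmetric set. -/
theorem exists_half {V : Type} [AddCommGroup V] [DecidableEq V] (S : Finset V)
    (hneg : ∀ s ∈ S, -s ∈ S) (hinv : ∀ s ∈ S, s ≠ -s) :
    ∃ T ⊆ S, (∀ s, s ∈ S ↔ s ∈ T ∨ -s ∈ T) ∧ (∀ s ∈ T, -s ∉ T) ∧ S.card = 2 * T.card := by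
  classical
  obtain ⟨T, hT⟩ : ∃ T, T = S.filter (fun s => (s(s, -s) : Sym2 V).out.1 = s) := ⟨_, rfl⟩
  have hout : ∀ s : V, (s(s, -s) : Sym2 V).out.1 = s ∨ (s(s, -s) : Sym2 V).out.1 = -s := by
    intro s
    have h1 : s((s(s, -s) : Sym2 V).out.1, (s(s, -s) : Sym2 V).out.2) = s(s, -s) := Quot.out_eq _
    rcases Sym2.eq_iff.1 h1 with ⟨h2, _⟩ | ⟨h2, _⟩
    · exact Or.inl h2
    · exact Or.inr h2
  have hswap : ∀ s : V, (s(-s, - -s) : Sym2 V) = s(s, -s) := by
    intro s
    rw [neg_neg]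
    exact Sym2.eq_swap
  have h1 : ∀ s, s ∈ S ↔ s ∈ T ∨ -s ∈ T := by
    intro s
    rw [hT, mem_filter, mem_filter, hswap]
    constructor
    · intro hs
      rcases hout s with h | h
      · exact Or.inl ⟨hs, h⟩
      · exact Or.inr ⟨hneg s hs, h⟩
    · rintro (h | h)
      · exact h.1
      · have := hneg _ h.1
        rwa [neg_neg] at this
  have h2 : ∀ s ∈ T, -s ∉ T := by
    intro s hs hs'
    rw [hT, mem_filter] at hs hs'
    rw [hswap] at hs'
    exact hinv s hs.1 (hs.2.symm.trans hs'.2)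
  refine ⟨T, by rw [hT]; exact filter_subset _ _, h1, h2, ?_⟩
  have h3 : S = T ∪ T.image (fun s => -s) := by
    ext s
    rw [h1, mem_union, mem_image]
    constructor
    · rintro (h | h)
      · exact Or.inl h
      · exact Or.inr ⟨-s, h, neg_neg s⟩
    · rintro (h | ⟨t, ht, rfl⟩)
      · exact Or.inl h
      · exact Or.inr (by rwa [neg_neg])
  rw [h3, card_union_of_disjoint, card_image_of_injective _ neg_injective, two_mul]
  rw [Finset.disjoint_left]
  intro s hs hs'
  obtain ⟨t, ht, rfl⟩ := mem_image.1 hs'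
  exact h2 t ht hs

/-- Decompositions of small load of the Cayley graphs of elementary abelian groups, provided that
the tori have Hamiltonian decompositions. -/
theorem ld_elem {p : ℕ} [Fact p.Prime] (hp : 3 ≤ p) {V : Type} [AddCommGroup V]
    [Module (ZMod p) V] [Finite V] (HD : ∀ b, b ≤ finrank (ZMod p) V → DecN IsHC b (torE b p))
    (S : Finset V) (hS : S.Nonempty) (hneg : ∀ s ∈ S, -s ∈ S) (h0 : (0 : V) ∉ S)
    (hU : ∀ U : Submodule (ZMod p) V, 2 ≤ finrank (ZMod p) U →
      {x | x ∈ S ∧ x ∈ U}.ncard + 2 * (finrank (ZMod p) U - 1) ^ 2 * (p - 1) ≤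
        p ^ finrank (ZMod p) U)
    (X : SimpleGraph V) (hX : ∀ v w, X.Adj v w ↔ w - v ∈ S) : LD X (S.card / 2) := by
  classical
  have : Module.Finite (ZMod p) V := Module.Finite.of_finite
  have h2ne : (2 : ZMod p) ≠ 0 := by
    intro h
    have h1 : ((2 : ℕ) : ZMod p) = 0 := by exact_mod_cast h
    rw [ZMod.natCast_eq_zero_iff] at h1
    have := Nat.le_of_dvd (by norm_num) h1
    omega
  have hinv : ∀ s ∈ S, s ≠ -s := by
    intro s hs h
    have h1 : (2 : ZMod p) • s = 0 := by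
      rw [two_smul]
      nth_rewrite 2 [h]
      exact add_neg_cancel s
    rcases smul_eq_zero.1 h1 with h3 | h3
    · exact h2ne h3
    · exact h0 (h3 ▸ hs)
  obtain ⟨T, hTS, hT1, hT2, hTc⟩ := exists_half S hneg hinv
  have hcard2 : S.card / 2 = T.card := by omega
  have hTne : T.Nonempty := by
    rw [← card_pos]
    have := card_pos.2 hS
    omega
  rw [hcard2]
  -- sets in a subspace
  have hsub : ∀ A ⊆ T, 2 * A.card ≤
      {x | x ∈ S ∧ x ∈ Submodule.span (ZMod p) (A : Set V)}.ncard ∧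
      2 * A.card + 1 ≤ p ^ finrank (ZMod p) ↥(Submodule.span (ZMod p) (A : Set V)) := by
    intro A hA
    obtain ⟨W, hW⟩ : ∃ W, W = Submodule.span (ZMod p) (A : Set V) := ⟨_, rfl⟩
    rw [← hW]
    obtain ⟨D, hD⟩ : ∃ D, D = A ∪ A.image (fun s => -s) := ⟨_, rfl⟩
    have hDc : D.card = 2 * A.card := by
      rw [hD, card_union_of_disjoint, card_image_of_injective _ neg_injective, two_mul]
      rw [Finset.disjoint_left]
      intro s hs hs'
      obtain ⟨t, ht, rfl⟩ := mem_image.1 hs'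
      exact hT2 t (hA ht) (hA hs)
    have hDm : ∀ x ∈ D, x ∈ S ∧ x ∈ W := by
      intro x hx
      rw [hD, mem_union, mem_image] at hx
      rcases hx with hx | ⟨t, ht, rfl⟩
      · exact ⟨hTS (hA hx), by rw [hW]; exact Submodule.subset_span hx⟩
      · exact ⟨hneg _ (hTS (hA ht)), by rw [hW]; exact neg_mem (Submodule.subset_span ht)⟩
    have h1 : 2 * A.card ≤ {x | x ∈ S ∧ x ∈ W}.ncard := by
      rw [← hDc, ← Set.ncard_coe_finset]
      exact Set.ncard_le_ncard (fun x hx => hDm x hx) (Set.toFinite _)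
    refine ⟨h1, ?_⟩
    have h2 : {x | x ∈ S ∧ x ∈ W}.ncard + 1 ≤ (W : Set V).ncard := by
      have h3 : insert (0 : V) {x | x ∈ S ∧ x ∈ W} ⊆ (W : Set V) := by
        intro x hx
        rcases hx with rfl | hx
        · exact W.zero_mem
        · exact hx.2
      have h4 := Set.ncard_le_ncard h3 (Set.toFinite _)
      rwa [Set.ncard_insert_of_notMem (fun h => h0 h.1) (Set.toFinite _)] at h4
    have h3 : (W : Set V).ncard = p ^ finrank (ZMod p) W := by
      have h4 := Module.natCard_eq_pow_finrank (K := ZMod p) (V := W)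
      rw [Nat.card_zmod] at h4
      rw [← h4]
      rfl
    omega
  have hrank : ∀ A ⊆ T, A.Nonempty →
      1 ≤ finrank (ZMod p) ↥(Submodule.span (ZMod p) (A : Set V)) := by
    intro A hA hne
    by_contra hcon
    have h1 : finrank (ZMod p) ↥(Submodule.span (ZMod p) (A : Set V)) = 0 := by omega
    have h2 := (hsub A hA).2
    rw [h1, pow_zero] at h2
    have := card_pos.2 hne
    omega
  -- the critical number of blocks
  have hex : ∃ l, 0 < l ∧ ∀ A ⊆ T, A.card ≤
      l * finrank (ZMod p) ↥(Submodule.span (ZMod p) (A : Set V)) := by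
    refine ⟨T.card, card_pos.2 hTne, fun A hA => ?_⟩
    rcases A.eq_empty_or_nonempty with h | h
    · rw [h]; simp
    · exact (card_le_card hA).trans (Nat.le_mul_of_pos_right _ (hrank A hA h))
  obtain ⟨l, hlpos, hl, hmin⟩ : ∃ l, 0 < l ∧ (∀ A ⊆ T, A.card ≤
      l * finrank (ZMod p) ↥(Submodule.span (ZMod p) (A : Set V))) ∧
      (l = 1 ∨ ∃ A ⊆ T, (l - 1) * finrank (ZMod p) ↥(Submodule.span (ZMod p) (A : Set V)) <
        A.card) := by
    obtain ⟨h1, h2⟩ := Nat.find_spec hex
    refine ⟨Nat.find hex, h1, h2, ?_⟩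
    by_contra hcon
    push Not at hcon
    obtain ⟨h3, h4⟩ := hcon
    exact Nat.find_min hex (show Nat.find hex - 1 < Nat.find hex by omega) ⟨by omega, h4⟩
  obtain ⟨a, N, ha, hN1, hN2, hN3, hN4⟩ : ∃ a N, 1 ≤ a ∧ (l - 1) * a < N ∧ N ≤ T.card ∧
      2 * N + 1 ≤ p ^ a ∧ 2 * N + 2 * (a - 1) ^ 2 * (p - 1) ≤ p ^ a := by
    rcases hmin with h | ⟨A, hA, hA2⟩
    · refine ⟨1, 1, le_rfl, by rw [h]; norm_num, card_pos.2 hTne, ?_, ?_⟩
      · rw [pow_one]; omega
      · rw [pow_one]; simp; omega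
    · have hAne : A.Nonempty := by
        rw [← card_pos]
        omega
      refine ⟨finrank (ZMod p) ↥(Submodule.span (ZMod p) (A : Set V)), A.card,
        hrank A hA hAne, hA2, card_le_card hA, (hsub A hA).2, ?_⟩
      have h1 := hrank A hA hAne
      rcases Nat.lt_or_ge (finrank (ZMod p) ↥(Submodule.span (ZMod p) (A : Set V))) 2 with h2 | h2
      · have h3 : finrank (ZMod p) ↥(Submodule.span (ZMod p) (A : Set V)) = 1 := by omega
        have h4 := (hsub A hA).2
        rw [h3] at h4 ⊢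
        simp
        rw [pow_one] at h4
        omega
      · have h3 := hU _ h2
        have h4 := (hsub A hA).1
        omega
  -- the partition
  obtain ⟨c, hc1, hc2⟩ := equitable (K := ZMod p) hlpos hl
  obtain ⟨B, hB⟩ : ∃ B : Fin l → Finset V, ∀ j, B j = T.filter (fun x => c x = j) :=
    ⟨_, fun _ => rfl⟩
  have hB1 : ∀ j, Ind (ZMod p) (B j) := fun j => by rw [hB]; exact hc1 j
  have hB2 : ∀ i j, (B i).card ≤ (B j).card + 1 := fun i j => by rw [hB, hB]; exact hc2 i j
  have hBsum : ∑ j, (B j).card = T.card := by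
    rw [card_eq_sum_card_fiberwise (f := c) (t := univ) (fun x _ => mem_coe.2 (mem_univ _))]
    exact sum_congr rfl fun j _ => by rw [hB]
  have hBle : ∀ j, (B j).card ≤ finrank (ZMod p) V := by
    intro j
    have h1 := hB1 j
    unfold Ind at h1
    rw [← h1]
    exact Submodule.finrank_le _
  have hload := load_le p hp hlpos (fun j => (B j).card) hB2 ha hN1 (by rw [hBsum]; exact hN2)
    hN3 hN4
  choose P hP1 hP2 hP3 using fun j => block (B j) (hB1 j) (HD _ (hBle j))
  refine ⟨(j : Fin l) × Fin (B j).card, inferInstance, fun q => P q.1 q.2, ?_, ?_, ?_, ?_⟩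
  · rw [Fintype.card_sigma]
    simp only [Fintype.card_fin]
    exact hBsum
  · rintro ⟨j, i⟩ v
    exact hP1 j i v
  · intro v
    rw [Fintype.sum_sigma]
    refine le_trans (sum_le_sum fun j _ => ?_) hload
    have h1 : ∀ i : Fin (B j).card, (2 : ℝ) / csize (P j i) v ≤ 2 / (p : ℝ) ^ (B j).card := by
      intro i
      have h2 : ((p ^ (B j).card : ℕ) : ℝ) ≤ (csize (P j i) v : ℝ) := by
        exact_mod_cast hP2 j i v
      push_cast at h2
      exact div_le_div_of_nonneg_left (by norm_num) (by positivity) h2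
    refine (sum_le_sum fun i _ => h1 i).trans (le_of_eq ?_)
    rw [sum_const, card_univ, Fintype.card_fin, nsmul_eq_mul]
    ring
  · ext v w
    rw [iSup_adj, hX]
    have h1 : (∃ q : (j : Fin l) × Fin (B j).card, (P q.1 q.2).Adj v w) ↔
        ∃ j, ∃ i, (P j i).Adj v w := by
      constructor
      · rintro ⟨⟨j, i⟩, h⟩
        exact ⟨j, i, h⟩
      · rintro ⟨j, i, h⟩
        exact ⟨⟨j, i⟩, h⟩
    rw [h1]
    have h2 : ∀ x, x ∈ T ↔ ∃ j, x ∈ B j := by
      intro x
      constructor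
      · intro hx
        exact ⟨c x, by rw [hB, mem_filter]; exact ⟨hx, rfl⟩⟩
      · rintro ⟨j, hj⟩
        rw [hB, mem_filter] at hj
        exact hj.1
    rw [hT1, neg_sub, h2, h2]
    constructor
    · rintro (⟨j, hj⟩ | ⟨j, hj⟩)
      · exact ⟨j, (hP3 j v w).2 (Or.inl hj)⟩
      · exact ⟨j, (hP3 j v w).2 (Or.inr hj)⟩
    · rintro ⟨j, hj⟩
      rcases (hP3 j v w).1 hj with h | h
      · exact Or.inl ⟨j, h⟩
      · exact Or.inr ⟨j, h⟩

end Pool.Agent.U460.LA
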