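import Pool.Agent.K3h4.Erde.Rec
import Pool.Agent.K3h11.Erde.KT1
import Pool.Agent.K3h62.Erde.Plumb
import Pool.Agent.K3h34.Erde.K0
import Pool.Agent.K3h92.Erde.T0X
import Pool.Agent.K3h92.Erde.T0D
import Pool.Agent.K3h77.Erde.T0Y
import Pool.Agent.K3h18.Erde.TZ

/-!
# Recursion for the Hamiltonian decompositions of the tori `C_L ^ r`

The recursion is the one of `Pool.Agent.K3h4.Erde` for cubes.
-/

set_option autoImplicit false

namespace Pool.Agent.U460.LA

open Pool.Agent.K3h88.Erde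
open Pool.Agent.K3h11.Erde (p1a p1b p1c p1d p1e p1f p2a p2b p2c swap_boxE assoc_boxE hc_param)
open Pool.Agent.K3h62.Erde (p3a p3b p3c)
open Pool.Agent.K3h4.Erde (hc_loopless box_loopless decN_one transfer)

/-- The edge set of the torus with index type `ι`. -/
def torI (ι : Type) [DecidableEq ι] (L : ℕ) : Set (Sym2 (ι → ZMod L)) :=
  {e | ∃ (y : ι → ZMod L) (i : ι), e = s(y, y + Pi.single i 1)}

theorem torI_fin (m L : ℕ) : torI (Fin m) L = torE m L := rfl

theorem tor_loopless {ι : Type} [DecidableEq ι] {L : ℕ} (hL : 2 ≤ L) (x : ι → ZMod L) :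
    s(x, x) ∉ torI ι L := by
  have : Fact (1 < L) := ⟨hL⟩
  rintro ⟨y, i, he⟩
  have h1 : y = y + Pi.single i 1 := by
    rcases Sym2.eq_iff.1 he with ⟨h1, h2⟩ | ⟨h1, h2⟩
    · exact h1.symm.trans h2
    · exact h2.symm.trans h1
  have h2 := congrFun h1 i
  rw [Pi.add_apply, Pi.single_eq_same] at h2
  simp at h2

theorem tor_reindex {ι κ : Type} [DecidableEq ι] [DecidableEq κ] (e : ι ≃ κ) (L : ℕ) :
    torI κ L = Sym2.map (fun x : ι → ZMod L => fun j => x (e.symm j)) '' torI ι L := by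
  have key : ∀ (x : ι → ZMod L) (i : ι), (fun j => (x + Pi.single i 1 : ι → ZMod L) (e.symm j)) =
      (fun j => x (e.symm j)) + Pi.single (e i) 1 := by
    intro x i
    funext j
    simp only [Pi.add_apply]
    congr 1
    by_cases hj : j = e i
    · subst hj
      rw [Equiv.symm_apply_apply, Pi.single_eq_same, Pi.single_eq_same]
    · rw [Pi.single_eq_of_ne hj, Pi.single_eq_of_ne]
      rintro rfl
      exact hj (e.apply_symm_apply j).symm
  ext f
  constructor
  · rintro ⟨x, j, rfl⟩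
    refine ⟨s(fun i => x (e i), (fun i => x (e i)) + Pi.single (e.symm j) 1), ⟨_, _, rfl⟩, ?_⟩
    rw [Sym2.map_mk]
    have h1 := key (fun i => x (e i)) (e.symm j)
    simp only [Equiv.apply_symm_apply] at h1
    rw [h1]
    simp only [Equiv.apply_symm_apply]
  · rintro ⟨_, ⟨x, i, rfl⟩, rfl⟩
    refine ⟨fun j => x (e.symm j), e i, ?_⟩
    rw [Sym2.map_mk, key]

theorem tor_sum (ι κ : Type) [DecidableEq ι] [DecidableEq κ] (L : ℕ) :
    torI (ι ⊕ κ) L = Sym2.map (fun p : (ι → ZMod L) × (κ → ZMod L) =>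
      (Sum.elim p.1 p.2 : ι ⊕ κ → ZMod L)) '' boxE (torI ι L) (torI κ L) := by
  have hl : ∀ (x : ι → ZMod L) (y : κ → ZMod L) (i : ι),
      (Sum.elim (x + Pi.single i 1) y : ι ⊕ κ → ZMod L) =
        Sum.elim x y + Pi.single (Sum.inl i) 1 := by
    intro x y i
    funext j
    rcases j with j | j
    · by_cases h : j = i
      · subst h; simp
      · have h' : (Sum.inl j : ι ⊕ κ) ≠ Sum.inl i := fun h' => h (Sum.inl_injective h')
        simp [Pi.single_eq_of_ne h, Pi.single_eq_of_ne h']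
    · simp
  have hr : ∀ (x : ι → ZMod L) (y : κ → ZMod L) (i : κ),
      (Sum.elim x (y + Pi.single i 1) : ι ⊕ κ → ZMod L) =
        Sum.elim x y + Pi.single (Sum.inr i) 1 := by
    intro x y i
    funext j
    rcases j with j | j
    · simp
    · by_cases h : j = i
      · subst h; simp
      · have h' : (Sum.inr j : ι ⊕ κ) ≠ Sum.inr i := fun h' => h (Sum.inr_injective h')
        simp [Pi.single_eq_of_ne h, Pi.single_eq_of_ne h']
  have hx : ∀ x : ι ⊕ κ → ZMod L, Sum.elim (fun j => x (Sum.inl j)) (fun j => x (Sum.inr j)) = x :=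
    fun x => Sum.elim_comp_inl_inr x
  ext f
  constructor
  · rintro ⟨x, i | i, rfl⟩
    · refine ⟨s((fun j => x (Sum.inl j), fun j => x (Sum.inr j)),
        ((fun j => x (Sum.inl j)) + Pi.single i 1, fun j => x (Sum.inr j))),
        Or.inl ⟨_, _, _, ⟨fun j => x (Sum.inl j), i, rfl⟩, rfl⟩, ?_⟩
      rw [Sym2.map_mk]
      simp only
      rw [hl, hx]
    · refine ⟨s((fun j => x (Sum.inl j), fun j => x (Sum.inr j)),
        (fun j => x (Sum.inl j), (fun j => x (Sum.inr j)) + Pi.single i 1)),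
        Or.inr ⟨_, _, _, ⟨fun j => x (Sum.inr j), i, rfl⟩, rfl⟩, ?_⟩
      rw [Sym2.map_mk]
      simp only
      rw [hr, hx]
  · rintro ⟨_, (⟨x, x', y, ⟨z, i, he⟩, rfl⟩ | ⟨x, y, y', ⟨z, i, he⟩, rfl⟩), rfl⟩
    · refine ⟨Sum.elim z y, Sum.inl i, ?_⟩
      rw [Sym2.map_mk, ← hl]
      have := congrArg (Sym2.map (fun w : ι → ZMod L => (Sum.elim w y : ι ⊕ κ → ZMod L))) he
      simpa using this
    · refine ⟨Sum.elim x z, Sum.inr i, ?_⟩
      rw [Sym2.map_mk, ← hr]
      have := congrArg (Sym2.map (fun w : κ → ZMod L => (Sum.elim x w : ι ⊕ κ → ZMod L))) he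
      simpa using this

theorem card_tor (s L : ℕ) [NeZero L] : Fintype.card (Fin s → ZMod L) = L ^ s := by
  rw [Fintype.card_fun, ZMod.card, Fintype.card_fin]

theorem elim_bij (ι κ : Type) (L : ℕ) :
    Function.Bijective (fun p : (ι → ZMod L) × (κ → ZMod L) =>
      (Sum.elim p.1 p.2 : ι ⊕ κ → ZMod L)) := by
  constructor
  · rintro ⟨a, b⟩ ⟨a', b'⟩ h
    have h1 : a = a' := by
      funext i
      have := congrFun h (Sum.inl i)
      simpa using this
    have h2 : b = b' := by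
      funext i
      have := congrFun h (Sum.inr i)
      simpa using this
    rw [h1, h2]
  · intro f
    refine ⟨(fun i => f (Sum.inl i), fun i => f (Sum.inr i)), ?_⟩
    funext i
    cases i <;> rfl

theorem transfer_tor {ι κ : Type} [DecidableEq ι] [DecidableEq κ] (e : ι ≃ κ) {L s : ℕ}
    (h : DecN IsHC s (torI ι L)) : DecN IsHC s (torI κ L) := by
  rw [tor_reindex e L]
  refine transfer p1a p1c ?_ h
  constructor
  · intro x y hxy
    funext i
    have := congrFun hxy (e i)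
    simpa using this
  · intro y
    exact ⟨fun i => y (e i), by funext j; simp⟩

theorem coprime_pow {L : ℕ} (hL : 2 ≤ L) (x y : ℕ) (hy : 1 ≤ y) :
    Nat.Coprime (L ^ y - 1) (L ^ x) := by
  apply Nat.Coprime.pow_right
  obtain ⟨y', rfl⟩ : ∃ y', y = y' + 1 := ⟨y - 1, by omega⟩
  have h1 : L ^ (y' + 1) = L ^ y' * L := pow_succ _ _
  have h2 : 1 ≤ L ^ (y' + 1) := Nat.one_le_pow _ _ (by omega)
  have h3 : Nat.Coprime (L ^ (y' + 1) - 1) (L ^ (y' + 1)) := by
    have h4 : L ^ (y' + 1) = (L ^ (y' + 1) - 1) + 1 := by omega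
    nth_rewrite 2 [h4]
    simp
  exact Nat.Coprime.coprime_dvd_right (Dvd.intro_left _ h1.symm) h3

/-- The product of two Hamiltonian cycles. -/
theorem k1 {L : ℕ} (hL : 3 ≤ L) (V W : Type) [Fintype V] [Fintype W] (x y : ℕ) (D : Set (Sym2 V))
    (E : Set (Sym2 W)) (hx : 1 ≤ x) (hy : 1 ≤ y) (hV : Fintype.card V = L ^ x)
    (hW : Fintype.card W = L ^ y) (hD : IsHC D) (hE : IsHC E) : DecN IsHC 2 (boxE D E) := by
  have aux : ∀ (V W : Type) [Fintype V] [Fintype W] (x y : ℕ) (D : Set (Sym2 V))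
      (E : Set (Sym2 W)), 1 ≤ y → y ≤ x → Fintype.card V = L ^ x → Fintype.card W = L ^ y →
      IsHC D → IsHC E → DecN IsHC 2 (boxE D E) := by
    intro V W _ _ x y D E hy hyx hV hW hD hE
    obtain ⟨φ, hφ, rfl⟩ := hc_param p2c hV hD
    obtain ⟨ψ, hψ, rfl⟩ := hc_param p2c hW hE
    rw [p3c _ _ _ _ φ ψ _ _ hφ hψ]
    have hb : Function.Bijective (Prod.map φ ψ) := hφ.prodMap hψ
    have hLy : 3 ≤ L ^ y := hL.trans (Nat.le_self_pow (by omega) L)
    exact p1a _ _ IsHC IsHC _ 2 _ hb.1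
      (Pool.Agent.K3h34.Erde.k0 _ _ hLy (pow_dvd_pow L hyx) (by positivity)
        (coprime_pow (by omega) x y hy)) (fun F hF => p1c _ _ _ F hb hF)
  rcases Nat.le_total y x with h | h
  · exact aux V W x y D E hy h hV hW hD hE
  · rw [swap_boxE]
    exact p1a _ _ IsHC IsHC Prod.swap 2 _ Prod.swap_injective
      (aux W V y x E D hx h hW hV hE hD)
      (fun F hF => p1c _ _ _ F Prod.swap_bijective hF)

theorem t0b : StmT0b :=
  Pool.Agent.K3h11.Erde.t0b Pool.Agent.K3h92.Erde.t0x Pool.Agent.K3h77.Erde.t0y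
    Pool.Agent.K3h18.Erde.t0z Pool.Agent.K3h92.Erde.t0d

/-- The product of three Hamiltonian cycles. -/
theorem t1 {L : ℕ} (hL : 3 ≤ L) (V W W' : Type) [Fintype V] [Fintype W] [Fintype W'] (x y : ℕ)
    (D : Set (Sym2 V)) (C : Set (Sym2 W)) (C' : Set (Sym2 W')) (hy : 1 ≤ y) (hyx : y ≤ x)
    (h4y : 4 ≤ L ^ y) (hV : Fintype.card V = L ^ x) (hW : Fintype.card W = L ^ y)
    (hW' : Fintype.card W' = L ^ y) (hD : IsHC D) (hC : IsHC C) (hC' : IsHC C') :
    DecN IsHC 3 (boxE D (boxE C C')) := by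
  obtain ⟨φ, hφ, rfl⟩ := hc_param p2c hV hD
  obtain ⟨ψ, hψ, rfl⟩ := hc_param p2c hW hC
  obtain ⟨ψ', hψ', rfl⟩ := hc_param p2c hW' hC'
  obtain ⟨χ, hχ, hbox, hdis⟩ := Pool.Agent.K3h34.Erde.t0a (L ^ x) (L ^ y) (by omega)
    (pow_dvd_pow L hyx) (by positivity) (coprime_pow (by omega) x y hy)
  rw [assoc_boxE, p3c _ _ _ _ φ ψ _ _ hφ hψ, hbox, ← Set.image_comp, ← Sym2.map_comp]
  have hb : Function.Bijective (Prod.map φ ψ ∘ χ) := (hφ.prodMap hψ).comp hχ
  rw [p3c _ _ _ _ (Prod.map φ ψ ∘ χ) ψ' _ _ hb hψ', ← Set.image_comp, ← Sym2.map_comp]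
  have hb' : Function.Bijective (⇑(Equiv.prodAssoc V W W') ∘ Prod.map (Prod.map φ ψ ∘ χ) ψ') :=
    (Equiv.bijective _).comp (hb.prodMap hψ')
  exact p1a _ _ IsHC IsHC _ 3 _ hb'.1
    (t0b _ _ h4y (pow_dvd_pow L hyx) (by positivity) (coprime_pow (by omega) x y hy))
    (fun F hF => p1c _ _ _ F hb' hF)

theorem tor_one {L : ℕ} (hL : 3 ≤ L) : DecN IsHC 1 (torI (Fin 1) L) := by
  refine decN_one _ _ ?_
  have : NeZero L := ⟨by omega⟩
  have hc : IsHC (cyE L) := by
    refine ⟨L, fun j => (j : ZMod L), ⟨hL, by simp, ?_⟩, ?_, ?_⟩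
    · intro a ha b hb h
      rw [Set.mem_Iio] at ha hb
      have h1 := congrArg ZMod.val h
      simp only [ZMod.val_natCast] at h1
      rwa [Nat.mod_eq_of_lt ha, Nat.mod_eq_of_lt hb] at h1
    · intro v
      exact ⟨v.val, ZMod.val_lt v, by simp⟩
    · ext e
      constructor
      · rintro ⟨u, rfl⟩
        exact ⟨u.val, ZMod.val_lt u, by simp⟩
      · rintro ⟨j, -, rfl⟩
        exact ⟨(j : ZMod L), by push_cast; rfl⟩
  have hφ : Function.Bijective (fun (u : ZMod L) (_ : Fin 1) => u) := by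
    constructor
    · intro a b h
      exact congrFun h 0
    · intro y
      exact ⟨y 0, by funext i; rw [Subsingleton.elim i 0]⟩
  have h1 : torI (Fin 1) L = Sym2.map (fun (u : ZMod L) (_ : Fin 1) => u) '' cyE L := by
    have hs : ∀ u : ZMod L, (fun _ : Fin 1 => u + 1) =
        (fun _ : Fin 1 => u) + Pi.single (0 : Fin 1) (1 : ZMod L) := by
      intro u
      funext i
      rw [Subsingleton.elim i 0]
      simp
    ext e
    constructor
    · rintro ⟨y, i, rfl⟩
      refine ⟨s(y 0, y 0 + 1), ⟨_, rfl⟩, ?_⟩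
      rw [Sym2.map_mk, hs]
      have hy : (fun _ : Fin 1 => y 0) = y := by
        funext j
        rw [Subsingleton.elim j 0]
      rw [hy, Subsingleton.elim i 0]
    · rintro ⟨_, ⟨u, rfl⟩, rfl⟩
      exact ⟨fun _ => u, 0, by rw [Sym2.map_mk, hs]⟩
  rw [h1]
  exact p1c _ _ _ _ hφ hc

theorem even_step {L : ℕ} (hL : 3 ≤ L) (h : ℕ) (hh : 1 ≤ h)
    (ih : DecN IsHC h (torI (Fin h) L)) : DecN IsHC (h * 2) (torI (Fin (h * 2)) L) := by
  have : NeZero L := ⟨by omega⟩
  have h1 : DecN IsHC (h * 2) (boxE (torI (Fin h) L) (torI (Fin h) L)) :=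
    p3a _ _ IsHC IsHC IsHC h 2 _ _ hc_loopless hc_loopless ih ih fun D' E' hD hE =>
      k1 hL _ _ h h D' E' hh hh (card_tor h L) (card_tor h L) hD hE
  have h2 : DecN IsHC (h * 2) (torI (Fin h ⊕ Fin h) L) := by
    rw [tor_sum]
    exact transfer p1a p1c (elim_bij _ _ _) h1
  have e : Fin h ⊕ Fin h ≃ Fin (h * 2) := finSumFinEquiv.trans (finCongr (by ring))
  exact transfer_tor e h2

theorem odd_step {L : ℕ} (hL : 3 ≤ L) (b h t : ℕ) (ht : 1 ≤ t)
    (hth : t ≤ h) (hhb : h ≤ b) (hbt : b + t = 2 * h) (h4 : 4 ≤ L ^ h)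
    (ihb : DecN IsHC b (torI (Fin b) L)) (ihh : DecN IsHC h (torI (Fin h) L)) :
    DecN IsHC (b + 2 * h) (torI (Fin (b + 2 * h)) L) := by
  have : NeZero L := ⟨by omega⟩
  obtain ⟨b', hb'⟩ : ∃ b', b = t + b' := ⟨b - t, by omega⟩
  obtain ⟨h', hh'⟩ : ∃ h', h = t + h' := ⟨h - t, by omega⟩
  have hb'h' : b' = h' * 2 := by omega
  have ihb1 : DecN IsHC (t + b') (torI (Fin b) L) := by rw [← hb']; exact ihb
  have ihh1 : DecN IsHC (t + h') (torI (Fin h) L) := by rw [← hh']; exact ihh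
  obtain ⟨D, D', hD, hDD, hD1, hD2⟩ := p1f _ _ _ _ _ ihb1
  obtain ⟨C, C', hC, hCC, hC1, hC2⟩ := p1f _ _ _ _ _ ihh1
  have hDl : ∀ x, s(x, x) ∉ D ∪ D' := by
    intro x
    rw [← hD]
    exact tor_loopless (by omega) x
  have hCl : ∀ x, s(x, x) ∉ C ∪ C' := by
    intro x
    rw [← hC]
    exact tor_loopless (by omega) x
  obtain ⟨g1, g2⟩ := p3b _ _ C C' C C' hCl hCl hCC hCC
  obtain ⟨k1', k2⟩ := p3b _ _ D D' (boxE C C) (boxE C' C') hDl (by
    intro x
    rw [← g1]
    exact box_loopless hCl hCl x) hDD g2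
  -- the second part
  have hG2 : DecN IsHC b' (boxE C' C') := by
    rw [hb'h']
    exact p3a _ _ IsHC IsHC IsHC h' 2 _ _ hc_loopless hc_loopless hC2 hC2 fun X Y hX hY =>
      k1 hL _ _ h h X Y (by omega) (by omega) (card_tor h L) (card_tor h L) hX hY
  have hcard2 : Fintype.card ((Fin h → ZMod L) × (Fin h → ZMod L)) = L ^ (2 * h) := by
    rw [Fintype.card_prod, card_tor, two_mul, pow_add]
  have hS2 : DecN IsHC (b' * 2) (boxE D' (boxE C' C')) :=
    p3a _ _ IsHC IsHC IsHC b' 2 _ _ hc_loopless hc_loopless hD2 hG2 fun X Y hX hY =>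
      k1 hL _ _ b (2 * h) X Y (by omega) (by omega) (card_tor b L) hcard2 hX hY
  -- the first part
  have hG1 : DecN (fun F => ∃ X Y, IsHC X ∧ IsHC Y ∧ F = boxE X Y) (t * 1) (boxE C C) :=
    p3a _ _ IsHC IsHC _ t 1 _ _ hc_loopless hc_loopless hC1 hC1 fun X Y hX hY =>
      decN_one _ _ ⟨X, Y, hX, hY, rfl⟩
  rw [mul_one] at hG1
  have hS1 : DecN IsHC (t * 3) (boxE D (boxE C C)) :=
    p3a _ _ IsHC _ IsHC t 3 _ _ hc_loopless (by
      rintro F ⟨X, Y, hX, hY, rfl⟩ x
      exact box_loopless (hc_loopless X hX) (hc_loopless Y hY) x) hD1 hG1 (by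
      rintro X F hX ⟨Y, Z, hY, hZ, rfl⟩
      exact t1 hL _ _ _ b h X Y Z (by omega) hhb h4 (card_tor b L) (card_tor h L)
        (card_tor h L) hX hY hZ)
  have hS : DecN IsHC (t * 3 + b' * 2)
      (boxE (torI (Fin b) L) (boxE (torI (Fin h) L) (torI (Fin h) L))) := by
    have e1 : boxE (torI (Fin h) L) (torI (Fin h) L) = boxE C C ∪ boxE C' C' := by
      rw [← g1, ← hC]
    rw [e1, hD, k1']
    exact p1d _ _ _ _ _ _ k2 hS1 hS2
  have hnum : t * 3 + b' * 2 = b + 2 * h := by omega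
  rw [hnum] at hS
  -- transport
  have h2 : DecN IsHC (b + 2 * h) (torI (Fin b ⊕ (Fin h ⊕ Fin h)) L) := by
    rw [tor_sum]
    refine transfer p1a p1c (elim_bij _ _ _) ?_
    rw [tor_sum (Fin h) (Fin h)]
    have e2 : torI (Fin b) L = Sym2.map id '' torI (Fin b) L := by
      rw [Sym2.map_id, Set.image_id]
    have e3 := p3c _ _ _ _ id
      (fun p : (Fin h → ZMod L) × (Fin h → ZMod L) => Sum.elim p.1 p.2)
      (torI (Fin b) L) (boxE (torI (Fin h) L) (torI (Fin h) L))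
      Function.bijective_id (elim_bij _ _ _)
    rw [← e2] at e3
    rw [e3]
    exact transfer p1a p1c (Function.bijective_id.prodMap (elim_bij _ _ _)) hS
  have e : Fin b ⊕ (Fin h ⊕ Fin h) ≃ Fin (b + 2 * h) :=
    ((Equiv.sumCongr (Equiv.refl _) finSumFinEquiv).trans finSumFinEquiv).trans
      (finCongr (by ring))
  exact transfer_tor e h2

/-- Hamiltonian decompositions of all tori `C_L ^ s`, from the cases `s = 3` and `s = 5`. -/
theorem hdec {L : ℕ} (hL : 3 ≤ L) (h3 : DecN IsHC 3 (torE 3 L)) (h5 : DecN IsHC 5 (torE 5 L)) :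
    ∀ s : ℕ, 1 ≤ s → DecN IsHC s (torE s L) := by
  intro s
  induction s using Nat.strong_induction_on with
  | _ s ih =>
    intro hs
    by_cases h1 : s = 1
    · subst h1
      exact tor_one hL
    by_cases h3' : s = 3
    · subst h3'
      exact h3
    by_cases h5' : s = 5
    · subst h5'
      exact h5
    have h4 : ∀ h, 2 ≤ h → 4 ≤ L ^ h := by
      intro h hh
      calc 4 ≤ 3 ^ 2 := by norm_num
        _ ≤ L ^ 2 := Nat.pow_le_pow_left hL 2
        _ ≤ L ^ h := Nat.pow_le_pow_right (by omega) hh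
    rcases Nat.even_or_odd' s with ⟨h, rfl | rfl⟩
    · have := even_step hL h (by omega) (ih h (by omega) (by omega))
      rwa [mul_comm h 2] at this
    · rcases Nat.even_or_odd' h with ⟨k, rfl | rfl⟩
      · -- s = 4 k + 1, k ≥ 2
        have h6 := odd_step hL (2 * k - 1) (k + 1) 3
          (by norm_num) (by omega) (by omega) (by omega) (h4 _ (by omega))
          (ih _ (by omega) (by omega)) (ih _ (by omega) (by omega))
        have h7 : 2 * k - 1 + 2 * (k + 1) = 2 * (2 * k) + 1 := by omega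
        rwa [h7] at h6
      · -- s = 4 k + 3
        have h6 := odd_step hL (2 * k + 1) (k + 1) 1
          (by norm_num) (by omega) (by omega) (by omega) (h4 _ (by omega))
          (ih _ (by omega) (by omega)) (ih _ (by omega) (by omega))
        have h7 : 2 * k + 1 + 2 * (k + 1) = 2 * (2 * k + 1) + 1 := by omega
        rwa [h7] at h6

/-- The case `s = 3` for `L ≥ 4`. -/
theorem tor_three {L : ℕ} (hL : 4 ≤ L) : DecN IsHC 3 (torE 3 L) := by
  have : NeZero L := ⟨by omega⟩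
  exact odd_step (b := 1) (h := 1) (t := 1) (by omega) (by norm_num) (by norm_num) (by norm_num)
    (by norm_num) (by simpa using hL) (tor_one (by omega)) (tor_one (by omega))

end Pool.Agent.U460.LA
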