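import Pool.Agent.U460.LA.Switch2
import Pool.Agent.U460.LA.Tor

/-!
# The union of four Hamiltonian cycles in `C_L ^ 4` and the torus `C_L ^ 5`
-/

set_option autoImplicit false

namespace Pool.Agent.U460.LA

open Pool.Agent.K3h88.Erde Pool.Agent.K3h34.Erde
open Pool.Agent.K3h11.Erde (p1a p1c)
open Pool.Agent.K3h62.Erde (p3b p3c)
open Pool.Agent.K3h4.Erde (transfer)

theorem sameCycle_of_time {T : Type} (p : Equiv.Perm T) (c : ℕ → T) (hs : ∀ v, ∃ i, c i = v)
    (hn : ∀ t, c (t + 1) = p (c t)) (x y : T) : p.SameCycle x y := by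
  have key : ∀ i : ℕ, (p ^ i) (c 0) = c i := by
    intro i
    induction i with
    | zero => simp
    | succ i ih => rw [pow_succ', Equiv.Perm.mul_apply, ih, hn]
  have h1 : ∀ v, p.SameCycle (c 0) v := by
    intro v
    obtain ⟨i, rfl⟩ := hs v
    exact ⟨(i : ℤ), by rw [zpow_natCast]; exact key i⟩
  exact (h1 x).symm.trans (h1 y)

theorem pset_permCongr {T T' : Type} (e : T ≃ T') (p : Equiv.Perm T) :
    pset (e.permCongr p) = Sym2.map e '' pset p := by
  ext f
  constructor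
  · rintro ⟨t, rfl⟩
    exact ⟨s(e.symm t, p (e.symm t)), ⟨_, rfl⟩, by
      rw [Sym2.map_mk, Equiv.apply_symm_apply, Equiv.permCongr_apply]⟩
  · rintro ⟨_, ⟨t, rfl⟩, rfl⟩
    exact ⟨e t, by rw [Sym2.map_mk, Equiv.permCongr_apply, Equiv.symm_apply_apply]⟩

theorem pset_inv {T : Type} (p : Equiv.Perm T) : pset p⁻¹ = pset p := by
  ext f
  constructor
  · rintro ⟨t, rfl⟩
    exact ⟨p⁻¹ t, by
      have h : p (p⁻¹ t) = t := by simp
      rw [h]; exact Sym2.eq_swap⟩
  · rintro ⟨t, rfl⟩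
    exact ⟨p t, by
      have h : p⁻¹ (p t) = t := by simp
      rw [h]; exact Sym2.eq_swap⟩

section

variable {K : ℕ} (hK : 3 ≤ K)

include hK in
theorem cop_self : Nat.Coprime (K - 1) K := by
  have := coprime_pow (L := K) (by omega) 1 1 le_rfl
  simpa using this

include hK in
theorem c1_surj (v : ZMod K × ZMod K) : ∃ i, i < K * K ∧ c1 K K i = v := by
  have : NeZero K := ⟨by omega⟩
  have hi : Function.Injective (fun i : Fin (K * K) => c1 K K i.val) := by
    intro i j h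
    exact Fin.ext (c1_inj K K _ _ i.2 j.2 h)
  have hb : Function.Bijective (fun i : Fin (K * K) => c1 K K i.val) :=
    (Fintype.bijective_iff_injective_and_card _).2 ⟨hi, by
      rw [Fintype.card_prod, ZMod.card, Fintype.card_fin]⟩
  obtain ⟨i, hi⟩ := hb.2 v
  exact ⟨i.val, i.isLt, hi⟩

include hK in
theorem c2_surj (v : ZMod K × ZMod K) : ∃ i, i < K * K ∧ c2 K K i = v := by
  have : NeZero K := ⟨by omega⟩
  have hi : Function.Injective (fun i : Fin (K * K) => c2 K K i.val) := by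
    intro i j h
    exact Fin.ext (c2_inj K K hK dvd_rfl (cop_self hK) _ _ i.2 j.2 h)
  have hb : Function.Bijective (fun i : Fin (K * K) => c2 K K i.val) :=
    (Fintype.bijective_iff_injective_and_card _).2 ⟨hi, by
      rw [Fintype.card_prod, ZMod.card, Fintype.card_fin]⟩
  obtain ⟨i, hi⟩ := hb.2 v
  exact ⟨i.val, i.isLt, hi⟩

include hK in
theorem n1_bij : Function.Bijective (n1 K K) := by
  have : NeZero K := ⟨by omega⟩
  refine Function.Surjective.bijective_of_finite ?_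
  intro v
  obtain ⟨i, -, rfl⟩ := c1_surj hK v
  rcases Nat.eq_zero_or_pos i with h | h
  · subst h
    refine ⟨c1 K K (K * K - 1), ?_⟩
    rw [← c1_succ K K dvd_rfl, ← c1_top K K hK dvd_rfl]
    congr 1
    have : 0 < K * K := by positivity
    omega
  · refine ⟨c1 K K (i - 1), ?_⟩
    rw [← c1_succ K K dvd_rfl]
    congr 1
    omega

include hK in
theorem n2_bij : Function.Bijective (n2 K K) := by
  have : NeZero K := ⟨by omega⟩
  refine Function.Surjective.bijective_of_finite ?_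
  intro v
  obtain ⟨i, -, rfl⟩ := c2_surj hK v
  rcases Nat.eq_zero_or_pos i with h | h
  · subst h
    refine ⟨c2 K K (K * K - 1), ?_⟩
    rw [← c2_succ K K dvd_rfl, ← c2_top K K hK dvd_rfl]
    congr 1
    have : 0 < K * K := by positivity
    omega
  · refine ⟨c2 K K (i - 1), ?_⟩
    rw [← c2_succ K K dvd_rfl]
    congr 1
    omega

/-- the first cycle as a permutation -/
noncomputable def P1 : Equiv.Perm (ZMod K × ZMod K) := Equiv.ofBijective _ (n1_bij hK)

/-- the second cycle as a permutation -/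
noncomputable def P2 : Equiv.Perm (ZMod K × ZMod K) := Equiv.ofBijective _ (n2_bij hK)

theorem P1_apply (v : ZMod K × ZMod K) : P1 hK v = n1 K K v := rfl

theorem P2_apply (v : ZMod K × ZMod K) : P2 hK v = n2 K K v := rfl

theorem pset_P1 : pset (P1 hK) = nE (n1 K K) := rfl

theorem pset_P2 : pset (P2 hK) = nE (n2 K K) := rfl

theorem same_P1 (x y : ZMod K × ZMod K) : (P1 hK).SameCycle x y :=
  sameCycle_of_time _ (c1 K K) (fun v => (c1_surj hK v).imp fun _ h => h.2)
    (fun t => c1_succ K K dvd_rfl t) x y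

theorem same_P2 (x y : ZMod K × ZMod K) : (P2 hK).SameCycle x y :=
  sameCycle_of_time _ (c2 K K) (fun v => (c2_surj hK v).imp fun _ h => h.2)
    (fun t => c2_succ K K dvd_rfl t) x y

include hK in
theorem E1_bij : Function.Bijective (fun t : ZMod (K * K) => c1 K K t.val) := by
  have : NeZero K := ⟨by omega⟩
  have : NeZero (K * K) := ⟨by positivity⟩
  constructor
  · intro t t' h
    exact ZMod.val_injective _ (c1_inj K K _ _ (ZMod.val_lt t) (ZMod.val_lt t') h)
  · intro v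
    obtain ⟨i, hi, rfl⟩ := c1_surj hK v
    refine ⟨(i : ZMod (K * K)), ?_⟩
    simp only
    rw [ZMod.val_natCast, Nat.mod_eq_of_lt hi]

include hK in
theorem E2_bij : Function.Bijective (fun t : ZMod (K * K) => c2 K K t.val) := by
  have : NeZero K := ⟨by omega⟩
  have : NeZero (K * K) := ⟨by positivity⟩
  constructor
  · intro t t' h
    exact ZMod.val_injective _ (c2_inj K K hK dvd_rfl (cop_self hK) _ _ (ZMod.val_lt t)
      (ZMod.val_lt t') h)
  · intro v
    obtain ⟨i, hi, rfl⟩ := c2_surj hK v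
    refine ⟨(i : ZMod (K * K)), ?_⟩
    simp only
    rw [ZMod.val_natCast, Nat.mod_eq_of_lt hi]

/-- time of the first cycle -/
noncomputable def E1 : ZMod (K * K) ≃ ZMod K × ZMod K := Equiv.ofBijective _ (E1_bij hK)

/-- time of the second cycle -/
noncomputable def E2 : ZMod (K * K) ≃ ZMod K × ZMod K := Equiv.ofBijective _ (E2_bij hK)

theorem E1_cast (i : ℕ) (hi : i < K * K) : E1 hK (i : ZMod (K * K)) = c1 K K i := by
  show c1 K K ((i : ZMod (K * K)).val) = _
  rw [ZMod.val_natCast, Nat.mod_eq_of_lt hi]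

theorem E2_cast (i : ℕ) (hi : i < K * K) : E2 hK (i : ZMod (K * K)) = c2 K K i := by
  show c2 K K ((i : ZMod (K * K)).val) = _
  rw [ZMod.val_natCast, Nat.mod_eq_of_lt hi]

theorem E1_succ (t : ZMod (K * K)) : E1 hK (t + 1) = n1 K K (E1 hK t) := by
  have : NeZero K := ⟨by omega⟩
  have : NeZero (K * K) := ⟨by positivity⟩
  have e1 : t + 1 = ((t.val + 1 : ℕ) : ZMod (K * K)) := by
    rw [Nat.cast_add, ZMod.natCast_zmod_val, Nat.cast_one]
  have h1 : E1 hK t = c1 K K t.val := rfl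
  rw [h1, ← c1_succ K K dvd_rfl, e1]
  have hlt := ZMod.val_lt t
  by_cases h : t.val + 1 < K * K
  · exact E1_cast hK _ h
  · have h2 : t.val + 1 = K * K := by omega
    rw [h2, c1_top K K hK dvd_rfl]
    have h3 := E1_cast hK 0 (by positivity)
    rw [ZMod.natCast_self, ← h3]
    simp

theorem E2_succ (t : ZMod (K * K)) : E2 hK (t + 1) = n2 K K (E2 hK t) := by
  have : NeZero K := ⟨by omega⟩
  have : NeZero (K * K) := ⟨by positivity⟩
  have e1 : t + 1 = ((t.val + 1 : ℕ) : ZMod (K * K)) := by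
    rw [Nat.cast_add, ZMod.natCast_zmod_val, Nat.cast_one]
  have h1 : E2 hK t = c2 K K t.val := rfl
  rw [h1, ← c2_succ K K dvd_rfl, e1]
  have hlt := ZMod.val_lt t
  by_cases h : t.val + 1 < K * K
  · exact E2_cast hK _ h
  · have h2 : t.val + 1 = K * K := by omega
    rw [h2, c2_top K K hK dvd_rfl]
    have h3 := E2_cast hK 0 (by positivity)
    rw [ZMod.natCast_self, ← h3]
    simp

theorem E1_cyE : Sym2.map (E1 hK) '' cyE (K * K) = nE (n1 K K) := by
  ext e
  constructor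
  · rintro ⟨_, ⟨t, rfl⟩, rfl⟩
    exact ⟨E1 hK t, by rw [Sym2.map_mk, E1_succ]⟩
  · rintro ⟨v, rfl⟩
    obtain ⟨t, rfl⟩ := (E1 hK).surjective v
    exact ⟨s(t, t + 1), ⟨t, rfl⟩, by rw [Sym2.map_mk, E1_succ]⟩

theorem E2_cyE : Sym2.map (E2 hK) '' cyE (K * K) = nE (n2 K K) := by
  ext e
  constructor
  · rintro ⟨_, ⟨t, rfl⟩, rfl⟩
    exact ⟨E2 hK t, by rw [Sym2.map_mk, E2_succ]⟩
  · rintro ⟨v, rfl⟩
    obtain ⟨t, rfl⟩ := (E2 hK).surjective v
    exact ⟨s(t, t + 1), ⟨t, rfl⟩, by rw [Sym2.map_mk, E2_succ]⟩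

end

theorem neg_cyE (K : ℕ) : Sym2.map (fun t : ZMod K => -t) '' cyE K = cyE K := by
  ext e
  constructor
  · rintro ⟨_, ⟨t, rfl⟩, rfl⟩
    refine ⟨-t - 1, ?_⟩
    rw [Sym2.map_mk, Sym2.eq_swap, show -(t + 1) = -t - 1 by ring, show -t - 1 + 1 = -t by ring]
  · rintro ⟨t, rfl⟩
    refine ⟨s(-t - 1, -t - 1 + 1), ⟨_, rfl⟩, ?_⟩
    rw [Sym2.map_mk, Sym2.eq_swap, show -(-t - 1 + 1) = t by ring, show -(-t - 1) = t + 1 by ring]

end Pool.Agent.U460.LA
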