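import Pool.Agent.U460.LA.Five

/-!
# The torus `C_L ^ 5`
-/

set_option autoImplicit false

namespace Pool.Agent.U460.LA

open Pool.Agent.K3h88.Erde Pool.Agent.K3h34.Erde
open Pool.Agent.K3h11.Erde (p1a p1c)
open Pool.Agent.K3h62.Erde (p3b p3c)
open Pool.Agent.K3h4.Erde (transfer)

theorem three_sq {L : ℕ} (hL : 3 ≤ L) : 3 ≤ L * L := by nlinarith

section

variable {L : ℕ} (hL : 3 ≤ L)

/-- coordinates of the first pair of cycles -/
noncomputable def kap : ZMod (L * L) × ZMod (L * L) ≃ (ZMod L × ZMod L) × (ZMod L × ZMod L) :=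
  Equiv.prodCongr (E1 hL) (E1 hL)

/-- coordinates of the second pair of cycles, the second one reversed -/
noncomputable def tht : ZMod (L * L) × ZMod (L * L) ≃ (ZMod L × ZMod L) × (ZMod L × ZMod L) :=
  Equiv.prodCongr (E2 hL) ((Equiv.neg _).trans (E2 hL))

/-- time of the first cycle of the first pair -/
noncomputable def phi : ZMod ((L * L) * (L * L)) ≃ (ZMod L × ZMod L) × (ZMod L × ZMod L) :=
  (E1 (three_sq hL)).trans (kap hL)

/-- the three other Hamiltonian cycles of `C_L ^ 4` -/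
noncomputable def SS : Fin 3 → Equiv.Perm (ZMod ((L * L) * (L * L))) :=
  ![(E1 (three_sq hL)).symm.permCongr (P2 (three_sq hL)),
    ((tht hL).trans (phi hL).symm).permCongr (P1 (three_sq hL)),
    ((tht hL).trans (phi hL).symm).permCongr (P2 (three_sq hL))⁻¹]

theorem same_permCongr {T T' : Type} (e : T ≃ T') (p : Equiv.Perm T)
    (h : ∀ x y, p.SameCycle x y) (x y : T') : (e.permCongr p).SameCycle x y := by
  obtain ⟨n, hn⟩ := h (e.symm x) (e.symm y)
  refine ⟨n, ?_⟩
  have key : ∀ n : ℤ, (e.permCongr p) ^ n = e.permCongr (p ^ n) := by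
    intro n
    have := map_zpow (Equiv.permCongrHom e) p n
    exact this.symm
  rw [key, Equiv.permCongr_apply, hn, Equiv.apply_symm_apply]

theorem same_SS (j : Fin 3) (x y : ZMod ((L * L) * (L * L))) : (SS hL j).SameCycle x y := by
  fin_cases j
  · exact same_permCongr _ _ (same_P2 _) x y
  · exact same_permCongr _ _ (same_P1 _) x y
  · exact same_permCongr _ _ (fun x y => (Equiv.Perm.sameCycle_inv).2 (same_P2 _ x y)) x y

theorem comp_image {A B C : Type} (f : B → C) (g : A → B) (X : Set (Sym2 A)) :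
    Sym2.map f '' (Sym2.map g '' X) = Sym2.map (f ∘ g) '' X := by
  rw [← Set.image_comp, ← Sym2.map_comp]

theorem phi_cyE : Sym2.map (phi hL) '' cyE ((L * L) * (L * L)) =
    Sym2.map (kap hL) '' nE (n1 (L * L) (L * L)) := by
  rw [← E1_cyE (three_sq hL), comp_image]
  rfl

theorem phi_SS0 : Sym2.map (phi hL) '' pset (SS hL 0) =
    Sym2.map (kap hL) '' nE (n2 (L * L) (L * L)) := by
  have h : SS hL 0 = (E1 (three_sq hL)).symm.permCongr (P2 (three_sq hL)) := rfl
  rw [h, pset_permCongr, comp_image, pset_P2]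
  congr 2
  funext v
  simp [phi]

theorem phi_SS1 : Sym2.map (phi hL) '' pset (SS hL 1) =
    Sym2.map (tht hL) '' nE (n1 (L * L) (L * L)) := by
  have h : SS hL 1 = ((tht hL).trans (phi hL).symm).permCongr (P1 (three_sq hL)) := rfl
  rw [h, pset_permCongr, comp_image, pset_P1]
  congr 2
  funext v
  simp

theorem phi_SS2 : Sym2.map (phi hL) '' pset (SS hL 2) =
    Sym2.map (tht hL) '' nE (n2 (L * L) (L * L)) := by
  have h : SS hL 2 = ((tht hL).trans (phi hL).symm).permCongr (P2 (three_sq hL))⁻¹ := rfl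
  rw [h, pset_permCongr, comp_image, pset_inv, pset_P2]
  congr 2
  funext v
  simp

theorem box_D1 : boxE (nE (n1 L L)) (nE (n1 L L)) = Sym2.map (kap hL) '' nE (n1 (L * L) (L * L)) ∪
    Sym2.map (kap hL) '' nE (n2 (L * L) (L * L)) := by
  rw [← Set.image_union, ← n_union, ← E1_cyE hL,
    p3c _ _ _ _ _ _ _ _ (E1 hL).bijective (E1 hL).bijective]
  rfl

theorem box_D2 : boxE (nE (n2 L L)) (nE (n2 L L)) = Sym2.map (tht hL) '' nE (n1 (L * L) (L * L)) ∪
    Sym2.map (tht hL) '' nE (n2 (L * L) (L * L)) := by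
  have h1 : nE (n2 L L) = Sym2.map ((Equiv.neg _).trans (E2 hL)) '' cyE (L * L) := by
    have h2 : (((Equiv.neg _).trans (E2 hL) : ZMod (L * L) ≃ _) : ZMod (L * L) → _) =
      (E2 hL) ∘ (fun t : ZMod (L * L) => -t) := rfl
    rw [h2, ← comp_image, neg_cyE, E2_cyE]
  rw [← Set.image_union, ← n_union]
  have h3 : boxE (nE (n2 L L)) (nE (n2 L L)) = boxE (Sym2.map (E2 hL) '' cyE (L * L))
      (Sym2.map ((Equiv.neg _).trans (E2 hL)) '' cyE (L * L)) := by
    rw [← h1, E2_cyE]
  rw [h3, p3c _ _ _ _ _ _ _ _ (E2 hL).bijective ((Equiv.neg _).trans (E2 hL)).bijective]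
  rfl

include hL in
theorem n1_loop (x : ZMod L × ZMod L) : s(x, x) ∉ nE (n1 L L) := by
  have : NeZero L := ⟨by omega⟩
  have h : IsHC (nE (n1 L L)) :=
    ishc_of_next (n1 L L) (c1 L L) (L * L) (three_sq hL) (by
      rw [Fintype.card_prod, ZMod.card]) (c1_top L L hL dvd_rfl)
      (fun i j hi hj h => c1_inj L L i j hi hj h) (fun t _ => c1_succ L L dvd_rfl t)
  exact hc_loop h x

include hL in
theorem n2_loop (x : ZMod L × ZMod L) : s(x, x) ∉ nE (n2 L L) := by
  have : NeZero L := ⟨by omega⟩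
  have h : IsHC (nE (n2 L L)) :=
    ishc_of_next (n2 L L) (c2 L L) (L * L) (three_sq hL) (by
      rw [Fintype.card_prod, ZMod.card]) (c2_top L L hL dvd_rfl)
      (fun i j hi hj h => c2_inj L L hL dvd_rfl (cop_self hL) i j hi hj h)
      (fun t _ => c2_succ L L dvd_rfl t)
  exact hc_loop h x

include hL in
/-- the two boxes -/
theorem two_boxes : boxE (boxE (cyE L) (cyE L)) (boxE (cyE L) (cyE L)) =
    boxE (nE (n1 L L)) (nE (n1 L L)) ∪ boxE (nE (n2 L L)) (nE (n2 L L)) ∧
    Disjoint (boxE (nE (n1 L L)) (nE (n1 L L))) (boxE (nE (n2 L L)) (nE (n2 L L))) := by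
  have hl : ∀ x, s(x, x) ∉ nE (n1 L L) ∪ nE (n2 L L) := by
    rintro x (h | h)
    · exact n1_loop hL x h
    · exact n2_loop hL x h
  have hd := n_disj L L hL dvd_rfl (by omega)
  rw [n_union]
  exact p3b _ _ _ _ _ _ hl hl hd hd

theorem phi_union : Sym2.map (phi hL) '' (cyE ((L * L) * (L * L)) ∪ ⋃ j, pset (SS hL j)) =
    boxE (boxE (cyE L) (cyE L)) (boxE (cyE L) (cyE L)) := by
  rw [(two_boxes hL).1, box_D1 hL, box_D2 hL, ← phi_cyE, ← phi_SS0, ← phi_SS1, ← phi_SS2,
    ← Set.image_union, ← Set.image_union, ← Set.image_union]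
  congr 1
  ext e
  simp only [Set.mem_union, Set.mem_iUnion, Fin.exists_fin_succ, Fin.exists_fin_zero]
  constructor
  · rintro (h | h | h | h | h)
    · exact Or.inl (Or.inl h)
    · exact Or.inl (Or.inr h)
    · exact Or.inr (Or.inl h)
    · exact Or.inr (Or.inr h)
    · exact h.elim
  · rintro ((h | h) | (h | h))
    · exact Or.inl h
    · exact Or.inr (Or.inl h)
    · exact Or.inr (Or.inr (Or.inl h))
    · exact Or.inr (Or.inr (Or.inr (Or.inl h)))

theorem dis_phi {A B : Set (Sym2 (ZMod ((L * L) * (L * L))))}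
    (h : Disjoint (Sym2.map (phi hL) '' A) (Sym2.map (phi hL) '' B)) : Disjoint A B :=
  (Set.disjoint_image_iff (Sym2.map.injective (phi hL).injective)).1 h

theorem dis_all : (∀ j, Disjoint (cyE ((L * L) * (L * L))) (pset (SS hL j))) ∧
    ∀ i j, i ≠ j → Disjoint (pset (SS hL i)) (pset (SS hL j)) := by
  have hd := n_disj (L * L) (L * L) (three_sq hL) dvd_rfl (by nlinarith)
  have h12 : Disjoint (Sym2.map (kap hL) '' nE (n1 (L * L) (L * L)))
      (Sym2.map (kap hL) '' nE (n2 (L * L) (L * L))) :=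
    (Set.disjoint_image_iff (Sym2.map.injective (kap hL).injective)).2 hd
  have h34 : Disjoint (Sym2.map (tht hL) '' nE (n1 (L * L) (L * L)))
      (Sym2.map (tht hL) '' nE (n2 (L * L) (L * L))) :=
    (Set.disjoint_image_iff (Sym2.map.injective (tht hL).injective)).2 hd
  have hb := (two_boxes hL).2
  rw [box_D1 hL, box_D2 hL, Set.disjoint_union_left, Set.disjoint_union_right,
    Set.disjoint_union_right] at hb
  obtain ⟨⟨h13, h14⟩, h23, h24⟩ := hb
  constructor
  · intro j
    apply dis_phi hL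
    rw [phi_cyE]
    fin_cases j
    · show Disjoint _ (Sym2.map (phi hL) '' pset (SS hL 0))
      rw [phi_SS0]; exact h12
    · show Disjoint _ (Sym2.map (phi hL) '' pset (SS hL 1))
      rw [phi_SS1]; exact h13
    · show Disjoint _ (Sym2.map (phi hL) '' pset (SS hL 2))
      rw [phi_SS2]; exact h14
  · intro i j hij
    apply dis_phi hL
    have e0 := phi_SS0 hL
    have e1 := phi_SS1 hL
    have e2 := phi_SS2 hL
    fin_cases i <;> fin_cases j
    · exact absurd rfl hij
    · show Disjoint (Sym2.map (phi hL) '' pset (SS hL 0)) (Sym2.map (phi hL) '' pset (SS hL 1))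
      rw [e0, e1]; exact h23
    · show Disjoint (Sym2.map (phi hL) '' pset (SS hL 0)) (Sym2.map (phi hL) '' pset (SS hL 2))
      rw [e0, e2]; exact h24
    · show Disjoint (Sym2.map (phi hL) '' pset (SS hL 1)) (Sym2.map (phi hL) '' pset (SS hL 0))
      rw [e0, e1]; exact h23.symm
    · exact absurd rfl hij
    · show Disjoint (Sym2.map (phi hL) '' pset (SS hL 1)) (Sym2.map (phi hL) '' pset (SS hL 2))
      rw [e1, e2]; exact h34
    · show Disjoint (Sym2.map (phi hL) '' pset (SS hL 2)) (Sym2.map (phi hL) '' pset (SS hL 0))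
      rw [e0, e2]; exact h24.symm
    · show Disjoint (Sym2.map (phi hL) '' pset (SS hL 2)) (Sym2.map (phi hL) '' pset (SS hL 1))
      rw [e1, e2]; exact h34.symm
    · exact absurd rfl hij

/-- The torus of dimension five, in nested form, from the chords. -/
theorem box_five (x y : Fin 3 → ℕ → ℕ) (h : Chords ((L * L) * (L * L)) L (Fin 3) (SS hL) x y) :
    DecN IsHC 5 (boxE (boxE (boxE (cyE L) (cyE L)) (boxE (cyE L) (cyE L))) (cyE L)) := by
  have hco : Nat.Coprime (L - 1) ((L * L) * (L * L)) := by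
    have h1 := coprime_pow (L := L) (by omega) 4 1 le_rfl
    rw [pow_one] at h1
    have h2 : L ^ 4 = (L * L) * (L * L) := by ring
    rwa [h2] at h1
  have h1 := switch (J := Fin 3) hL (Dvd.intro _ (by ring : L * (L * (L * L)) = (L * L) * (L * L)))
    (by positivity) hco (SS hL) (same_SS hL) (dis_all hL).1 (dis_all hL).2 x y h
  rw [Fintype.card_fin] at h1
  have h2 : boxE (Sym2.map (phi hL) '' (cyE ((L * L) * (L * L)) ∪ ⋃ j, pset (SS hL j)))
      (Sym2.map id '' cyE L) = Sym2.map (Prod.map (phi hL) id) ''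
        boxE (cyE ((L * L) * (L * L)) ∪ ⋃ j, pset (SS hL j)) (cyE L) :=
    p3c _ _ _ _ _ _ _ _ (phi hL).bijective Function.bijective_id
  rw [phi_union, Sym2.map_id, Set.image_id] at h2
  rw [h2]
  exact transfer p1a p1c ((phi hL).bijective.prodMap Function.bijective_id) h1

end

/-- `torI ι L` is a copy of `E`. -/
def Good (ι : Type) [DecidableEq ι] (L : ℕ) {T : Type} (E : Set (Sym2 T)) : Prop :=
  ∃ f : T → (ι → ZMod L), Function.Bijective f ∧ torI ι L = Sym2.map f '' E

theorem good_one (L : ℕ) : Good (Fin 1) L (cyE L) := by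
  refine ⟨fun u _ => u, ?_, ?_⟩
  · constructor
    · intro a b h
      exact congrFun h 0
    · intro y
      exact ⟨y 0, by funext i; rw [Subsingleton.elim i 0]⟩
  · have hs : ∀ u : ZMod L, (fun _ : Fin 1 => u + 1) =
        (fun _ : Fin 1 => u) + Pi.single (0 : Fin 1) (1 : ZMod L) := by
      intro u
      funext i
      rw [Subsingleton.elim i 0]
      simp
    ext e
    constructor
    · rintro ⟨y, i, rfl⟩
      refine ⟨s(y 0, y 0 + 1), ⟨_, rfl⟩, ?_⟩
      rw [Sym2.map_mk, hs]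
      have hy : (fun _ : Fin 1 => y 0) = y := by
        funext j
        rw [Subsingleton.elim j 0]
      rw [hy, Subsingleton.elim i 0]
    · rintro ⟨_, ⟨u, rfl⟩, rfl⟩
      exact ⟨fun _ => u, 0, by rw [Sym2.map_mk, hs]⟩

theorem good_sum {ι κ : Type} [DecidableEq ι] [DecidableEq κ] {L : ℕ} {T T' : Type}
    {E : Set (Sym2 T)} {E' : Set (Sym2 T')} (h : Good ι L E) (h' : Good κ L E') :
    Good (ι ⊕ κ) L (boxE E E') := by
  obtain ⟨f, hf, h1⟩ := h
  obtain ⟨f', hf', h1'⟩ := h'
  refine ⟨(fun p : (ι → ZMod L) × (κ → ZMod L) => (Sum.elim p.1 p.2 : ι ⊕ κ → ZMod L)) ∘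
    Prod.map f f', (elim_bij ι κ L).comp (hf.prodMap hf'), ?_⟩
  rw [tor_sum, h1, h1', p3c _ _ _ _ _ _ _ _ hf hf', comp_image]

theorem good_dec {ι : Type} [DecidableEq ι] {L s : ℕ} {T : Type} {E : Set (Sym2 T)}
    (h : Good ι L E) (hE : DecN IsHC s E) : DecN IsHC s (torI ι L) := by
  obtain ⟨f, hf, h1⟩ := h
  rw [h1]
  exact transfer p1a p1c hf hE

theorem tor_five {L : ℕ} (h : DecN IsHC 5
    (boxE (boxE (boxE (cyE L) (cyE L)) (boxE (cyE L) (cyE L))) (cyE L))) :
    DecN IsHC 5 (torE 5 L) := by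
  have h1 := good_one L
  have h2 := good_dec (good_sum (good_sum (good_sum h1 h1) (good_sum h1 h1)) h1) h
  have e : ((Fin 1 ⊕ Fin 1) ⊕ (Fin 1 ⊕ Fin 1)) ⊕ Fin 1 ≃ Fin 5 := Fintype.equivOfCardEq (by simp)
  exact transfer_tor e h2

end Pool.Agent.U460.LA
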