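import Pool.Agent.H931R3.LAMain
import Pool.Agent.TH486.LAC.Lift

/-!
# Greedy selection of a linear forest from Hamiltonian cycles

A linear forest `F` on `M` vertices with few vertices of degree two can be extended by an edge of
any given Hamiltonian cycle as long as the number of its edges is less than `7 M / 12`.
-/

set_option autoImplicit false

namespace Pool.Agent.U460.LA

open SimpleGraph H931R3.LA Finset
open Pool.Agent.W111.LAR Pool.Agent.TH486.LAC

/-- An acyclic graph has no finite component all the vertices of which have degree two. -/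
theorem no_cyc {V : Type} [Finite V] (L : SimpleGraph V) (hL : L.IsAcyclic) (a : V)
    (h2 : ∀ w, L.Reachable a w → (L.neighborSet w).ncard = 2) : False := by
  classical
  have := Fintype.ofFinite V
  have hT := hL.isTree_connectedComponent (L.connectedComponentMk a)
  let C := L.connectedComponentMk a
  have h1 := hT.card_edgeFinset
  have h3 := C.toSimpleGraph.sum_degrees_eq_twice_card_edges
  have h4 : ∀ x : C, 2 ≤ C.toSimpleGraph.degree x := by
    intro x
    have hx : L.Reachable a x.1 := (ConnectedComponent.exact x.2).symm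
    rw [← SimpleGraph.card_neighborFinset_eq_degree, ← Set.ncard_coe_finset,
      SimpleGraph.coe_neighborFinset, ← Set.ncard_image_of_injective _ Subtype.val_injective,
      ← h2 x.1 hx]
    refine Set.ncard_le_ncard ?_ (Set.toFinite _)
    intro y hy
    have hyC : y ∈ C.supp := by
      have hx : x.1 ∈ C.supp := x.2
      have hy' : L.Adj x.1 y := hy
      exact (C.mem_supp_congr_adj hy').mp hx
    exact ⟨⟨y, hyC⟩, hy, rfl⟩
  have h5 : ∑ x : C, 2 ≤ ∑ x, C.toSimpleGraph.degree x := Finset.sum_le_sum fun x _ => h4 x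
  rw [Finset.sum_const, Finset.card_univ, smul_eq_mul] at h5
  have h6 : C.toSimpleGraph.edgeFinset.card + 1 = Fintype.card C := h1
  omega

/-- The preimage of a linear forest under a locally injective map is a linear forest. -/
theorem isLF_pull {V W : Type} [Finite V] [Finite W] {P : SimpleGraph V} (hP : IsLF P)
    (G' : SimpleGraph W) (f : W → V) (hom : ∀ a b, G'.Adj a b → P.Adj (f a) (f b))
    (inj : ∀ a b b', G'.Adj a b → G'.Adj a b' → f b = f b' → b = b') : IsLF G' := by
  have e : G' = G' ⊓ P.comap f := by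
    ext a b
    rw [inf_adj]
    exact ⟨fun h => ⟨h, hom a b h⟩, fun h => h.1⟩
  have hdeg : ∀ a, (G'.neighborSet a).ncard ≤ 2 := by
    intro a
    rw [e, ← (pull_inj inj P a).ncard_image]
    exact (Set.ncard_le_ncard (pull_maps P a) (Set.toFinite _)).trans (hP.2 (f a))
  refine ⟨?_, hdeg⟩
  intro v c hc
  have hcl := closed_cycle (le_refl G') hdeg hc
  have hcyc : ∀ w, G'.Reachable v w → (G'.neighborSet w).ncard = 2 := fun w hw => (hcl w hw).2.1
  have hnb : ∀ b, G'.Reachable v b → f '' (G'.neighborSet b) = P.neighborSet (f b) := by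
    intro b hb
    have h1 := hcyc b hb
    have hinj : Set.InjOn f (G'.neighborSet b) := fun x hx y hy h => inj b x y hx hy h
    apply Set.eq_of_subset_of_ncard_le _ _ (Set.toFinite _)
    · rintro _ ⟨x, hx, rfl⟩
      exact hom b x hx
    · rw [hinj.ncard_image, h1]
      exact hP.2 _
  have key : ∀ w, P.Reachable (f v) w → ∃ b, G'.Reachable v b ∧ f b = w := by
    have walk : ∀ {x y : V} (_q : P.Walk x y) (b : W), G'.Reachable v b → f b = x →
        ∃ b', G'.Reachable v b' ∧ f b' = y := by
      intro x y q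
      induction q with
      | nil => intro b hb hbx; exact ⟨b, hb, hbx⟩
      | cons hadj q ih =>
        rename_i x z y
        intro b hb hbx
        have h3 : z ∈ f '' (G'.neighborSet b) := by
          rw [hnb b hb, hbx]; exact hadj
        obtain ⟨b', hb', hz⟩ := h3
        exact ih b' (hb.trans (Adj.reachable hb')) hz
    rintro w ⟨q⟩
    exact walk q v (Reachable.refl v) rfl
  apply no_cyc P hP.1 (f v)
  intro w hw
  obtain ⟨b, hb, rfl⟩ := key w hw
  have hinj : Set.InjOn f (G'.neighborSet b) := fun x hx y hy h => inj b x y hx hy h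
  rw [← hnb b hb, hinj.ncard_image, hcyc b hb]

/-- A cover by linear forests lifts. -/
theorem cov_pull {V W : Type} [Finite V] [Finite W] {G : SimpleGraph V} {k : ℕ} (hG : Cov G k)
    (G' : SimpleGraph W) (f : W → V) (hom : ∀ a b, G'.Adj a b → G.Adj (f a) (f b))
    (inj : ∀ a b b', G'.Adj a b → G'.Adj a b' → f b = f b' → b = b') : Cov G' k := by
  obtain ⟨F, hF, rfl⟩ := hG
  refine ⟨fun i => G' ⊓ (F i).comap f, fun i => ?_, ?_⟩
  · refine isLF_pull (hF i) _ f (fun a b h => ?_) (fun a b b' h h' => ?_)
    · rw [inf_adj] at h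
      exact h.2
    · rw [inf_adj] at h h'
      exact inj a b b' h.1 h'.1
  · ext a b
    rw [iSup_adj]
    constructor
    · rintro ⟨i, hi⟩
      rw [inf_adj] at hi
      exact hi.1
    · intro h
      have h3 := hom a b h
      rw [iSup_adj] at h3
      obtain ⟨i, hi⟩ := h3
      exact ⟨i, by rw [inf_adj]; exact ⟨h, hi⟩⟩

/-- the degree -/
noncomputable def dg {V : Type} (F : SimpleGraph V) (v : V) : ℕ := (F.neighborSet v).ncard

open Classical in
/-- Adding an edge. -/
theorem add_one {V : Type} [Finite V] {F : SimpleGraph V} (hF : IsLF F) (x y : V)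
    (hx : dg F x ≤ 1) (hy : dg F y ≤ 1) (hr : ¬ F.Reachable x y) :
    IsLF (F ⊔ edge x y) ∧ ∀ v, dg (F ⊔ edge x y) v =
      dg F v + ((if v = x then 1 else 0) + (if v = y then 1 else 0)) := by
  have hxy : x ≠ y := by
    rintro rfl
    exact hr (Reachable.refl x)
  have hdg : ∀ v, dg (F ⊔ edge x y) v =
      dg F v + ((if v = x then 1 else 0) + (if v = y then 1 else 0)) := by
    intro v
    unfold dg
    by_cases h1 : v = x
    · subst h1
      rw [if_pos rfl, if_neg hxy]
      have hset : (F ⊔ edge v y).neighborSet v = insert y (F.neighborSet v) := by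
        ext w
        rw [mem_neighborSet, sup_adj, edge_adj, Set.mem_insert_iff, mem_neighborSet]
        constructor
        · rintro (h | ⟨⟨-, h⟩ | ⟨h, -⟩, -⟩)
          · exact Or.inr h
          · exact Or.inl h
          · exact absurd h hxy
        · rintro (rfl | h)
          · exact Or.inr ⟨Or.inl ⟨rfl, rfl⟩, hxy⟩
          · exact Or.inl h
      have hnot : y ∉ F.neighborSet v := fun h => hr (Adj.reachable h)
      rw [hset, Set.ncard_insert_of_notMem hnot (Set.toFinite _)]
    · by_cases h2 : v = y
      · subst h2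
        rw [if_neg h1, if_pos rfl]
        have hset : (F ⊔ edge x v).neighborSet v = insert x (F.neighborSet v) := by
          ext w
          rw [mem_neighborSet, sup_adj, edge_adj, Set.mem_insert_iff, mem_neighborSet]
          constructor
          · rintro (h | ⟨⟨h, -⟩ | ⟨-, h⟩, -⟩)
            · exact Or.inr h
            · exact absurd h h1
            · exact Or.inl h
          · rintro (rfl | h)
            · exact Or.inr ⟨Or.inr ⟨rfl, rfl⟩, h1⟩
            · exact Or.inl h
        have hnot : x ∉ F.neighborSet v := fun h => hr (Adj.reachable h).symm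
        rw [hset, Set.ncard_insert_of_notMem hnot (Set.toFinite _)]
      · rw [if_neg h1, if_neg h2]
        have hset : (F ⊔ edge x y).neighborSet v = F.neighborSet v := by
          ext w
          rw [mem_neighborSet, sup_adj, edge_adj, mem_neighborSet]
          constructor
          · rintro (h | ⟨⟨h, -⟩ | ⟨h, -⟩, -⟩)
            · exact h
            · exact absurd h h1
            · exact absurd h h2
          · exact Or.inl
        rw [hset]
        rfl
  refine ⟨⟨IsAcyclic.sup_edge_of_not_reachable hr hF.1, fun v => ?_⟩, hdg⟩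
  have h1 := hdg v
  unfold dg at h1 hx hy
  rw [h1]
  by_cases h2 : v = x
  · subst h2
    rw [if_pos rfl, if_neg hxy]
    omega
  · by_cases h3 : v = y
    · subst h3
      rw [if_neg h2, if_pos rfl]
      omega
    · rw [if_neg h2, if_neg h3]
      exact hF.2 v

/-- The number of the vertices of degree `i`. -/
noncomputable def cnt {V : Type} (F : SimpleGraph V) (i : ℕ) : ℕ := {v | dg F v = i}.ncard

/-- The sum of the degrees. -/
noncomputable def tot {V : Type} (F : SimpleGraph V) : ℕ := ∑ᶠ v, dg F v

/-- The numerical invariant. -/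
def Inv (M D n : ℕ) : Prop := n = 0 ∨ 4 * n + M ≤ 2 * D ∨ 4 * n + 3 * M ≤ 4 * D

theorem cnt_eq {V : Type} [Fintype V] (F : SimpleGraph V) (i : ℕ) :
    cnt F i = ∑ v, if dg F v = i then 1 else 0 := by
  classical
  unfold cnt
  rw [← card_filter, ← Set.ncard_coe_finset]
  congr 1
  ext v
  simp

theorem tot_eq {V : Type} [Fintype V] (F : SimpleGraph V) : tot F = ∑ v, dg F v :=
  finsum_eq_sum_of_fintype _

theorem sum_rel {V : Type} [Fintype V] {F : SimpleGraph V} (hF : IsLF F) :
    tot F + cnt F 0 = Fintype.card V + cnt F 2 ∧ tot F = cnt F 1 + 2 * cnt F 2 := by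
  rw [tot_eq, cnt_eq, cnt_eq, cnt_eq]
  have h : ∀ v, dg F v ≤ 2 := hF.2
  constructor
  · rw [← sum_add_distrib, ← card_univ, card_eq_sum_ones, ← sum_add_distrib]
    refine sum_congr rfl fun v _ => ?_
    have h1 := h v
    interval_cases (dg F v) <;> simp
  · rw [mul_sum, ← sum_add_distrib]
    refine sum_congr rfl fun v _ => ?_
    have h1 := h v
    interval_cases (dg F v) <;> simp

/-- A Hamiltonian cycle: the successor. -/
def HamG {V : Type} (C : SimpleGraph V) : Prop :=
  (∀ v, (C.neighborSet v).ncard ≤ 2) ∧ (∀ x y, C.Reachable x y) ∧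
    ∃ σ : Equiv.Perm V, ∀ v, C.Adj v (σ v) ∧ σ (σ v) ≠ v

theorem lf_delete {V : Type} [Finite V] {C : SimpleGraph V}
    (hdeg : ∀ v, (C.neighborSet v).ncard ≤ 2) (hconn : ∀ x y, C.Reachable x y) {x y : V}
    (hxy : C.Adj x y) : IsLF (C.deleteEdges {s(x, y)}) := by
  have hle : C.deleteEdges {s(x, y)} ≤ C := deleteEdges_le _
  refine ⟨?_, fun v => ?_⟩
  · intro v c hc
    have h1 := (closed_cycle hle hdeg hc x (hconn v x)).2.2 y hxy
    rw [deleteEdges_adj] at h1
    exact h1.2 rfl
  · exact (Set.ncard_le_ncard (fun w hw => hle hw) (Set.toFinite _)).trans (hdeg v)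

theorem inv_i {M D n n0 : ℕ} (h : Inv M D n) (_h0 : M < 2 * n0) : Inv M (D + 2) n := by
  unfold Inv at *
  omega

theorem inv_ii {M D n n0 n' : ℕ} (h : Inv M D n) (h0 : 2 * n0 ≤ M) (h1 : D + n0 = M + n)
    (h2 : D < M) (h3 : n' ≤ n + 1) : Inv M (D + 2) n' := by
  unfold Inv at *
  omega

theorem inv_iii {M D n n' : ℕ} (h : Inv M D n) (h2 : M ≤ D) (h3 : n' ≤ n + 2) :
    Inv M (D + 2) n' := by
  unfold Inv at *
  omega

theorem inv_cap {M D n : ℕ} (h : Inv M D n) (h2 : M ≤ D) (h3 : 6 * D < 7 * M) :
    D + 2 * n < 2 * M := by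
  unfold Inv at *
  omega

open Classical in
theorem step {V : Type} [Fintype V] {F C : SimpleGraph V} (hF : IsLF F) (hC : HamG C)
    (hI : Inv (Fintype.card V) (tot F) (cnt F 2)) (hD : 6 * tot F < 7 * Fintype.card V) :
    ∃ x y, C.Adj x y ∧ IsLF (F ⊔ edge x y) ∧ tot (F ⊔ edge x y) = tot F + 2 ∧
      Inv (Fintype.card V) (tot F + 2) (cnt (F ⊔ edge x y) 2) := by
  obtain ⟨-, -, σ, hσ⟩ := hC
  obtain ⟨r1, r2⟩ := sum_rel hF
  -- the number of vertices of degree two of the larger graph
  have htot : ∀ x y, (∀ v, dg (F ⊔ edge x y) v =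
      dg F v + ((if v = x then 1 else 0) + (if v = y then 1 else 0))) →
      tot (F ⊔ edge x y) = tot F + 2 := by
    intro x y h
    rw [tot_eq, tot_eq, sum_congr rfl fun v _ => h v, sum_add_distrib, sum_add_distrib]
    simp
  have hcnt : ∀ x y, (∀ v, dg (F ⊔ edge x y) v =
      dg F v + ((if v = x then 1 else 0) + (if v = y then 1 else 0))) → x ≠ y →
      cnt (F ⊔ edge x y) 2 ≤ cnt F 2 + ((if dg F x = 1 then 1 else 0) +
        (if dg F y = 1 then 1 else 0)) := by
    intro x y h hxy
    have h1 : {v | dg (F ⊔ edge x y) v = 2} ⊆ {v | dg F v = 2} ∪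
        ({v | v = x ∧ dg F x = 1} ∪ {v | v = y ∧ dg F y = 1}) := by
      intro v hv
      rw [Set.mem_ofPred_eq, h] at hv
      by_cases h1 : v = x
      · subst h1
        rw [if_pos rfl, if_neg hxy] at hv
        exact Or.inr (Or.inl ⟨rfl, by omega⟩)
      · by_cases h2 : v = y
        · subst h2
          rw [if_neg h1, if_pos rfl] at hv
          exact Or.inr (Or.inr ⟨rfl, by omega⟩)
        · rw [if_neg h1, if_neg h2] at hv
          exact Or.inl (by simpa using hv)
    have h2 := Set.ncard_le_ncard h1 (Set.toFinite _)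
    have h3 := Set.ncard_union_le {v | dg F v = 2}
      ({v | v = x ∧ dg F x = 1} ∪ {v | v = y ∧ dg F y = 1})
    have h4 := Set.ncard_union_le {v | v = x ∧ dg F x = 1} {v | v = y ∧ dg F y = 1}
    have h5 : ∀ z, {v | v = z ∧ dg F z = 1}.ncard ≤ if dg F z = 1 then 1 else 0 := by
      intro z
      split_ifs with h
      · have : {v | v = z ∧ dg F z = 1} = {z} := by
          ext v
          simp [h]
        rw [this, Set.ncard_singleton]
      · have : {v | v = z ∧ dg F z = 1} = ∅ := by
          ext v
          simp [h]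
        rw [this, Set.ncard_empty]
    have h6 := h5 x
    have h7 := h5 y
    unfold cnt
    omega
  have hne : ∀ v, v ≠ σ v := fun v => (hσ v).1.ne
  have hiso : ∀ x y, dg F x = 0 → x ≠ y → ¬ F.Reachable x y := by
    intro x y hx hxy hr
    exact hxy (eq_of_deg_zero F x y hx hr)
  have hcard : ∀ A : Set V, (σ '' A).ncard = A.ncard := fun A =>
    Set.ncard_image_of_injective A σ.injective
  by_cases c1 : Fintype.card V < 2 * cnt F 0
  · -- two isolated vertices
    have hex : ∃ v, dg F v = 0 ∧ dg F (σ v) = 0 := by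
      by_contra hcon
      push Not at hcon
      have hdis : Disjoint (σ '' {v | dg F v = 0}) {v | dg F v = 0} := by
        rw [Set.disjoint_left]
        rintro _ ⟨v, hv, rfl⟩ h
        exact hcon v hv h
      have h1 := Set.ncard_union_eq hdis (Set.toFinite _) (Set.toFinite _)
      rw [hcard] at h1
      have h2 := Set.ncard_le_ncard (Set.subset_univ (σ '' {v | dg F v = 0} ∪ {v | dg F v = 0}))
        (Set.toFinite _)
      rw [Set.ncard_univ, Nat.card_eq_fintype_card, h1] at h2
      unfold cnt at c1
      omega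
    obtain ⟨v, hv1, hv2⟩ := hex
    obtain ⟨h1, h2⟩ := add_one hF v (σ v) (by omega) (by omega) (hiso v (σ v) hv1 (hne v))
    have h3 := hcnt v (σ v) h2 (hne v)
    rw [hv1, hv2] at h3
    refine ⟨v, σ v, (hσ v).1, h1, htot v (σ v) h2, ?_⟩
    have h4 : cnt (F ⊔ edge v (σ v)) 2 ≤ cnt F 2 := by simpa using h3
    have h5 := inv_i hI c1
    unfold Inv at h5 ⊢
    omega
  · by_cases c2 : tot F < Fintype.card V
    · have hex : ∃ v, dg F v = 0 ∧ dg F (σ v) ≤ 1 := by
        by_contra hcon
        push Not at hcon
        have hsub : σ '' {v | dg F v = 0} ⊆ {v | dg F v = 2} := by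
          rintro _ ⟨v, hv, rfl⟩
          have h1 := hcon v hv
          have h2 : dg F (σ v) ≤ 2 := hF.2 _
          show dg F (σ v) = 2
          omega
        have h1 := Set.ncard_le_ncard hsub (Set.toFinite _)
        rw [hcard] at h1
        unfold cnt at r1
        omega
      obtain ⟨v, hv1, hv2⟩ := hex
      obtain ⟨h1, h2⟩ := add_one hF v (σ v) (by omega) hv2 (hiso v (σ v) hv1 (hne v))
      have h3 := hcnt v (σ v) h2 (hne v)
      rw [hv1, if_neg (by norm_num : ¬ (0 = 1))] at h3
      refine ⟨v, σ v, (hσ v).1, h1, htot v (σ v) h2, ?_⟩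
      refine inv_ii hI (not_lt.1 c1) r1 c2 (h3.trans ?_)
      split_ifs <;> omega
    · have hcap := inv_cap hI (not_lt.1 c2) hD
      have hex : ∃ v, dg F v ≤ 1 ∧ dg F (σ v) ≤ 1 ∧ ¬ F.Reachable v (σ v) := by
        by_contra hcon
        push Not at hcon
        obtain ⟨K, hK⟩ : ∃ K : Set V, K = {v | dg F v ≤ 1 ∧ dg F (σ v) ≤ 1} := ⟨_, rfl⟩
        have hpos : ∀ x y, x ≠ y → F.Reachable x y → dg F x ≠ 0 := by
          intro x y hxy hr h0
          exact hiso x y h0 hxy hr
        have hdis : Disjoint K (σ '' K) := by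
          rw [Set.disjoint_left]
          rintro _ hv ⟨v, hv', rfl⟩
          rw [hK] at hv hv'
          refine three_ends F hF v (σ v) (σ (σ v)) (hne v) (Ne.symm (hσ v).2) (hne (σ v)) hv'.1
            hv'.2 hv.2 (hcon v hv'.1 hv'.2) ((hcon v hv'.1 hv'.2).trans (hcon _ hv.1 hv.2))
        have hsub : K ∪ σ '' K ⊆ {v | dg F v = 1} := by
          rintro v (hv | ⟨v, hv, rfl⟩)
          · rw [hK] at hv
            have h1 := hpos v (σ v) (hne v) (hcon v hv.1 hv.2)
            have h2 := hv.1
            show dg F v = 1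
            omega
          · rw [hK] at hv
            have h1 := hpos (σ v) v (hne v).symm (hcon v hv.1 hv.2).symm
            have h2 := hv.2
            show dg F (σ v) = 1
            omega
        have h1 := Set.ncard_le_ncard hsub (Set.toFinite _)
        rw [Set.ncard_union_eq hdis (Set.toFinite _) (Set.toFinite _), hcard] at h1
        have hall : (Set.univ : Set V) ⊆ K ∪ ({v | dg F v = 2} ∪ σ.symm '' {v | dg F v = 2}) := by
          intro v _
          by_cases h2 : dg F v ≤ 1
          · by_cases h3 : dg F (σ v) ≤ 1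
            · left
              rw [hK]
              exact ⟨h2, h3⟩
            · right; right
              refine ⟨σ v, ?_, by simp⟩
              have h4 : dg F (σ v) ≤ 2 := hF.2 _
              show dg F (σ v) = 2
              omega
          · right; left
            have h4 : dg F v ≤ 2 := hF.2 _
            show dg F v = 2
            omega
        have h2 := Set.ncard_le_ncard hall (Set.toFinite _)
        rw [Set.ncard_univ, Nat.card_eq_fintype_card] at h2
        have h3 := Set.ncard_union_le K ({v | dg F v = 2} ∪ σ.symm '' {v | dg F v = 2})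
        have h4 := Set.ncard_union_le {v | dg F v = 2} (σ.symm '' {v | dg F v = 2})
        rw [Set.ncard_image_of_injective _ σ.symm.injective] at h4
        unfold cnt at r2 hcap
        omega
      obtain ⟨v, hv1, hv2, hv3⟩ := hex
      obtain ⟨h1, h2⟩ := add_one hF v (σ v) hv1 hv2 hv3
      have h3 := hcnt v (σ v) h2 (hne v)
      refine ⟨v, σ v, (hσ v).1, h1, htot v (σ v) h2, ?_⟩
      refine inv_iii hI (not_lt.1 c2) (h3.trans ?_)
      split_ifs <;> omega

end Pool.Agent.U460.LA
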