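import Pool.Agent.U460.LA.Chain
import Pool.Agent.U460.LA.Elem

/-!
# Partitions into independent sets with nested spans
-/

set_option autoImplicit false

namespace Pool.Agent.U460.LA

open SimpleGraph H931R3.LA Finset Module
open Pool.Agent.W111.LAR Pool.Agent.TH486.LAC
open Pool.Agent.K3h88.Erde (IsHC DecN torE)

/-- A partition maximising the sum of the squares of the sizes has nested spans. -/
theorem exists_nested {K V : Type} [Field K] [AddCommGroup V] [Module K V] [Finite V]
    [FiniteDimensional K V] [DecidableEq V] (T : Finset V) {l : ℕ} (hl : 0 < l)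
    (h : ∀ A ⊆ T, A.card ≤ l * finrank K ↥(Submodule.span K (A : Set V))) :
    ∃ c : V → Fin l, (∀ j, Ind K (T.filter (fun x => c x = j))) ∧
      ∀ i j, (T.filter (fun x => c x = j)).card ≤ (T.filter (fun x => c x = i)).card →
        ∀ x ∈ T.filter (fun x => c x = j),
          x ∈ Submodule.span K ((T.filter (fun x => c x = i) : Finset V) : Set V) := by
  classical
  obtain ⟨c0, hc0, -⟩ := equitable (K := K) hl h
  obtain ⟨c, hc, hmax⟩ := Set.exists_max_image
    {c : V → Fin l | ∀ j, Ind K (T.filter (fun x => c x = j))}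
    (fun c => ∑ j, (T.filter (fun x => c x = j)).card ^ 2) (Set.toFinite _) ⟨c0, hc0⟩
  refine ⟨c, hc, ?_⟩
  intro i j hij x hx
  by_contra hnot
  have hij' : i ≠ j := by
    rintro rfl
    exact hnot (Submodule.subset_span hx)
  obtain ⟨hxT, hxj⟩ := mem_filter.1 hx
  obtain ⟨c', hc'⟩ : ∃ c', c' = Function.update c x i := ⟨_, rfl⟩
  have e1 : ∀ y, y ≠ x → c' y = c y := fun y hy => by
    rw [hc', Function.update_of_ne hy]
  have e2 : c' x = i := by rw [hc', Function.update_self]
  have hi : T.filter (fun y => c' y = i) = insert x (T.filter (fun y => c y = i)) := by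
    ext y
    rw [mem_filter, mem_insert, mem_filter]
    by_cases hy : y = x
    · subst hy
      simp [hxT, e2]
    · rw [e1 y hy]
      simp [hy]
  have hj : T.filter (fun y => c' y = j) = (T.filter (fun y => c y = j)).erase x := by
    ext y
    rw [mem_filter, mem_erase, mem_filter]
    by_cases hy : y = x
    · subst hy
      simp [e2, hij']
    · rw [e1 y hy]
      simp [hy]
  have hk : ∀ k, k ≠ i → k ≠ j → T.filter (fun y => c' y = k) = T.filter (fun y => c y = k) := by
    intro k hki hkj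
    ext y
    rw [mem_filter, mem_filter]
    by_cases hy : y = x
    · subst hy
      rw [e2, hxj]
      simp [hki.symm, hkj.symm]
    · rw [e1 y hy]
  have hmem : c' ∈ {c : V → Fin l | ∀ j, Ind K (T.filter (fun x => c x = j))} := by
    intro k
    by_cases hki : k = i
    · rw [hki, hi]
      exact (hc i).insert hnot
    · by_cases hkj : k = j
      · rw [hkj, hj]
        exact (hc j).erase hx
      · rw [hk k hki hkj]
        exact hc k
  have h1 := hmax c' hmem
  have hxi : x ∉ T.filter (fun y => c y = i) := by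
    intro h2
    exact hnot (Submodule.subset_span h2)
  rw [← add_sum_erase univ _ (mem_univ i), ← add_sum_erase (univ.erase i) _
      (mem_erase.2 ⟨hij'.symm, mem_univ j⟩)] at h1
  rw [← add_sum_erase univ (fun k => (T.filter (fun x => c x = k)).card ^ 2) (mem_univ i),
    ← add_sum_erase (univ.erase i) (fun k => (T.filter (fun x => c x = k)).card ^ 2)
      (mem_erase.2 ⟨hij'.symm, mem_univ j⟩)] at h1
  have h2 : ∑ k ∈ (univ.erase i).erase j, (T.filter (fun y => c' y = k)).card ^ 2 =
      ∑ k ∈ (univ.erase i).erase j, (T.filter (fun y => c y = k)).card ^ 2 := by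
    refine sum_congr rfl fun k hk' => ?_
    rw [mem_erase, mem_erase] at hk'
    rw [hk k hk'.2.1 hk'.1]
  rw [h2, hi, hj, card_insert_of_notMem hxi, card_erase_of_mem hx] at h1
  have hpos : 0 < (T.filter (fun y => c y = j)).card := card_pos.2 ⟨x, hx⟩
  obtain ⟨m, hm⟩ : ∃ m, (T.filter (fun y => c y = j)).card = m + 1 :=
    ⟨(T.filter (fun y => c y = j)).card - 1, by omega⟩
  rw [hm] at h1 hij
  rw [Nat.add_sub_cancel] at h1
  nlinarith

/-- Sorting the blocks. -/
theorem exists_sorted {V : Type} {l : ℕ} (B : Fin l → Finset V) :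
    ∃ σ : Equiv.Perm (Fin l), ∀ i j, i ≤ j → (B (σ j)).card ≤ (B (σ i)).card := by
  obtain ⟨m, hm⟩ : ∃ m, ∀ j, (B j).card ≤ m := ⟨∑ j, (B j).card, fun j =>
    single_le_sum (f := fun j => (B j).card) (fun _ _ => Nat.zero_le _) (mem_univ j)⟩
  refine ⟨Tuple.sort (fun j => m - (B j).card), fun i j hij => ?_⟩
  have h1 := Tuple.monotone_sort (fun j => m - (B j).card) hij
  have h2 := hm (Tuple.sort (fun j => m - (B j).card) i)
  have h3 := hm (Tuple.sort (fun j => m - (B j).card) j)
  simp only [Function.comp_apply] at h1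
  omega

theorem sq_le_pow (p : ℕ) (hp : 4 ≤ p) (s : ℕ) (hs : 1 ≤ s) : s ^ 2 * p ≤ p ^ s := by
  induction s, hs using Nat.le_induction with
  | base => simp
  | succ s hs ih =>
    have h1 : (s + 1) ^ 2 ≤ 4 * s ^ 2 := by nlinarith
    calc (s + 1) ^ 2 * p ≤ 4 * s ^ 2 * p := Nat.mul_le_mul_right p h1
      _ = 4 * (s ^ 2 * p) := by ring
      _ ≤ p * p ^ s := Nat.mul_le_mul hp ih
      _ = p ^ (s + 1) := by ring

/-- The load of a nested partition. -/
theorem lam_le (p : ℕ) (hp : 4 ≤ p) {l : ℕ} (b m : Fin l → ℕ) {a N : ℕ} (ha : 1 ≤ a)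
    (hN1 : (l - 1) * a < N) (hN2 : 2 * N + 1 ≤ p ^ a) (hma : ∀ j, m j ≤ a) (hmb : ∀ j, m j ≤ b j)
    (hms : ∑ j, m j = N) :
    ∑ j, (b j : ℝ) / (p : ℝ) ^ b j ≤ 1 / 2 + 1 / p := by
  have hl : 0 < l := by
    rcases Nat.eq_zero_or_pos l with h | h
    · subst h
      simp at hms
      omega
    · exact h
  have hg : ∀ x y : ℕ, 1 ≤ x → x ≤ y → (y : ℝ) / (p : ℝ) ^ y ≤ (x : ℝ) / (p : ℝ) ^ x := by
    intro x y hx hxy
    have h1 := f_anti p (by omega) hx hxy
    rw [mul_div_assoc, mul_div_assoc] at h1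
    linarith
  have hp0 : (0 : ℝ) < p := by
    have : 0 < p := by omega
    exact_mod_cast this
  have hla : l * a = (l - 1) * a + a := by
    obtain ⟨l', rfl⟩ : ∃ l', l = l' + 1 := ⟨l - 1, by omega⟩
    rw [Nat.add_sub_cancel]
    ring
  have hdef : ∑ j, (a - m j) + N = l * a := by
    rw [← hms, ← sum_add_distrib]
    rw [sum_congr rfl fun j _ => Nat.sub_add_cancel (hma j)]
    simp
  obtain ⟨R, hR⟩ : ∃ R : Finset (Fin l), R = univ.filter (fun j => b j < a) := ⟨_, rfl⟩
  have hsplit : ∑ j, (b j : ℝ) / (p : ℝ) ^ b j = ∑ j ∈ R, (b j : ℝ) / (p : ℝ) ^ b j +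
      ∑ j ∈ univ.filter (fun j => ¬ b j < a), (b j : ℝ) / (p : ℝ) ^ b j := by
    rw [hR, sum_filter_add_sum_filter_not]
  have hcardR : R.card + (univ.filter (fun j : Fin l => ¬ b j < a)).card = l := by
    rw [hR, card_filter_add_card_filter_not]
    simp
  have hbig : ∑ j ∈ univ.filter (fun j => ¬ b j < a), (b j : ℝ) / (p : ℝ) ^ b j ≤
      ((l - R.card : ℕ) : ℝ) * ((a : ℝ) / (p : ℝ) ^ a) := by
    have h1 : ∀ j ∈ univ.filter (fun j => ¬ b j < a), (b j : ℝ) / (p : ℝ) ^ b j ≤
        (a : ℝ) / (p : ℝ) ^ a := by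
      intro j hj
      exact hg a (b j) ha (not_lt.1 (mem_filter.1 hj).2)
    refine (sum_le_sum h1).trans (le_of_eq ?_)
    rw [sum_const, nsmul_eq_mul]
    congr 2
    omega
  have hpa : (0 : ℝ) < (p : ℝ) ^ a := by positivity
  have hN2' : (2 : ℝ) * N + 1 ≤ (p : ℝ) ^ a := by exact_mod_cast hN2
  rcases Nat.eq_zero_or_pos R.card with hR0 | hR0
  · have h1 : R = ∅ := card_eq_zero.1 hR0
    rw [hsplit, h1, sum_empty, zero_add]
    refine hbig.trans ?_
    rw [h1, card_empty, Nat.sub_zero, ← mul_div_assoc, div_add_div _ _ (by norm_num) hp0.ne',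
      div_le_div_iff₀ hpa (by positivity)]
    have h2 : (l : ℝ) * a + 1 ≤ N + a := by
      have : l * a + 1 ≤ N + a := by omega
      exact_mod_cast this
    have h3 : ((a : ℝ) - 1) * p ≤ (p : ℝ) ^ a := by
      have h4 : a ≤ p ^ (a - 1) := by
        have h5 : a - 1 < p ^ (a - 1) := Nat.lt_pow_self (by omega)
        omega
      have h5 : a * p ≤ p ^ a := by
        calc a * p ≤ p ^ (a - 1) * p := Nat.mul_le_mul_right p h4
          _ = p ^ a := by
            rw [← pow_succ]
            congr 1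
            omega
      have h6 : (a : ℝ) * p ≤ (p : ℝ) ^ a := by exact_mod_cast h5
      nlinarith
    nlinarith
  · -- the small blocks
    have hsm : ∀ j ∈ R, R.card ≤ b j := by
      intro j hj
      have h1 : ∑ k ∈ R, (a - b k) ≤ a - 1 := by
        calc ∑ k ∈ R, (a - b k) ≤ ∑ k ∈ R, (a - m k) :=
              sum_le_sum fun k _ => Nat.sub_le_sub_left (hmb k) a
          _ ≤ ∑ k, (a - m k) := sum_le_sum_of_subset (subset_univ R)
          _ ≤ a - 1 := by omega
      have h2 : ∀ k ∈ R, b k < a := fun k hk => by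
        rw [hR] at hk
        exact (mem_filter.1 hk).2
      rw [← add_sum_erase R _ hj] at h1
      have h3 : (R.erase j).card ≤ ∑ k ∈ R.erase j, (a - b k) := by
        rw [card_eq_sum_ones]
        refine sum_le_sum fun k hk => ?_
        have := h2 k (mem_erase.1 hk).2
        omega
      rw [card_erase_of_mem hj] at h3
      have := h2 j hj
      omega
    have h1 : ∑ j ∈ R, (b j : ℝ) / (p : ℝ) ^ b j ≤ 1 / p := by
      have h2 : ∀ j ∈ R, (b j : ℝ) / (p : ℝ) ^ b j ≤ (R.card : ℝ) / (p : ℝ) ^ R.card :=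
        fun j hj => hg _ _ hR0 (hsm j hj)
      refine (sum_le_sum h2).trans ?_
      rw [sum_const, nsmul_eq_mul, ← mul_div_assoc, div_le_div_iff₀ (by positivity) hp0]
      have h3 := sq_le_pow p hp R.card hR0
      have h4 : ((R.card ^ 2 * p : ℕ) : ℝ) ≤ ((p ^ R.card : ℕ) : ℝ) := by exact_mod_cast h3
      push_cast at h4
      linarith
    have h2 : ((l - R.card : ℕ) : ℝ) * ((a : ℝ) / (p : ℝ) ^ a) ≤ 1 / 2 := by
      rw [← mul_div_assoc, div_le_div_iff₀ hpa (by norm_num)]
      have h3 : (l - R.card) * a ≤ (l - 1) * a := Nat.mul_le_mul_right a (by omega)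
      have h4 : (((l - R.card) * a : ℕ) : ℝ) ≤ (N : ℝ) := by
        exact_mod_cast h3.trans hN1.le
      push_cast at h4
      linarith
    rw [hsplit]
    linarith

/-- The independent sets of a finite subset of a subspace are small. -/
theorem ind_card_le {K V : Type} [Field K] [AddCommGroup V] [Module K V]
    [FiniteDimensional K V] {A B : Finset V} (hB : Ind K B)
    (hBA : ∀ x ∈ B, x ∈ Submodule.span K (A : Set V)) :
    B.card ≤ finrank K ↥(Submodule.span K (A : Set V)) := by
  unfold Ind at hB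
  rw [← hB]
  exact Submodule.finrank_mono (Submodule.span_le.2 hBA)

theorem Ind.anti {K V : Type} [Field K] [AddCommGroup V] [Module K V] [FiniteDimensional K V]
    [DecidableEq V] {Y : Finset V} (h : Ind K Y) : ∀ Z ⊆ Y, Ind K Z := by
  intro Z hZ
  obtain ⟨n, hn⟩ : ∃ n, n = (Y \ Z).card := ⟨_, rfl⟩
  induction n generalizing Y with
  | zero =>
    have h1 : Y \ Z = ∅ := card_eq_zero.1 hn.symm
    have h2 : Y = Z := subset_antisymm (sdiff_eq_empty_iff_subset.1 h1) hZ
    rwa [← h2]
  | succ n ih =>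
    obtain ⟨x, hx⟩ : (Y \ Z).Nonempty := by
      rw [← card_pos]
      omega
    obtain ⟨hxY, hxZ⟩ := mem_sdiff.1 hx
    refine ih (h.erase hxY) (fun y hy => mem_erase.2 ⟨fun h1 => hxZ (h1 ▸ hy), hZ hy⟩) ?_
    have h1 : (Y.erase x) \ Z = (Y \ Z).erase x := by
      ext y
      simp only [mem_sdiff, mem_erase]
      tauto
    rw [h1, card_erase_of_mem hx]
    omega

end Pool.Agent.U460.LA
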