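import Pool.Agent.U460.LA.Greedy
import Pool.Agent.U460.LA.Block
import Pool.Agent.K3h34.Erde.K0

/-!
# Structures: a cover by linear forests with a sparse last forest
-/

set_option autoImplicit false

namespace Pool.Agent.U460.LA

open SimpleGraph H931R3.LA Finset
open Pool.Agent.W111.LAR Pool.Agent.TH486.LAC

/-- `G` is covered by `k` linear forests and one more linear forest with `c |V|` edges and few
vertices of degree two. -/
def St {V : Type} (G : SimpleGraph V) (k : ℕ) (c : ℝ) : Prop :=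
  ∃ (L : Fin k → SimpleGraph V) (F : SimpleGraph V), (∀ i, IsLF (L i)) ∧ IsLF F ∧
    G ≤ (⨆ i, L i) ⊔ F ∧ (tot F : ℝ) = 2 * c * Nat.card V ∧ Inv (Nat.card V) (tot F) (cnt F 2)

theorem dg_bot {V : Type} (v : V) : dg (⊥ : SimpleGraph V) v = 0 := by
  unfold dg
  have : (⊥ : SimpleGraph V).neighborSet v = ∅ := by
    ext w
    simp
  rw [this, Set.ncard_empty]

theorem st_bot {V : Type} [Finite V] : St (⊥ : SimpleGraph V) 0 0 := by
  have := Fintype.ofFinite V
  refine ⟨fun _ => ⊥, ⊥, fun i => i.elim0, isLF_bot, bot_le, ?_, Or.inl ?_⟩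
  · rw [tot_eq]
    simp [dg_bot]
  · rw [cnt_eq]
    simp [dg_bot]

theorem St.cov {V : Type} [Finite V] {G : SimpleGraph V} {k : ℕ} {c : ℝ} (h : St G k c) :
    Cov G (k + 1) := by
  obtain ⟨L, F, hL, hF, hG, -, -⟩ := h
  have h1 := cov_of_type (τ := Option (Fin k)) (G := G)
    (fun t => match t with
      | none => F ⊓ G
      | some i => L i ⊓ G) (by
      rintro (_ | i)
      · exact hF.anti inf_le_left
      · exact (hL i).anti inf_le_left) (by
      ext a b
      rw [iSup_adj]
      constructor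
      · rintro ⟨_ | i, hi⟩
        · exact hi.2
        · exact hi.2
      · intro h
        have h2 := hG h
        rw [sup_adj, iSup_adj] at h2
        rcases h2 with ⟨i, hi⟩ | h2
        · exact ⟨some i, hi, h⟩
        · exact ⟨none, h2, h⟩)
  simpa [Nat.card_eq_fintype_card] using h1

theorem St.add {V : Type} [Finite V] [Nonempty V] {G C : SimpleGraph V} {k : ℕ} {c : ℝ}
    (h : St G k c) (hC : HamG C) (hc : 12 * c < 7) :
    St (G ⊔ C) (k + 1) (c + 1 / Nat.card V) := by
  classical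
  have := Fintype.ofFinite V
  obtain ⟨L, F, hL, hF, hG, htot, hI⟩ := h
  have hcard : Nat.card V = Fintype.card V := Nat.card_eq_fintype_card
  have hpos : (0 : ℝ) < Nat.card V := by
    exact_mod_cast Nat.card_pos
  have hD : 6 * tot F < 7 * Fintype.card V := by
    have h1 : ((6 * tot F : ℕ) : ℝ) < ((7 * Nat.card V : ℕ) : ℝ) := by
      push_cast
      rw [htot]
      nlinarith
    rw [← hcard]
    exact_mod_cast h1
  rw [hcard] at hI
  obtain ⟨x, y, hxy, h1, h2, h3⟩ := step hF hC hI hD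
  refine ⟨Fin.cons (C.deleteEdges {s(x, y)}) L, F ⊔ edge x y, ?_, h1, ?_, ?_, ?_⟩
  · intro i
    refine Fin.cases ?_ (fun i => ?_) i
    · exact lf_delete hC.1 hC.2.1 hxy
    · exact hL i
  · intro a b hab
    rw [sup_adj] at hab
    rw [sup_adj, iSup_adj, sup_adj]
    rcases hab with hab | hab
    · have h4 := hG hab
      rw [sup_adj, iSup_adj] at h4
      rcases h4 with ⟨i, hi⟩ | h4
      · exact Or.inl ⟨i.succ, hi⟩
      · exact Or.inr (Or.inl h4)
    · by_cases h4 : s(a, b) = s(x, y)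
      · right; right
        rw [edge_adj]
        rcases Sym2.eq_iff.1 h4 with ⟨rfl, rfl⟩ | ⟨rfl, rfl⟩
        · exact ⟨Or.inl ⟨rfl, rfl⟩, hab.ne⟩
        · exact ⟨Or.inr ⟨rfl, rfl⟩, hab.ne⟩
      · left
        refine ⟨0, ?_⟩
        show (C.deleteEdges {s(x, y)}).Adj a b
        rw [deleteEdges_adj]
        exact ⟨hab, h4⟩
  · rw [h2]
    push_cast
    rw [htot]
    field_simp
  · rw [hcard, h2]
    exact h3

theorem St.mono {V : Type} {G G' : SimpleGraph V} {k : ℕ} {c : ℝ} (h : St G k c) (hle : G' ≤ G) :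
    St G' k c := by
  obtain ⟨L, F, hL, hF, hG, h1, h2⟩ := h
  exact ⟨L, F, hL, hF, hle.trans hG, h1, h2⟩

theorem St.add_many {V : Type} [Finite V] [Nonempty V] {G : SimpleGraph V} {k : ℕ} {c : ℝ}
    (h : St G k c) : ∀ (m : ℕ) (C : Fin m → SimpleGraph V), (∀ i, HamG (C i)) →
      c + (m : ℝ) / Nat.card V ≤ 7 / 12 → St (G ⊔ ⨆ i, C i) (k + m) (c + (m : ℝ) / Nat.card V) := by
  have hpos : (0 : ℝ) < Nat.card V := by
    exact_mod_cast Nat.card_pos
  intro m
  induction m with
  | zero =>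
    intro C _ _
    have h1 : c + ((0 : ℕ) : ℝ) / Nat.card V = c := by simp
    rw [h1]
    refine h.mono ?_
    intro a b hab
    rw [sup_adj, iSup_adj] at hab
    rcases hab with hab | ⟨i, -⟩
    · exact hab
    · exact i.elim0
  | succ m ih =>
    intro C hC hc
    push_cast at hc
    rw [add_div] at hc
    have h0 : (0 : ℝ) < 1 / Nat.card V := by positivity
    have h1 := ih (fun i => C i.castSucc) (fun i => hC _) (by linarith)
    have h2 := h1.add (hC (Fin.last m)) (by linarith)
    have e1 : c + (m : ℝ) / Nat.card V + 1 / Nat.card V = c + ((m + 1 : ℕ) : ℝ) / Nat.card V := by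
      push_cast
      ring
    rw [e1, add_assoc] at h2
    refine h2.mono ?_
    intro a b hab
    rw [sup_adj, iSup_adj] at hab
    rw [sup_adj, sup_adj, iSup_adj]
    rcases hab with hab | ⟨i, hi⟩
    · exact Or.inl (Or.inl hab)
    · induction i using Fin.lastCases with
      | last => exact Or.inr hi
      | cast i => exact Or.inl (Or.inr ⟨i, hi⟩)

/-- The graph of the copies. -/
def pull {V Z A : Type} (q : V → Z) (r : V → A)
    (hi : ∀ v w, q v = q w → r v = r w → v = w) (P : SimpleGraph A) : SimpleGraph V where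
  Adj v w := q v = q w ∧ P.Adj (r v) (r w)
  symm := ⟨fun _ _ h => ⟨h.1.symm, h.2.symm⟩⟩
  loopless := ⟨fun _ h => P.loopless.irrefl _ h.2⟩

theorem pull_lf {V Z A : Type} [Finite V] [Finite A] (q : V → Z) (r : V → A)
    (hi : ∀ v w, q v = q w → r v = r w → v = w) {P : SimpleGraph A} (hP : IsLF P) :
    IsLF (pull q r hi P) := by
  refine isLF_pull hP _ r (fun a b h => h.2) (fun a b b' h h' he => ?_)
  exact hi b b' (h.1.symm.trans h'.1) he

theorem pull_dg {V Z A : Type} (q : V → Z) (r : V → A)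
    (hi : ∀ v w, q v = q w → r v = r w → v = w) (hs : ∀ z a, ∃ v, q v = z ∧ r v = a)
    (P : SimpleGraph A) (v : V) : dg (pull q r hi P) v = dg P (r v) := by
  unfold dg
  have h1 : r '' (pull q r hi P).neighborSet v = P.neighborSet (r v) := by
    ext a
    constructor
    · rintro ⟨w, hw, rfl⟩
      exact hw.2
    · intro ha
      obtain ⟨w, hw1, hw2⟩ := hs (q v) a
      refine ⟨w, ⟨hw1.symm, ?_⟩, hw2⟩
      rw [hw2]
      exact ha
  have h2 : Set.InjOn r ((pull q r hi P).neighborSet v) := by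
    intro w hw w' hw' he
    exact hi w w' (hw.1.symm.trans hw'.1) he
  rw [← h1, h2.ncard_image]

theorem Inv.mul {M D n : ℕ} (h : Inv M D n) (z : ℕ) : Inv (z * M) (z * D) (z * n) := by
  rcases h with h | h | h
  · left
    rw [h, mul_zero]
  · right; left
    calc 4 * (z * n) + z * M = z * (4 * n + M) := by ring
      _ ≤ z * (2 * D) := Nat.mul_le_mul_left _ h
      _ = 2 * (z * D) := by ring
  · right; right
    calc 4 * (z * n) + 3 * (z * M) = z * (4 * n + 3 * M) := by ring
      _ ≤ z * (4 * D) := Nat.mul_le_mul_left _ h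
      _ = 4 * (z * D) := by ring

theorem St.copy {V Z A : Type} [Finite V] [Finite Z] [Finite A] (q : V → Z) (r : V → A)
    (hi : ∀ v w, q v = q w → r v = r w → v = w) (hs : ∀ z a, ∃ v, q v = z ∧ r v = a)
    {G : SimpleGraph A} {k : ℕ} {c : ℝ} (h : St G k c) (G' : SimpleGraph V)
    (hG' : ∀ v w, G'.Adj v w → q v = q w ∧ G.Adj (r v) (r w)) : St G' k c := by
  classical
  have := Fintype.ofFinite V
  have := Fintype.ofFinite Z
  have := Fintype.ofFinite A
  obtain ⟨L, F, hL, hF, hG, htot, hI⟩ := h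
  have hbij : Function.Bijective (fun v => (q v, r v)) := by
    constructor
    · intro v w h
      exact hi v w (congrArg Prod.fst h) (congrArg Prod.snd h)
    · rintro ⟨z, a⟩
      obtain ⟨v, h1, h2⟩ := hs z a
      exact ⟨v, by simp [h1, h2]⟩
  have hsum : ∀ f : A → ℕ, ∑ v, f (r v) = Nat.card Z * ∑ a, f a := by
    intro f
    rw [hbij.sum_comp (fun p : Z × A => f p.2), Fintype.sum_prod_type]
    simp only [sum_const, card_univ, smul_eq_mul, Nat.card_eq_fintype_card]
  have hcV : Nat.card V = Nat.card Z * Nat.card A := by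
    rw [Nat.card_congr (Equiv.ofBijective _ hbij), Nat.card_prod]
  have ht : tot (pull q r hi F) = Nat.card Z * tot F := by
    rw [tot_eq, tot_eq, ← hsum]
    exact sum_congr rfl fun v _ => pull_dg q r hi hs F v
  have hn : cnt (pull q r hi F) 2 = Nat.card Z * cnt F 2 := by
    rw [cnt_eq, cnt_eq, ← hsum]
    exact sum_congr rfl fun v _ => by rw [pull_dg q r hi hs F v]
  refine ⟨fun i => pull q r hi (L i), pull q r hi F, fun i => pull_lf q r hi (hL i),
    pull_lf q r hi hF, ?_, ?_, ?_⟩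
  · intro v w hvw
    obtain ⟨h1, h2⟩ := hG' v w hvw
    have h3 := hG h2
    rw [sup_adj, iSup_adj] at h3 ⊢
    rcases h3 with ⟨i, hi⟩ | h3
    · exact Or.inl ⟨i, h1, hi⟩
    · exact Or.inr ⟨h1, h3⟩
  · rw [ht, hcV]
    push_cast
    rw [htot]
    ring
  · rw [ht, hn, hcV]
    exact hI.mul _

/-- The Cayley graph of a set of vectors. -/
def cay {V : Type} [AddCommGroup V] (T : Set V) : SimpleGraph V where
  Adj v w := v ≠ w ∧ (w - v ∈ T ∨ v - w ∈ T)
  symm := ⟨fun _ _ h => ⟨h.1.symm, h.2.symm⟩⟩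
  loopless := ⟨fun _ h => h.1 rfl⟩

theorem hamG_of_ishc {V : Type} [Fintype V] {E : Set (Sym2 V)} (hE : Pool.Agent.K3h88.Erde.IsHC E) :
    HamG (SimpleGraph.fromEdgeSet E) := by
  have hadj : ∀ u v, (SimpleGraph.fromEdgeSet E).Adj u v ↔ s(u, v) ∈ E := by
    intro u v
    rw [SimpleGraph.fromEdgeSet_adj]
    constructor
    · exact fun h => h.1
    · intro h
      refine ⟨h, ?_⟩
      rintro rfl
      exact hc_loop hE u h
  refine ⟨?_, ?_, ?_⟩
  · intro v
    have h1 : (SimpleGraph.fromEdgeSet E).neighborSet v = {y | s(v, y) ∈ E} := by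
      ext y
      exact hadj v y
    rw [h1]
    exact hc_deg hE v
  · intro x y
    have h1 := hc_conn hE x y
    induction h1 with
    | refl => exact Reachable.refl x
    | tail _ h2 ih => exact ih.trans (Adj.reachable ((hadj _ _).2 h2))
  · have h3 := hc_card hE
    obtain ⟨φ, hφ, h⟩ := mem_hc hE
    obtain ⟨e, he⟩ : ∃ e : ZMod (Fintype.card V) ≃ V, ∀ u, e u = φ u :=
      ⟨Equiv.ofBijective φ hφ, fun _ => rfl⟩
    refine ⟨(e.symm.trans (Equiv.addRight 1)).trans e, fun v => ?_⟩
    obtain ⟨u, rfl⟩ := e.surjective v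
    have e1 : ∀ u, ((e.symm.trans (Equiv.addRight 1)).trans e) (e u) = e (u + 1) := by
      intro u
      simp
    rw [e1, e1]
    refine ⟨?_, ?_⟩
    · rw [hadj, h]
      exact ⟨u, Or.inl ⟨he u, he _⟩⟩
    · intro h1
      have h2 := e.injective h1
      have h4 : (2 : ZMod (Fintype.card V)) = 0 := by
        have h5 : (2 : ZMod (Fintype.card V)) = (u + 1 + 1) - u := by ring
        rw [h5, h2, sub_self]
      exact Pool.Agent.K3h34.Erde.two_ne h3 h4

end Pool.Agent.U460.LA
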