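import Pool.Agent.U460.LA.Block
import Pool.Agent.K3h34.Erde.K0
import Pool.Agent.K3h77.Erde.CycEx
import Pool.Agent.K3h18.Erde.Ladder

/-!
# Switching: the product of a union of Hamiltonian cycles and a cycle

Let `V` be the union of the cycle `0, 1, ..., M - 1` and of further Hamiltonian cycles `S j`.  In the
product with a cycle of length `L` the first cycle gives two Hamiltonian cycles `X`, `Y`.  The
layers of every `S j` are connected by exchanging edges with `Y` at `L - 1` squares.  If the chords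
used are pairwise disjoint intervals of the first cycle, then `Y` remains a Hamiltonian cycle.
-/

set_option autoImplicit false

namespace Pool.Agent.U460.LA

open Pool.Agent.K3h88.Erde

theorem hc_deg2 {V : Type} [Fintype V] {F : Set (Sym2 V)} (hF : IsHC F) (x : V) :
    {y | s(x, y) ∈ F}.ncard = 2 := by
  have h3 := hc_card hF
  obtain ⟨φ, hφ, h⟩ := mem_hc hF
  obtain ⟨v, rfl⟩ := hφ.2 x
  have hset : {y | s(φ v, y) ∈ F} = {φ (v + 1), φ (v - 1)} := by
    ext y
    rw [Set.mem_ofPred_eq, h]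
    constructor
    · rintro ⟨u, ⟨h1, h2⟩ | ⟨h1, h2⟩⟩
      · rw [hφ.1 h1]
        exact Or.inl h2
      · right
        rw [Set.mem_singleton_iff, hφ.1 h1, h2]
        congr 1
        ring
    · rintro (rfl | rfl)
      · exact ⟨v, Or.inl ⟨rfl, rfl⟩⟩
      · exact ⟨v - 1, Or.inr ⟨by rw [sub_add_cancel], rfl⟩⟩
  rw [hset, Set.ncard_pair]
  intro h1
  have h2 := hφ.1 h1
  have h4 : (2 : ZMod (Fintype.card V)) = 0 := by
    have h5 : (2 : ZMod (Fintype.card V)) = (v + 1) - (v - 1) := by ring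
    rw [h5, h2, sub_self]
  exact Pool.Agent.K3h34.Erde.two_ne h3 h4

theorem ishc_of_conn {W : Type} [Fintype W] (F : Set (Sym2 W)) (hl : ∀ x, s(x, x) ∉ F)
    (hdeg : ∀ x, {y | s(x, y) ∈ F}.ncard = 2) (x0 : W)
    (hconn : ∀ x, (SimpleGraph.fromEdgeSet F).Reachable x0 x) : IsHC F := by
  classical
  obtain ⟨H, hH⟩ : ∃ H, H = SimpleGraph.fromEdgeSet F := ⟨_, rfl⟩
  rw [← hH] at hconn
  have hadj : ∀ u v, H.Adj u v ↔ s(u, v) ∈ F := by
    intro u v
    rw [hH, SimpleGraph.fromEdgeSet_adj]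
    constructor
    · exact fun h => h.1
    · intro h
      refine ⟨h, ?_⟩
      rintro rfl
      exact hl u h
  have hnb : ∀ u, H.neighborSet u = {y | s(u, y) ∈ F} := by
    intro u
    ext y
    exact hadj u y
  obtain ⟨y, hy⟩ : ∃ y, s(x0, y) ∈ F := by
    have h1 : {y | s(x0, y) ∈ F}.Nonempty := by
      rw [← Set.ncard_pos (Set.toFinite _), hdeg]
      norm_num
    exact h1
  obtain ⟨c, hc, h0, h1, h2, h3⟩ := Pool.Agent.K3h77.Erde.cyc W H Set.univ
    (fun u _ => by rw [hnb]; exact hdeg u) (fun u hu => absurd (Set.mem_univ u) hu)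
    (fun u v _ _ => (hconn u).symm.trans (hconn v)) x0 y ((hadj _ _).2 hy)
  refine ⟨_, c, hc, fun v => (h2 v).1 (Set.mem_univ v), ?_⟩
  rw [← h3]
  ext e
  induction e using Sym2.ind with
  | _ u v => rw [SimpleGraph.mem_edgeSet, hadj]

/-- Exchange of edges at squares with pairwise different corners. -/
theorem deg_exchange {W K : Type} [Finite W] (pt : K → Bool → Bool → W)
    (hinj : ∀ k b i k' b' i', pt k b i = pt k' b' i' → k = k' ∧ b = b' ∧ i = i')
    (F Q1 Q2 : Set (Sym2 W)) (hQ1 : Q1 = {e | ∃ k b, e = s(pt k b false, pt k b true)})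
    (hQ2 : Q2 = {e | ∃ k i, e = s(pt k false i, pt k true i)}) (h1 : Q1 ⊆ F)
    (h2 : Disjoint F Q2) (v : W) :
    {u | s(v, u) ∈ (F \ Q1) ∪ Q2}.ncard = {u | s(v, u) ∈ F}.ncard := by
  have m1 : ∀ k b i u, s(pt k b i, u) ∈ Q1 ↔ u = pt k b (!i) := by
    intro k b i u
    rw [hQ1]
    constructor
    · rintro ⟨k', b', he⟩
      rcases Sym2.eq_iff.1 he with ⟨h3, h4⟩ | ⟨h3, h4⟩
      · obtain ⟨rfl, rfl, rfl⟩ := hinj _ _ _ _ _ _ h3
        rw [h4]; rfl
      · obtain ⟨rfl, rfl, rfl⟩ := hinj _ _ _ _ _ _ h3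
        rw [h4]; rfl
    · rintro rfl
      cases i
      · exact ⟨k, b, rfl⟩
      · exact ⟨k, b, Sym2.eq_swap⟩
  have m2 : ∀ k b i u, s(pt k b i, u) ∈ Q2 ↔ u = pt k (!b) i := by
    intro k b i u
    rw [hQ2]
    constructor
    · rintro ⟨k', i', he⟩
      rcases Sym2.eq_iff.1 he with ⟨h3, h4⟩ | ⟨h3, h4⟩
      · obtain ⟨rfl, rfl, rfl⟩ := hinj _ _ _ _ _ _ h3
        rw [h4]; rfl
      · obtain ⟨rfl, rfl, rfl⟩ := hinj _ _ _ _ _ _ h3
        rw [h4]; rfl
    · rintro rfl
      cases b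
      · exact ⟨k, i, rfl⟩
      · exact ⟨k, i, Sym2.eq_swap⟩
  by_cases hv : ∃ k b i, v = pt k b i
  · obtain ⟨k, b, i, rfl⟩ := hv
    have hset : {u | s(pt k b i, u) ∈ (F \ Q1) ∪ Q2} =
        insert (pt k (!b) i) ({u | s(pt k b i, u) ∈ F} \ {pt k b (!i)}) := by
      ext u
      rw [Set.mem_ofPred_eq, Set.mem_union, Set.mem_sdiff, m1, m2, Set.mem_insert_iff,
        Set.mem_sdiff, Set.mem_ofPred_eq, Set.mem_singleton_iff]
      tauto
    have hin : pt k b (!i) ∈ {u | s(pt k b i, u) ∈ F} := h1 ((m1 _ _ _ _).2 rfl)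
    have hnot : pt k (!b) i ∉ {u | s(pt k b i, u) ∈ F} \ {pt k b (!i)} := by
      intro h
      exact Set.disjoint_left.1 h2 h.1 ((m2 _ _ _ _).2 rfl)
    rw [hset, Set.ncard_insert_of_notMem hnot (Set.toFinite _),
      Set.ncard_sdiff_singleton_add_one hin (Set.toFinite _)]
  · push Not at hv
    congr 1
    ext u
    rw [Set.mem_ofPred_eq, Set.mem_union, Set.mem_sdiff]
    have n1 : s(v, u) ∉ Q1 := by
      rw [hQ1]
      rintro ⟨k, b, he⟩
      rcases Sym2.eq_iff.1 he with ⟨h3, h4⟩ | ⟨h3, h4⟩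
      · exact hv _ _ _ h3
      · exact hv _ _ _ h3
    have n2 : s(v, u) ∉ Q2 := by
      rw [hQ2]
      rintro ⟨k, b, he⟩
      rcases Sym2.eq_iff.1 he with ⟨h3, h4⟩ | ⟨h3, h4⟩
      · exact hv _ _ _ h3
      · exact hv _ _ _ h3
    rw [Set.mem_ofPred_eq]
    tauto

/-- A path with pairwise disjoint segments, the two end edges of which are exchanged. -/
theorem chain_reach {K : Type} (R : ℕ → ℕ → Prop) (hr : ∀ i, R i i) (hs : ∀ i j, R i j → R j i)
    (ht : ∀ i j k, R i j → R j k → R i k) (n : ℕ) (a b : K → ℕ) (hab : ∀ k, a k < b k)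
    (hd : ∀ k k', k ≠ k' → b k < a k' ∨ b k' < a k)
    (step : ∀ i, i < n → (∀ k, i ≠ a k ∧ i ≠ b k) → R i (i + 1))
    (hbn : ∀ k, b k < n)
    (sw : ∀ k, R (a k) (b k) ∧ R (a k + 1) (b k + 1)) : ∀ i, i ≤ n → R 0 i := by
  intro i
  induction i using Nat.strong_induction_on with
  | _ i ih =>
    intro hi
    rcases Nat.eq_zero_or_pos i with h0 | h0
    · rw [h0]; exact hr 0
    obtain ⟨j, rfl⟩ : ∃ j, i = j + 1 := ⟨i - 1, by omega⟩
    by_cases hb : ∃ k, j = b k
    · obtain ⟨k, rfl⟩ := hb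
      have h1 := hab k
      exact ht _ _ _ (ih (a k + 1) (by omega) (by omega)) (sw k).2
    by_cases ha : ∃ k, j = a k
    · obtain ⟨k, rfl⟩ := ha
      have h1 := hab k
      have h2 := hbn k
      have key : ∀ d, a k + 1 + d ≤ b k → R (a k + 1) (a k + 1 + d) := by
        intro d
        induction d with
        | zero => intro _; exact hr _
        | succ d ihd =>
          intro hd'
          refine ht _ _ _ (ihd (by omega)) ?_
          have h3 := step (a k + 1 + d) (by omega) (by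
            intro k'
            by_cases hk : k = k'
            · subst hk
              omega
            · have h4 := hab k'
              rcases hd k k' hk with h5 | h5 <;> omega)
          exact h3
      have h3 := key (b k - (a k + 1)) (by omega)
      have e : a k + 1 + (b k - (a k + 1)) = b k := by omega
      rw [e] at h3
      exact ht _ _ _ (ht _ _ _ (ih (a k) (by omega) (by omega)) (sw k).1) (hs _ _ h3)
    · push Not at hb ha
      exact ht _ _ _ (ih j (by omega) (by omega)) (step j (by omega) fun k => ⟨ha k, hb k⟩)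

theorem decN_type {V ι : Type} [Fintype ι] {P : Set (Sym2 V) → Prop} {E : Set (Sym2 V)}
    (F : ι → Set (Sym2 V)) (hP : ∀ i, P (F i)) (hd : ∀ i j, i ≠ j → Disjoint (F i) (F j))
    (hE : E = ⋃ i, F i) : DecN P (Fintype.card ι) E := by
  classical
  refine ⟨fun i => F ((Fintype.equivFin ι).symm i), fun i => hP _, fun i j hij => hd _ _ ?_, ?_⟩
  · intro h
    exact hij ((Fintype.equivFin ι).symm.injective h)
  · rw [hE]
    ext e
    rw [Set.mem_iUnion, Set.mem_iUnion]
    constructor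
    · rintro ⟨i, hi⟩
      exact ⟨Fintype.equivFin ι i, by simpa using hi⟩
    · rintro ⟨i, hi⟩
      exact ⟨_, hi⟩

end Pool.Agent.U460.LA
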