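import Pool.Agent.U460.LA.Switch

/-!
# Switching: the product of a union of Hamiltonian cycles and a cycle, main theorem
-/

set_option autoImplicit false

namespace Pool.Agent.U460.LA

open Pool.Agent.K3h88.Erde Pool.Agent.K3h34.Erde

/-- The edges of a permutation. -/
def pset {T : Type} (S : Equiv.Perm T) : Set (Sym2 T) := {e | ∃ t, e = s(t, S t)}

/-- The layers of an edge set. -/
def lev {T : Type} (L : ℕ) (P : Set (Sym2 T)) : Set (Sym2 (T × ZMod L)) :=
  {e | ∃ a b w, s(a, b) ∈ P ∧ e = s((a, w), (b, w))}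

theorem no_two {M : ℕ} (hM : 3 ≤ M) (S : Equiv.Perm (ZMod M)) (hS : ∀ x y, S.SameCycle x y)
    (t : ZMod M) : S (S t) ≠ t := by
  intro h
  have : NeZero M := ⟨by omega⟩
  have key : ∀ n : ℕ, (S ^ n) t = t ∨ (S ^ n) t = S t := by
    intro n
    induction n with
    | zero => left; simp
    | succ n ih =>
      rw [pow_succ', Equiv.Perm.mul_apply]
      rcases ih with h1 | h1
      · rw [h1]; right; rfl
      · rw [h1, h]; left; rfl
  have hsub : (Set.univ : Set (ZMod M)) ⊆ {t, S t} := by
    intro u _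
    obtain ⟨n, hn⟩ := (hS t u).exists_nat_pow_eq
    rcases key n with h1 | h1
    · left; rw [← hn, h1]
    · right; rw [Set.mem_singleton_iff, ← hn, h1]
  have h1 := Set.ncard_le_ncard hsub (Set.toFinite _)
  rw [Set.ncard_univ, Nat.card_zmod] at h1
  have h2 : ({t, S t} : Set (ZMod M)).ncard ≤ 2 := by
    refine (Set.ncard_insert_le _ _).trans ?_
    rw [Set.ncard_singleton]
  omega

/-- The chords at which the edges are exchanged. -/
structure Chords (M L : ℕ) (J : Type) (S : J → Equiv.Perm (ZMod M)) (x y : J → ℕ → ℕ) : Prop where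
  hxy : ∀ j c, c < L - 1 → x j c < y j c
  hy : ∀ j c, c < L - 1 → y j c < M
  hd : ∀ j c j' c', c < L - 1 → c' < L - 1 → (j, c) ≠ (j', c') →
    y j c < x j' c' ∨ y j' c' < x j c
  hS : ∀ j c, c < L - 1 → S j (x j c : ZMod M) = (y j c : ZMod M)
  hx1 : ∀ j c, c < L - 1 → (x j c + c) % L ≠ L - 1
  hy1 : ∀ j c, c < L - 1 → (y j c + c) % L ≠ L - 1

section

variable {M L : ℕ} {J : Type} {S : J → Equiv.Perm (ZMod M)} {x y : J → ℕ → ℕ}

/-- the column -/
def pc (x y : J → ℕ → ℕ) (k : J × Fin (L - 1)) (b : Bool) : ℕ :=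
  if b then y k.1 k.2 else x k.1 k.2

/-- the corners of the squares -/
def pt (M : ℕ) {L : ℕ} (x y : J → ℕ → ℕ) (k : J × Fin (L - 1)) (b i : Bool) : ZMod M × ZMod L :=
  ((pc x y k b : ZMod M), ((k.2 : ℕ) : ZMod L) + (if i then 1 else 0))

theorem pc_lt (h : Chords M L J S x y) (k : J × Fin (L - 1)) (b : Bool) : pc x y k b < M := by
  have h1 := h.hxy k.1 k.2 k.2.2
  have h2 := h.hy k.1 k.2 k.2.2
  unfold pc
  split_ifs <;> omega

theorem pc_inj (h : Chords M L J S x y) {k k' : J × Fin (L - 1)} {b b' : Bool}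
    (he : pc x y k b = pc x y k' b') : k = k' ∧ b = b' := by
  have h1 := h.hxy k.1 k.2 k.2.2
  have h1' := h.hxy k'.1 k'.2 k'.2.2
  have hk : k = k' := by
    by_contra hne
    have h2 := h.hd k.1 k.2 k'.1 k'.2 k.2.2 k'.2.2 (by
      intro h3
      apply hne
      have h4 := congrArg Prod.fst h3
      have h5 := congrArg Prod.snd h3
      exact Prod.ext h4 (Fin.ext h5))
    unfold pc at he
    split_ifs at he <;> omega
  refine ⟨hk, ?_⟩
  subst hk
  unfold pc at he
  cases b <;> cases b' <;> simp at he ⊢ <;> omega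

theorem pt_inj (h : Chords M L J S x y) (hL : 3 ≤ L) (k : J × Fin (L - 1)) (b i : Bool)
    (k' : J × Fin (L - 1)) (b' i' : Bool) (he : pt M x y k b i = pt M x y k' b' i') :
    k = k' ∧ b = b' ∧ i = i' := by
  have h1 := congrArg Prod.fst he
  have h2 := congrArg Prod.snd he
  simp only [pt] at h1 h2
  obtain ⟨h3, h4⟩ := pc_inj h (nat_eq_of_cast (pc_lt h k b) (pc_lt h k' b') h1)
  refine ⟨h3, h4, ?_⟩
  subst h3
  have h5 := add_left_cancel h2
  have h6 := one_ne hL
  cases i <;> cases i' <;> simp at h5 ⊢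
  · exact h6 h5.symm
  · exact h6 h5

theorem pc_mod (h : Chords M L J S x y) (k : J × Fin (L - 1)) (b : Bool) :
    (pc x y k b + k.2) % L ≠ L - 1 := by
  have h1 := h.hx1 k.1 k.2 k.2.2
  have h2 := h.hy1 k.1 k.2 k.2.2
  unfold pc
  split_ifs
  · exact h2
  · exact h1

/-- position of the lower corner in the second cycle -/
def ps {L : ℕ} (x y : J → ℕ → ℕ) (k : J × Fin (L - 1)) (b : Bool) : ℕ :=
  pc x y k b * L + (pc x y k b + k.2) % L

theorem c1_ps (hL : 3 ≤ L) (k : J × Fin (L - 1)) (b : Bool) :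
    c1 M L (ps x y k b) = pt M x y k b false := by
  have hmod : (pc x y k b + k.2) % L < L := Nat.mod_lt _ (by omega)
  have hdiv : ps x y k b / L = pc x y k b := by
    unfold ps
    rw [mul_comm, Nat.mul_add_div (by omega), Nat.div_eq_of_lt hmod, add_zero]
  unfold c1 pt
  rw [hdiv]
  refine Prod.ext rfl ?_
  unfold ps
  simp only [Nat.cast_add, Nat.cast_mul, ZMod.natCast_self, mul_zero, zero_add, ZMod.natCast_mod,
    Bool.false_eq_true, if_false, add_zero]
  ring

theorem c1_ps1 (h : Chords M L J S x y) (hL : 3 ≤ L) (k : J × Fin (L - 1)) (b : Bool) :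
    c1 M L (ps x y k b + 1) = pt M x y k b true := by
  have hmod : (pc x y k b + k.2) % L < L := Nat.mod_lt _ (by omega)
  have hmod1 := pc_mod h k b
  have hdiv : (ps x y k b + 1) / L = pc x y k b := by
    unfold ps
    rw [add_assoc, mul_comm, Nat.mul_add_div (by omega),
      Nat.div_eq_of_lt (show (pc x y k b + k.2) % L + 1 < L by omega), add_zero]
  unfold c1 pt
  rw [hdiv]
  refine Prod.ext rfl ?_
  unfold ps
  simp only [Nat.cast_add, Nat.cast_mul, ZMod.natCast_self, mul_zero, zero_add, ZMod.natCast_mod,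
    Nat.cast_one, if_true]
  ring

theorem sm_pt (hLM : L ∣ M) (k : J × Fin (L - 1)) (b : Bool) :
    sm M L (pt M x y k b true) = sm M L (pt M x y k b false) + 1 := by
  unfold sm pt
  simp
  ring

end

/-- **The switching theorem.** -/
theorem switch {M L : ℕ} (hL : 3 ≤ L) (hLM : L ∣ M) (hM : 0 < M) (hco : Nat.Coprime (L - 1) M)
    {J : Type} [Fintype J] (S : J → Equiv.Perm (ZMod M)) (hS : ∀ j x y, (S j).SameCycle x y)
    (hd0 : ∀ j, Disjoint (cyE M) (pset (S j))) (hdd : ∀ i j, i ≠ j → Disjoint (pset (S i))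
      (pset (S j))) (x y : J → ℕ → ℕ) (h : Chords M L J S x y) :
    DecN IsHC (Fintype.card J + 2) (boxE (cyE M ∪ ⋃ j, pset (S j)) (cyE L)) := by
  classical
  have : NeZero M := ⟨by omega⟩
  have : NeZero L := ⟨by omega⟩
  have hM3 : 3 ≤ M := hL.trans (Nat.le_of_dvd hM hLM)
  have hML : 3 ≤ M * L := by nlinarith
  have hcard : Fintype.card (ZMod M × ZMod L) = M * L := by
    rw [Fintype.card_prod, ZMod.card, ZMod.card]
  -- the two basic cycles
  obtain ⟨Y0, hY0⟩ : ∃ Y0, Y0 = nE (n1 M L) := ⟨_, rfl⟩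
  obtain ⟨X, hX⟩ : ∃ X, X = nE (n2 M L) := ⟨_, rfl⟩
  have hcY0 : IsHC Y0 := by
    rw [hY0]
    exact ishc_of_next (n1 M L) (c1 M L) (M * L) hML hcard (c1_top M L hL hLM)
      (fun i j hi hj h => c1_inj M L i j hi hj h) (fun t _ => c1_succ M L hLM t)
  have hcX : IsHC X := by
    rw [hX]
    exact ishc_of_next (n2 M L) (c2 M L) (M * L) hML hcard (c2_top M L hL hLM)
      (fun i j hi hj h => c2_inj M L hL hLM hco i j hi hj h) (fun t _ => c2_succ M L hLM t)
  have hXY : Disjoint Y0 X := by rw [hX, hY0]; exact n_disj M L hL hLM hM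
  have hXYu : boxE (cyE M) (cyE L) = Y0 ∪ X := by rw [hX, hY0]; exact n_union M L
  -- layers
  have hne : ∀ j a b, s(a, b) ∈ pset (S j) → a ≠ b := by
    rintro j a b ⟨t, ht⟩ rfl
    have h1 : t = S j t := by
      rcases Sym2.eq_iff.1 ht with ⟨h1, h2⟩ | ⟨h1, h2⟩
      · exact h1.symm.trans h2
      · exact h2.symm.trans h1
    exact no_two hM3 (S j) (hS j) t (by rw [← h1, ← h1])
  have hlev0 : ∀ j, Disjoint (Y0 ∪ X) (lev L (pset (S j))) := by
    intro j
    rw [← hXYu, Set.disjoint_left]
    rintro e he ⟨a, b, w, hab, rfl⟩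
    rcases he with ⟨u, u', v, hu, he⟩ | ⟨u, v, v', hv, he⟩
    · have h1 := congrArg (Sym2.map (fun p : ZMod M × ZMod L => p.1)) he
      rw [Sym2.map_mk, Sym2.map_mk] at h1
      rw [h1] at hab
      exact Set.disjoint_left.1 (hd0 j) hu hab
    · have h1 := congrArg (Sym2.map (fun p : ZMod M × ZMod L => p.1)) he
      rw [Sym2.map_mk, Sym2.map_mk] at h1
      apply hne j a b hab
      rcases Sym2.eq_iff.1 h1 with ⟨h2, h3⟩ | ⟨h2, h3⟩
      · exact h2.trans h3.symm
      · exact h2.trans h3.symm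
  have hlevd : ∀ i j, i ≠ j → Disjoint (lev L (pset (S i))) (lev L (pset (S j))) := by
    intro i j hij
    rw [Set.disjoint_left]
    rintro e ⟨a, b, w, hab, rfl⟩ ⟨a', b', w', hab', he⟩
    have h1 := congrArg (Sym2.map (fun p : ZMod M × ZMod L => p.1)) he
    rw [Sym2.map_mk, Sym2.map_mk] at h1
    rw [h1] at hab
    exact Set.disjoint_left.1 (hdd i j hij) hab hab'
  -- the exchanged edges
  obtain ⟨Qv, hQv⟩ : ∃ Qv : J → Set (Sym2 (ZMod M × ZMod L)), ∀ j, Qv j =
      {e | ∃ c b, e = s(pt M x y (j, c) b false, pt M x y (j, c) b true)} := ⟨_, fun _ => rfl⟩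
  obtain ⟨Qh, hQh⟩ : ∃ Qh : J → Set (Sym2 (ZMod M × ZMod L)), ∀ j, Qh j =
      {e | ∃ c i, e = s(pt M x y (j, c) false i, pt M x y (j, c) true i)} := ⟨_, fun _ => rfl⟩
  have hQv1 : (⋃ j, Qv j) = {e | ∃ k b, e = s(pt M x y k b false, pt M x y k b true)} := by
    ext e
    rw [Set.mem_iUnion]
    constructor
    · rintro ⟨j, hj⟩
      rw [hQv] at hj
      obtain ⟨c, b, he⟩ := hj
      exact ⟨(j, c), b, he⟩
    · rintro ⟨⟨j, c⟩, b, he⟩
      refine ⟨j, ?_⟩
      rw [hQv]
      exact ⟨c, b, he⟩
  have hQh1 : (⋃ j, Qh j) = {e | ∃ k i, e = s(pt M x y k false i, pt M x y k true i)} := by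
    ext e
    rw [Set.mem_iUnion]
    constructor
    · rintro ⟨j, hj⟩
      rw [hQh] at hj
      obtain ⟨c, b, he⟩ := hj
      exact ⟨(j, c), b, he⟩
    · rintro ⟨⟨j, c⟩, b, he⟩
      refine ⟨j, ?_⟩
      rw [hQh]
      exact ⟨c, b, he⟩
  have hQvY : (⋃ j, Qv j) ⊆ Y0 := by
    rw [hQv1]
    rintro e ⟨k, b, rfl⟩
    have h1 : pt M x y k b true = n1 M L (pt M x y k b false) := by
      rw [← c1_ps hL, ← c1_succ M L hLM, c1_ps1 h hL]
    rw [hY0, h1]
    exact ⟨_, rfl⟩
  have hQhL : ∀ j, Qh j ⊆ lev L (pset (S j)) := by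
    intro j e he
    rw [hQh] at he
    obtain ⟨c, i, rfl⟩ := he
    refine ⟨_, _, ((c : ℕ) : ZMod L) + (if i then 1 else 0),
      ⟨((pc x y (j, c) false : ℕ) : ZMod M), rfl⟩, ?_⟩
    have h1 : S j ((pc x y (j, c) false : ℕ) : ZMod M) = ((pc x y (j, c) true : ℕ) : ZMod M) :=
      h.hS j c c.2
    rw [h1]
    rfl
  have hQvd : ∀ i j, i ≠ j → Disjoint (Qv i) (Qv j) := by
    intro i j hij
    rw [Set.disjoint_left]
    intro e he he'
    rw [hQv] at he he'
    obtain ⟨c, b, rfl⟩ := he
    obtain ⟨c', b', he⟩ := he'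
    rcases Sym2.eq_iff.1 he with ⟨h1, -⟩ | ⟨h1, -⟩
    · exact hij (congrArg Prod.fst (pt_inj h hL _ _ _ _ _ _ h1).1)
    · exact hij (congrArg Prod.fst (pt_inj h hL _ _ _ _ _ _ h1).1)
  -- the second cycle
  obtain ⟨Y, hY⟩ : ∃ Y, Y = (Y0 \ ⋃ j, Qv j) ∪ ⋃ j, Qh j := ⟨_, rfl⟩
  have hQhY : Disjoint Y0 (⋃ j, Qh j) := by
    rw [Set.disjoint_iUnion_right]
    intro j
    exact (Set.disjoint_of_subset_left Set.subset_union_left (hlev0 j)).mono_right (hQhL j)
  have hcY : IsHC Y := by
    have hloop : ∀ v, s(v, v) ∉ Y := by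
      intro v hv
      rw [hY] at hv
      rcases hv with hv | hv
      · exact hc_loop hcY0 v hv.1
      · rw [Set.mem_iUnion] at hv
        obtain ⟨j, hj⟩ := hv
        obtain ⟨a, b, w, hab, he⟩ := hQhL j hj
        apply hne j a b hab
        rcases Sym2.eq_iff.1 he with ⟨h1, h2⟩ | ⟨h1, h2⟩
        · exact congrArg Prod.fst (h1.symm.trans h2)
        · exact congrArg Prod.fst (h2.symm.trans h1)
    refine ishc_of_conn Y hloop ?_ (c1 M L 0) ?_
    · intro v
      rw [hY, deg_exchange (pt M x y) (pt_inj h hL) Y0 _ _ hQv1 hQh1 hQvY hQhY]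
      exact hc_deg2 hcY0 v
    · have hadj : ∀ u v, s(u, v) ∈ Y → (SimpleGraph.fromEdgeSet Y).Reachable u v := by
        intro u v huv
        by_cases he : u = v
        · rw [he]
        · exact SimpleGraph.Adj.reachable ((SimpleGraph.fromEdgeSet_adj _).2 ⟨huv, he⟩)
      have hsurj : ∀ v, ∃ i, i < M * L ∧ c1 M L i = v := by
        have hi : Function.Injective (fun i : Fin (M * L) => c1 M L i.val) := by
          intro i j h
          exact Fin.ext (c1_inj M L _ _ i.2 j.2 h)
        have hb : Function.Bijective (fun i : Fin (M * L) => c1 M L i.val) :=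
          (Fintype.bijective_iff_injective_and_card _).2 ⟨hi, by rw [hcard, Fintype.card_fin]⟩
        intro v
        obtain ⟨i, hi⟩ := hb.2 v
        exact ⟨i.val, i.isLt, hi⟩
      have hps : ∀ (k : J × Fin (L - 1)) b, ps x y k b < M * L ∧
          pc x y k b * L ≤ ps x y k b ∧ ps x y k b < (pc x y k b + 1) * L := by
        intro k b
        have h1 := pc_lt h k b
        have h2 : (pc x y k b + k.2) % L < L := Nat.mod_lt _ (by omega)
        have h3 : (pc x y k b + 1) * L ≤ M * L := Nat.mul_le_mul_right _ h1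
        have h4 : (pc x y k b + 1) * L = pc x y k b * L + L := by ring
        unfold ps
        omega
      have hlt : ∀ (k k' : J × Fin (L - 1)) b b', pc x y k b < pc x y k' b' →
          ps x y k b < ps x y k' b' := by
        intro k k' b b' hlt
        have h1 := (hps k b).2.2
        have h2 := (hps k' b').2.1
        have h3 : (pc x y k b + 1) * L ≤ pc x y k' b' * L := Nat.mul_le_mul_right _ hlt
        omega
      have hchain := chain_reach (K := J × Fin (L - 1))
        (fun i j => (SimpleGraph.fromEdgeSet Y).Reachable (c1 M L i) (c1 M L j))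
        (fun i => SimpleGraph.Reachable.refl _) (fun i j h => h.symm) (fun i j k h h' => h.trans h')
        (M * L) (fun k => ps x y k false) (fun k => ps x y k true)
        (fun k => hlt k k false true (h.hxy k.1 k.2 k.2.2))
        (by
          intro k k' hkk
          rcases h.hd k.1 k.2 k'.1 k'.2 k.2.2 k'.2.2 (by
            intro h3
            apply hkk
            have h4 := congrArg Prod.fst h3
            have h5 := congrArg Prod.snd h3
            exact Prod.ext h4 (Fin.ext h5)) with h1 | h1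
          · exact Or.inl (hlt k k' true false h1)
          · exact Or.inr (hlt k' k true false h1))
        (by
          intro i hi hk
          apply hadj
          rw [hY]
          left
          rw [c1_succ M L hLM]
          refine ⟨by rw [hY0]; exact ⟨_, rfl⟩, ?_⟩
          rw [hQv1]
          rintro ⟨k, b, he⟩
          rcases Sym2.eq_iff.1 he with ⟨h1, -⟩ | ⟨h1, h2⟩
          · rw [← c1_ps hL] at h1
            have h3 := c1_inj M L _ _ hi (hps k b).1 h1
            cases b
            · exact (hk k).1 h3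
            · exact (hk k).2 h3
          · have h3 := sm_n1 M L hLM (c1 M L i)
            rw [h2, h1, sm_pt hLM, add_assoc] at h3
            have h4 := left_eq_add.1 h3
            exact two_ne hL (by rw [← one_add_one_eq_two]; exact h4))
        (fun k => (hps k true).1)
        (by
          intro k
          rw [c1_ps hL, c1_ps hL, c1_ps1 h hL, c1_ps1 h hL]
          have h1 : ∀ i, s(pt M x y k false i, pt M x y k true i) ∈ Y := by
            intro i
            rw [hY]
            right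
            rw [hQh1]
            exact ⟨k, i, rfl⟩
          exact ⟨hadj _ _ (h1 false), hadj _ _ (h1 true)⟩)
      intro v
      obtain ⟨i, hi, rfl⟩ := hsurj v
      exact hchain i hi.le
  -- the other cycles
  obtain ⟨Z, hZ⟩ : ∃ Z : J → Set (Sym2 (ZMod M × ZMod L)), ∀ j, Z j =
      (lev L (pset (S j)) \ Qh j) ∪ Qv j := ⟨_, fun _ => rfl⟩
  have hcZ : ∀ j, IsHC (Z j) := by
    intro j
    have hlad := Pool.Agent.K3h18.Erde.ladder (B := L) (τ := fun c => ((x j c : ℕ) : ZMod M))
      (S j) (hS j) (by omega) (by rw [ZMod.card]; omega) (by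
        intro c d hc hd he
        have h1 := pc_inj h (k := (j, ⟨c, by omega⟩)) (k' := (j, ⟨d, by omega⟩)) (b := false)
          (b' := false) (nat_eq_of_cast (pc_lt h _ _) (pc_lt h _ _) he)
        have h2 := congrArg (fun k : J × Fin (L - 1) => (k.2 : ℕ)) h1.1
        exact h2)
    have heq : Z j = {e : Sym2 (ZMod M × ZMod L) |
        (∃ t w, (¬ ∃ c, c < L - 1 ∧ t = ((x j c : ℕ) : ZMod M) ∧
          (w = (c : ZMod L) ∨ w = (c : ZMod L) + 1)) ∧ e = s((t, w), (S j t, w))) ∨
        (∃ c, c < L - 1 ∧ (e = s((((x j c : ℕ) : ZMod M), (c : ZMod L)),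
            (((x j c : ℕ) : ZMod M), (c : ZMod L) + 1)) ∨
          e = s((S j ((x j c : ℕ) : ZMod M), (c : ZMod L)),
            (S j ((x j c : ℕ) : ZMod M), (c : ZMod L) + 1))))} := by
      rw [hZ]
      ext e
      constructor
      · rintro (⟨⟨a, b, w, ⟨t, ht⟩, rfl⟩, hnot⟩ | he)
        · left
          have he : s((a, w), (b, w)) = s((t, w), (S j t, w)) := by
            have := congrArg (Sym2.map (fun u : ZMod M => (u, w))) ht
            simpa using this
          rw [he] at hnot ⊢
          refine ⟨t, w, ?_, rfl⟩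
          rintro ⟨c, hc, rfl, hw⟩
          apply hnot
          rw [hQh]
          rw [h.hS j c hc]
          rcases hw with rfl | rfl
          · exact ⟨⟨c, hc⟩, false, by simp [pt, pc]⟩
          · exact ⟨⟨c, hc⟩, true, by simp [pt, pc]⟩
        · right
          rw [hQv] at he
          obtain ⟨c, b, rfl⟩ := he
          refine ⟨c, c.2, ?_⟩
          rw [h.hS j c c.2]
          cases b
          · left; simp [pt, pc]
          · right; simp [pt, pc]
      · rintro (⟨t, w, hnot, rfl⟩ | ⟨c, hc, he⟩)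
        · left
          refine ⟨⟨t, S j t, w, ⟨t, rfl⟩, rfl⟩, ?_⟩
          rw [hQh]
          rintro ⟨c, i, he⟩
          have hw : ∀ i : Bool, (c : ℕ) + (if i then (1 : ZMod L) else 0) = ((c : ℕ) : ZMod L) ∨
              ((c : ℕ) : ZMod L) + (if i then (1 : ZMod L) else 0) = ((c : ℕ) : ZMod L) + 1 := by
            intro i
            cases i
            · left; simp
            · right; simp
          rcases Sym2.eq_iff.1 he with ⟨h1, h2⟩ | ⟨h1, h2⟩
          · apply hnot
            have h3 := congrArg Prod.fst h1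
            have h4 := congrArg Prod.snd h1
            simp only [pt] at h3 h4
            exact ⟨c, c.2, h3, by rw [h4]; exact hw i⟩
          · have h3 := congrArg Prod.fst h1
            have h4 := congrArg Prod.fst h2
            have h5 := h.hS j c c.2
            have e1 : (pt M x y (j, c) true i).1 = ((y j c : ℕ) : ZMod M) := rfl
            have e2 : (pt M x y (j, c) false i).1 = ((x j c : ℕ) : ZMod M) := rfl
            rw [e1] at h3
            rw [e2] at h4
            simp only at h3 h4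
            apply no_two hM3 (S j) (hS j) ((x j c : ℕ) : ZMod M)
            rw [h5, ← h3, h4]
        · right
          rw [hQv]
          rw [h.hS j c hc] at he
          rcases he with rfl | rfl
          · exact ⟨⟨c, hc⟩, false, by simp [pt, pc]⟩
          · exact ⟨⟨c, hc⟩, true, by simp [pt, pc]⟩
    rw [heq]
    exact hlad
  -- assembly
  have hXlev : ∀ j, Disjoint X (lev L (pset (S j))) := fun j =>
    Set.disjoint_of_subset_left Set.subset_union_right (hlev0 j)
  have hYlev : ∀ j, Disjoint Y0 (lev L (pset (S j))) := fun j =>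
    Set.disjoint_of_subset_left Set.subset_union_left (hlev0 j)
  have hXYd : Disjoint X Y := by
    rw [hY, Set.disjoint_union_right]
    refine ⟨(hXY.symm).mono_right Set.diff_subset, ?_⟩
    rw [Set.disjoint_iUnion_right]
    exact fun j => (hXlev j).mono_right (hQhL j)
  have hQvYj : ∀ j, Qv j ⊆ Y0 := fun j => (Set.subset_iUnion Qv j).trans hQvY
  have hXZd : ∀ j, Disjoint X (Z j) := by
    intro j
    rw [hZ, Set.disjoint_union_right]
    exact ⟨(hXlev j).mono_right Set.diff_subset, hXY.symm.mono_right (hQvYj j)⟩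
  have hYZd : ∀ j, Disjoint Y (Z j) := by
    intro j
    rw [Set.disjoint_left]
    intro e he he'
    rw [hY] at he
    rw [hZ] at he'
    rcases he with ⟨h1, h2⟩ | h1
    · rcases he' with ⟨h3, -⟩ | h3
      · exact Set.disjoint_left.1 (hYlev j) h1 h3
      · exact h2 (Set.mem_iUnion.2 ⟨j, h3⟩)
    · obtain ⟨i, hi⟩ := Set.mem_iUnion.1 h1
      rcases he' with ⟨h3, h4⟩ | h3
      · by_cases hij : i = j
        · subst hij
          exact h4 hi
        · exact Set.disjoint_left.1 (hlevd i j hij) (hQhL i hi) h3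
      · exact Set.disjoint_left.1 (hYlev i) (hQvYj j h3) (hQhL i hi)
  have hZZd : ∀ i j, i ≠ j → Disjoint (Z i) (Z j) := by
    intro i j hij
    rw [Set.disjoint_left]
    intro e he he'
    rw [hZ] at he he'
    rcases he with ⟨h1, -⟩ | h1
    · rcases he' with ⟨h3, -⟩ | h3
      · exact Set.disjoint_left.1 (hlevd i j hij) h1 h3
      · exact Set.disjoint_left.1 (hYlev i) (hQvYj j h3) h1
    · rcases he' with ⟨h3, -⟩ | h3
      · exact Set.disjoint_left.1 (hYlev j) (hQvYj i h1) h3
      · exact Set.disjoint_left.1 (hQvd i j hij) h1 h3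
  have hbox : boxE (cyE M ∪ ⋃ j, pset (S j)) (cyE L) = (Y0 ∪ X) ∪ ⋃ j, lev L (pset (S j)) := by
    rw [← hXYu]
    ext e
    constructor
    · rintro (⟨u, u', v, hu | hu, rfl⟩ | ⟨u, v, v', hv, rfl⟩)
      · exact Or.inl (Or.inl ⟨u, u', v, hu, rfl⟩)
      · right
        rw [Set.mem_iUnion] at hu ⊢
        obtain ⟨j, hj⟩ := hu
        exact ⟨j, u, u', v, hj, rfl⟩
      · exact Or.inl (Or.inr ⟨u, v, v', hv, rfl⟩)
    · rintro ((⟨u, u', v, hu, rfl⟩ | ⟨u, v, v', hv, rfl⟩) | he)
      · exact Or.inl ⟨u, u', v, Or.inl hu, rfl⟩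
      · exact Or.inr ⟨u, v, v', hv, rfl⟩
      · rw [Set.mem_iUnion] at he
        obtain ⟨j, a, b, w, hab, rfl⟩ := he
        exact Or.inl ⟨a, b, w, Or.inr (Set.mem_iUnion.2 ⟨j, hab⟩), rfl⟩
  have hfin := decN_type (P := IsHC) (E := boxE (cyE M ∪ ⋃ j, pset (S j)) (cyE L))
    (fun i : Option (Option J) => match i with
      | none => X
      | some none => Y
      | some (some j) => Z j) (by
      rintro (_ | _ | j)
      · exact hcX
      · exact hcY
      · exact hcZ j) (by
      rintro (_ | _ | i) (_ | _ | j) hij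
      · exact absurd rfl hij
      · exact hXYd
      · exact hXZd j
      · exact hXYd.symm
      · exact absurd rfl hij
      · exact hYZd j
      · exact (hXZd i).symm
      · exact (hYZd i).symm
      · exact hZZd i j (fun h => hij (by rw [h]))) (by
      rw [hbox]
      ext e
      rw [Set.mem_iUnion]
      constructor
      · rintro ((he | he) | he)
        · by_cases hq : e ∈ ⋃ j, Qv j
          · obtain ⟨j, hj⟩ := Set.mem_iUnion.1 hq
            exact ⟨some (some j), by show e ∈ Z j; rw [hZ]; exact Or.inr hj⟩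
          · exact ⟨some none, by show e ∈ Y; rw [hY]; exact Or.inl ⟨he, hq⟩⟩
        · exact ⟨none, he⟩
        · obtain ⟨j, hj⟩ := Set.mem_iUnion.1 he
          by_cases hq : e ∈ Qh j
          · exact ⟨some none, by show e ∈ Y; rw [hY]; exact Or.inr (Set.mem_iUnion.2 ⟨j, hq⟩)⟩
          · exact ⟨some (some j), by show e ∈ Z j; rw [hZ]; exact Or.inl ⟨hj, hq⟩⟩
      · rintro ⟨_ | _ | j, he⟩
        · exact Or.inl (Or.inr he)
        · change e ∈ Y at he
          rw [hY] at he
          rcases he with he | he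
          · exact Or.inl (Or.inl he.1)
          · obtain ⟨j, hj⟩ := Set.mem_iUnion.1 he
            exact Or.inr (Set.mem_iUnion.2 ⟨j, hQhL j hj⟩)
        · change e ∈ Z j at he
          rw [hZ] at he
          rcases he with he | he
          · exact Or.inr (Set.mem_iUnion.2 ⟨j, he.1⟩)
          · exact Or.inl (Or.inl (hQvYj j he)))
  rwa [Fintype.card_option, Fintype.card_option, add_assoc] at hfin

end Pool.Agent.U460.LA
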